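import Mathlib
import Pool.Agent.Lib.MP_fcf01e_gt.Base

section

set_option autoImplicit false

/-!
Linear differential equations with entire coefficients on `ℂ`.
-/

namespace Pool.Agent.Lib.MP_fcf01e_gt

open Filter Topology Metric Set Nat

variable {V : Type*} [NormedAddCommGroup V] [NormedSpace ℂ V] [CompleteSpace V]

/-- Entire functions have primitives, with prescribed value at `0`. -/
theorem exists_primitive {f : ℂ → V} (hf : Differentiable ℂ f) (y : V) :
    ∃ F : ℂ → V, F 0 = y ∧ ∀ z, HasDerivAt F (f z) z := by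
  obtain ⟨g, h0, h1⟩ := hf.isExactOn_univ.with_val_at 0 y
  exact ⟨g, h0, fun z => h1 z (mem_univ z)⟩

/-- One step of the iteration. -/
noncomputable def linStep (A : ℂ → V →L[ℂ] V) (hA : Differentiable ℂ A)
    (f : {f : ℂ → V // Differentiable ℂ f}) : {f : ℂ → V // Differentiable ℂ f} :=
  ⟨(exists_primitive (hA.clm_apply f.2) 0).choose, fun z =>
    ((exists_primitive (hA.clm_apply f.2) 0).choose_spec.2 z).differentiableAt⟩

theorem linStep_zero (A : ℂ → V →L[ℂ] V) (hA : Differentiable ℂ A)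
    (f : {f : ℂ → V // Differentiable ℂ f}) : (linStep A hA f).1 0 = 0 :=
  (exists_primitive (hA.clm_apply f.2) 0).choose_spec.1

theorem linStep_deriv (A : ℂ → V →L[ℂ] V) (hA : Differentiable ℂ A)
    (f : {f : ℂ → V // Differentiable ℂ f}) (z : ℂ) :
    HasDerivAt (linStep A hA f).1 (A z (f.1 z)) z :=
  (exists_primitive (hA.clm_apply f.2) 0).choose_spec.2 z

/-- The terms of the series. -/
noncomputable def linSeq (A : ℂ → V →L[ℂ] V) (hA : Differentiable ℂ A) (v : V) (n : ℕ) :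
    {f : ℂ → V // Differentiable ℂ f} :=
  (linStep A hA)^[n] ⟨fun _ => v, differentiable_const v⟩

theorem linSeq_zero (A : ℂ → V →L[ℂ] V) (hA : Differentiable ℂ A) (v : V) (z : ℂ) :
    (linSeq A hA v 0).1 z = v := rfl

theorem linSeq_succ (A : ℂ → V →L[ℂ] V) (hA : Differentiable ℂ A) (v : V) (n : ℕ) :
    linSeq A hA v (n + 1) = linStep A hA (linSeq A hA v n) := by
  rw [linSeq, Function.iterate_succ_apply', linSeq]

theorem linSeq_bound (A : ℂ → V →L[ℂ] V) (hA : Differentiable ℂ A) (v : V) {M R : ℝ}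
    (hM : 0 ≤ M) (h : ∀ z, ‖z‖ ≤ R → ‖A z‖ ≤ M) (n : ℕ) :
    ∀ z : ℂ, ‖z‖ ≤ R → ‖(linSeq A hA v n).1 z‖ ≤ ‖v‖ * (M * ‖z‖) ^ n / n ! := by
  induction n with
  | zero =>
    intro z hz
    simp [linSeq_zero]
  | succ n ih =>
    intro z hz
    have hder : ∀ t : ℝ, HasDerivAt (fun t : ℝ => (linSeq A hA v (n + 1)).1 (t * z))
        (z • A (t * z) ((linSeq A hA v n).1 (t * z))) t := by
      intro t
      have h1 : HasDerivAt (linSeq A hA v (n + 1)).1
          (A (t * z) ((linSeq A hA v n).1 (t * z))) ((t : ℂ) * z) := by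
        rw [linSeq_succ]
        exact linStep_deriv A hA _ _
      have h2 : HasDerivAt (fun t : ℝ => (t : ℂ) * z) z t := by
        simpa using (Complex.ofRealCLM.hasDerivAt (x := t)).mul_const z
      exact h1.scomp t h2
    have key := image_norm_le_of_norm_deriv_right_le_deriv_boundary
      (f := fun t : ℝ => (linSeq A hA v (n + 1)).1 (t * z))
      (f' := fun t : ℝ => z • A (t * z) ((linSeq A hA v n).1 (t * z)))
      (a := 0) (b := 1) (B := fun t => ‖v‖ * (M * ‖z‖) ^ (n + 1) / (n + 1)! * t ^ (n + 1))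
      (B' := fun t => ‖v‖ * (M * ‖z‖) ^ (n + 1) / (n + 1)! * ((n + 1 : ℕ) * t ^ n))
      (fun t _ => (hder t).continuousAt.continuousWithinAt)
      (fun t _ => (hder t).hasDerivWithinAt) ?_ ?_ ?_ (right_mem_Icc.mpr zero_le_one)
    · simpa using key
    · simp [linSeq_succ, linStep_zero]
    · intro t
      simpa using (hasDerivAt_pow (n + 1) t).const_mul _
    · intro t ht
      have ht0 : 0 ≤ t := ht.1
      have hn : ‖(t : ℂ) * z‖ = t * ‖z‖ := by
        rw [norm_mul, Complex.norm_real, Real.norm_of_nonneg ht0]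
      have hR : ‖(t : ℂ) * z‖ ≤ R := by
        rw [hn]
        exact (mul_le_of_le_one_left (norm_nonneg _) ht.2.le).trans hz
      have h1 := ih _ hR
      rw [norm_smul]
      have h2 : ‖A (t * z) ((linSeq A hA v n).1 (t * z))‖ ≤
          M * (‖v‖ * (M * (t * ‖z‖)) ^ n / n !) := by
        refine ((A (t * z)).le_opNorm _).trans ?_
        rw [hn] at h1
        exact mul_le_mul (h _ hR) h1 (norm_nonneg _) hM
      refine (mul_le_mul_of_nonneg_left h2 (norm_nonneg z)).trans (le_of_eq ?_)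
      have hf : ((n + 1)! : ℝ) = (n + 1) * n ! := by
        rw [Nat.factorial_succ]
        push_cast
        ring
      have hf0 : (n ! : ℝ) ≠ 0 := by positivity
      have hf1 : (n + 1 : ℝ) ≠ 0 := by positivity
      rw [hf]
      push_cast
      field_simp
      ring

/-- Linear systems with entire coefficients have entire solutions. -/
theorem exists_linSys (A : ℂ → V →L[ℂ] V) (hA : Differentiable ℂ A) (v : V) :
    ∃ Y : ℂ → V, Y 0 = v ∧ ∀ z, HasDerivAt Y (A z (Y z)) z := by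
  have hbd : ∀ R : ℝ, ∃ M : ℝ, 0 ≤ M ∧ ∀ z : ℂ, ‖z‖ ≤ R → ‖A z‖ ≤ M := by
    intro R
    obtain ⟨C, hC⟩ := (isCompact_closedBall (0 : ℂ) R).exists_bound_of_continuousOn
      hA.continuous.continuousOn
    refine ⟨max C 0, le_max_right _ _, fun z hz => ?_⟩
    exact (hC z (by simpa using hz)).trans (le_max_left _ _)
  have hexp : ∀ c : ℝ, Summable fun n : ℕ => c ^ n / n ! := fun c =>
    Real.summable_pow_div_factorial c
  refine ⟨fun z => ∑' n, (linSeq A hA v n).1 z, ?_, fun z => ?_⟩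
  · have h0 : ∀ n, n ≠ 0 → (linSeq A hA v n).1 0 = 0 := by
      intro n hn
      obtain ⟨m, rfl⟩ := Nat.exists_eq_succ_of_ne_zero hn
      rw [Nat.succ_eq_add_one, linSeq_succ, linStep_zero]
    simp only
    rw [tsum_eq_single 0 h0, linSeq_zero]
  · set R : ℝ := ‖z‖ + 1 with hR
    obtain ⟨M, hM, hMR⟩ := hbd R
    have hR0 : 0 < R := by positivity
    set u : ℕ → ℝ := fun n => match n with
      | 0 => 0
      | (n + 1) => M * (‖v‖ * ((M * R) ^ n / n !)) with hu
    set g' : ℕ → ℂ → V := fun n y => match n with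
      | 0 => 0
      | (n + 1) => A y ((linSeq A hA v n).1 y) with hg'
    have hus : Summable u := by
      rw [← summable_nat_add_iff 1]
      exact ((hexp (M * R)).mul_left ‖v‖).mul_left M
    have hbn : ∀ n, ∀ y : ℂ, ‖y‖ ≤ R → ‖(linSeq A hA v n).1 y‖ ≤ ‖v‖ * ((M * R) ^ n / n !) := by
      intro n y hy
      refine (linSeq_bound A hA v hM hMR n y hy).trans ?_
      rw [mul_div_assoc]
      refine mul_le_mul_of_nonneg_left ?_ (norm_nonneg v)
      refine div_le_div_of_nonneg_right ?_ (by positivity)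
      exact pow_le_pow_left₀ (by positivity) (mul_le_mul_of_nonneg_left hy hM) n
    have hsum : ∀ y : ℂ, ‖y‖ ≤ R → Summable fun n => (linSeq A hA v n).1 y := fun y hy =>
      Summable.of_norm_bounded ((hexp (M * R)).mul_left ‖v‖) fun n => hbn n y hy
    have key := hasDerivAt_tsum_of_isPreconnected (g := fun n => (linSeq A hA v n).1) (g' := g')
      (u := u) (t := ball (0 : ℂ) R) (y₀ := 0) (y := z) hus isOpen_ball
      (convex_ball (0 : ℂ) R).isPreconnected ?_ ?_ (by simpa using hR0) (hsum 0 (by simpa using hR0.le))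
      (by simp [hR])
    · refine key.congr_deriv ?_
      have hz : ‖z‖ ≤ R := by simp [hR]
      have hsz := hsum z hz
      have h1 : Summable fun n => g' n z := by
        rw [← summable_nat_add_iff 1]
        exact (A z).summable hsz
      rw [h1.tsum_eq_zero_add]
      simp only [hg', zero_add]
      exact ((A z).map_tsum hsz).symm
    · intro n y hy
      rcases n with _ | n
      · simp only [hg']
        exact hasDerivAt_const y v
      · simp only [hg', linSeq_succ]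
        exact linStep_deriv A hA _ y
    · intro n y hy
      have hy' : ‖y‖ ≤ R := by
        have := mem_ball_zero_iff.mp hy
        exact this.le
      rcases n with _ | n
      · simp [hg', hu]
      · simp only [hg', hu]
        exact ((A y).le_opNorm _).trans
          (mul_le_mul (hMR y hy') (hbn n y hy') (norm_nonneg _) hM)

/-- Second order equations `y'' = p y' + q y` with entire coefficients. -/
theorem exists_ode2 {p q : ℂ → ℂ} (hp : Differentiable ℂ p) (hq : Differentiable ℂ q) (a b : ℂ) :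
    ∃ y y' : ℂ → ℂ, y 0 = a ∧ y' 0 = b ∧ (∀ z, HasDerivAt y (y' z) z) ∧
      ∀ z, HasDerivAt y' (p z * y' z + q z * y z) z := by
  set A : ℂ → (ℂ × ℂ) →L[ℂ] (ℂ × ℂ) := fun z =>
    (ContinuousLinearMap.snd ℂ ℂ ℂ).prod
      (p z • ContinuousLinearMap.snd ℂ ℂ ℂ + q z • ContinuousLinearMap.fst ℂ ℂ ℂ) with hA
  have hA' : ∀ z, A z = (ContinuousLinearMap.inl ℂ ℂ ℂ).comp (ContinuousLinearMap.snd ℂ ℂ ℂ) +
      p z • (ContinuousLinearMap.inr ℂ ℂ ℂ).comp (ContinuousLinearMap.snd ℂ ℂ ℂ) +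
      q z • (ContinuousLinearMap.inr ℂ ℂ ℂ).comp (ContinuousLinearMap.fst ℂ ℂ ℂ) := by
    intro z
    ext <;> simp [hA]
  have hAd : Differentiable ℂ A := by
    rw [show A = _ from funext hA']
    exact ((differentiable_const _).add (hp.smul_const _)).add (hq.smul_const _)
  obtain ⟨Y, h0, hY⟩ := exists_linSys A hAd (a, b)
  refine ⟨fun z => (Y z).1, fun z => (Y z).2, by simp [h0], by simp [h0], fun z => ?_, fun z => ?_⟩
  · have := ((ContinuousLinearMap.fst ℂ ℂ ℂ).hasFDerivAt (x := Y z)).comp_hasDerivAt z (hY z)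
    exact this.congr_deriv (by simp [hA])
  · have := ((ContinuousLinearMap.snd ℂ ℂ ℂ).hasFDerivAt (x := Y z)).comp_hasDerivAt z (hY z)
    exact this.congr_deriv (by simp [hA])

end Pool.Agent.Lib.MP_fcf01e_gt
end

section

/-! # Task G1: linear differential equations with entire coefficients -/

open Complex MeasureTheory

namespace Pool.Agent.StatSurf

/-- Second order linear differential equations with an entire coefficient have entire solutions
(Picard iteration with primitives, or power series). -/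
theorem exists_ode {Q : ℂ → ℂ} (hQ : Differentiable ℂ Q) (a b : ℂ) :
    ∃ u : ℂ → ℂ, Differentiable ℂ u ∧ u 0 = a ∧ deriv u 0 = b ∧
      ∀ z, deriv (deriv u) z = Q z * u z := by
  obtain ⟨y, y', h0, h1, h2, h3⟩ :=
    Pool.Agent.Lib.MP_fcf01e_gt.exists_ode2 (p := fun _ => 0) (differentiable_const _) hQ a b
  have h4 : deriv y = y' := funext fun z => (h2 z).deriv
  refine ⟨y, fun z => (h2 z).differentiableAt, h0, by rw [h4, h1], fun z => ?_⟩
  rw [h4, (h3 z).deriv]
  ring

/-- A basis of solutions with Wronskian `1`. -/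
theorem exists_basis {Q : ℂ → ℂ} (hQ : Differentiable ℂ Q) :
    ∃ u v : ℂ → ℂ, Differentiable ℂ u ∧ Differentiable ℂ v ∧
      (∀ z, deriv (deriv u) z = Q z * u z) ∧ (∀ z, deriv (deriv v) z = Q z * v z) ∧
      ∀ z, u z * deriv v z - deriv u z * v z = 1 := by
  obtain ⟨u, hu, u0, u0', hu2⟩ := exists_ode hQ 1 0
  obtain ⟨v, hv, v0, v0', hv2⟩ := exists_ode hQ 0 1
  refine ⟨u, v, hu, hv, hu2, hv2, fun z => ?_⟩
  have hd : ∀ z, HasDerivAt (fun z => u z * deriv v z - deriv u z * v z) 0 z := by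
    intro z
    have a := ((hu z).hasDerivAt.mul (hv.deriv z).hasDerivAt).sub
      ((hu.deriv z).hasDerivAt.mul (hv z).hasDerivAt)
    refine a.congr_deriv ?_
    rw [hu2 z, hv2 z]
    ring
  have hc := is_const_of_deriv_eq_zero (fun z => (hd z).differentiableAt)
    (fun z => (hd z).deriv) z 0
  simp only [u0, u0', v0, v0'] at hc
  rw [hc]
  norm_num

end Pool.Agent.StatSurf
end

section

/-! # Task G2: the complex Liouville equation -/

open Complex MeasureTheory

namespace Pool.Agent.StatSurf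

/-- The Wirtinger derivatives. -/
noncomputable def dz (f : ℂ → ℂ) (z : ℂ) : ℂ := (pd 0 f z - I * pd 1 f z) / 2

noncomputable def dzb (f : ℂ → ℂ) (z : ℂ) : ℂ := (pd 0 f z + I * pd 1 f z) / 2

theorem G2_pd0 (f : ℂ → ℂ) (z : ℂ) : pd 0 f z = fderiv ℝ f z 1 := by
  simp [pd, e]

theorem G2_pd1 (f : ℂ → ℂ) (z : ℂ) : pd 1 f z = fderiv ℝ f z I := by
  simp [pd, e]

theorem G2_dz (f : ℂ → ℂ) (z : ℂ) : dz f z = (fderiv ℝ f z 1 - I * fderiv ℝ f z I) / 2 := by
  rw [dz, G2_pd0, G2_pd1]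

theorem G2_dzb (f : ℂ → ℂ) (z : ℂ) : dzb f z = (fderiv ℝ f z 1 + I * fderiv ℝ f z I) / 2 := by
  rw [dzb, G2_pd0, G2_pd1]

theorem G2_mul (f g : ℂ → ℂ) (z : ℂ) (hf : DifferentiableAt ℝ f z) (hg : DifferentiableAt ℝ g z) :
    dz (fun w => f w * g w) z = dz f z * g z + f z * dz g z ∧
    dzb (fun w => f w * g w) z = dzb f z * g z + f z * dzb g z := by
  simp only [G2_dz, G2_dzb]
  rw [fderiv_fun_mul hf hg]
  simp only [_root_.add_apply, _root_.smul_apply, smul_eq_mul]
  constructor <;> ring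

theorem G2_sub (f g : ℂ → ℂ) (z : ℂ) (hf : DifferentiableAt ℝ f z) (hg : DifferentiableAt ℝ g z) :
    dz (fun w => f w - g w) z = dz f z - dz g z ∧
    dzb (fun w => f w - g w) z = dzb f z - dzb g z := by
  simp only [G2_dz, G2_dzb]
  rw [fderiv_fun_sub hf hg]
  simp only [_root_.sub_apply]
  constructor <;> ring

theorem G2_const_mul (c : ℂ) (g : ℂ → ℂ) (z : ℂ) (hg : DifferentiableAt ℝ g z) :
    dz (fun w => c * g w) z = c * dz g z ∧
    dzb (fun w => c * g w) z = c * dzb g z := by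
  simp only [G2_dz, G2_dzb]
  rw [fderiv_const_mul hg]
  simp only [_root_.smul_apply, smul_eq_mul]
  constructor <;> ring

theorem G2_hol (f : ℂ → ℂ) (z : ℂ) (hf : DifferentiableAt ℂ f z) :
    dz f z = deriv f z ∧ dzb f z = 0 := by
  have h : ∀ h : ℂ, fderiv ℝ f z h = deriv f z * h := fun h => by
    rw [hf.hasDerivAt.complexToReal_fderiv.fderiv]
    simp
  rw [G2_dz, G2_dzb, h, h]
  constructor
  · linear_combination (-(1 / 2) * deriv f z) * I_sq
  · linear_combination ((1 / 2) * deriv f z) * I_sq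

theorem G2_exp (f : ℂ → ℂ) (z : ℂ) (hf : DifferentiableAt ℝ f z) :
    dz (fun w => exp (f w)) z = dz f z * exp (f z) ∧
    dzb (fun w => exp (f w)) z = dzb f z * exp (f z) := by
  have h1 : HasFDerivAt (fun w => exp (f w)) (exp (f z) • fderiv ℝ f z) z := hf.hasFDerivAt.cexp
  simp only [G2_dz, G2_dzb]
  rw [h1.fderiv]
  simp only [_root_.smul_apply, smul_eq_mul]
  constructor <;> ring

/-- A smooth function with `∂f/∂\bar z = 0` is entire. -/
theorem differentiable_of_dzb {f : ℂ → ℂ} (hf : ContDiff ℝ 1 f) (h : ∀ z, dzb f z = 0) :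
    Differentiable ℂ f := by
  intro z
  have hfd : Differentiable ℝ f := hf.differentiable (by norm_num)
  have h1 : fderiv ℝ f z I = I * fderiv ℝ f z 1 := by
    have h2 := h z
    rw [G2_dzb] at h2
    linear_combination (-2 * I) * h2 + (fderiv ℝ f z I) * I_sq
  have h2 : HasDerivAt f (fderiv ℝ f z 1) z := by
    rw [hasDerivAt_iff_hasFDerivAt]
    refine hasFDerivAt_of_restrictScalars ℝ (hfd z).hasFDerivAt ?_
    ext w
    have h3 : fderiv ℝ f z w = (w.re : ℂ) * fderiv ℝ f z 1 + (w.im : ℂ) * fderiv ℝ f z I := by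
      have h4 : w = w.re • (1 : ℂ) + w.im • I := by simp
      calc fderiv ℝ f z w = fderiv ℝ f z (w.re • (1 : ℂ) + w.im • I) := by rw [← h4]
        _ = _ := by rw [map_add, map_smul, map_smul, real_smul, real_smul]
    rw [h3, h1]
    simp only [ContinuousLinearMap.coe_restrictScalars', ContinuousLinearMap.toSpanSingleton_apply,
      smul_eq_mul]
    nth_rewrite 1 [← re_add_im w]
    ring
  exact h2.differentiableAt

/-- A smooth function with `∂f/∂z = 0` is the conjugate of an entire function. -/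
theorem conj_differentiable_of_dz {f : ℂ → ℂ} (hf : ContDiff ℝ 1 f) (h : ∀ z, dz f z = 0) :
    Differentiable ℂ (fun z => (starRingEnd ℂ) (f z)) := by
  have hfd : Differentiable ℝ f := hf.differentiable (by norm_num)
  have hc : ∀ z h, fderiv ℝ (fun w => (starRingEnd ℂ) (f w)) z h =
      (starRingEnd ℂ) (fderiv ℝ f z h) := by
    intro z h
    have h1 : HasFDerivAt (fun w => (starRingEnd ℂ) (f w))
        ((conjCLE : ℂ →L[ℝ] ℂ).comp (fderiv ℝ f z)) z :=
      (conjCLE : ℂ →L[ℝ] ℂ).hasFDerivAt.comp z (hfd z).hasFDerivAt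
    rw [h1.fderiv]
    simp
  refine differentiable_of_dzb ((conjCLE : ℂ →L[ℝ] ℂ).contDiff.comp hf) fun z => ?_
  have h2 := congrArg (starRingEnd ℂ) (h z)
  rw [G2_dz] at h2
  rw [G2_dzb, hc, hc]
  simp only [map_mul, map_sub, conj_I, map_zero, map_div₀, map_ofNat] at h2
  linear_combination h2

theorem G2_contDiff (f : ℂ → ℂ) (n : ℕ) (hf : ContDiff ℝ (n + 1 : ℕ) f) :
    ContDiff ℝ n (dz f) ∧ ContDiff ℝ n (dzb f) := by
  have h1 : ContDiff ℝ n (fderiv ℝ f) := hf.fderiv_right (by norm_cast)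
  have h2 : ∀ w : ℂ, ContDiff ℝ n fun z => fderiv ℝ f z w := fun w => h1.clm_apply contDiff_const
  rw [show dz f = _ from funext (G2_dz f), show dzb f = _ from funext (G2_dzb f)]
  constructor
  · exact ((h2 1).sub (contDiff_const.mul (h2 I))).div_const 2
  · exact ((h2 1).add (contDiff_const.mul (h2 I))).div_const 2

/-- The mixed second derivatives. -/
theorem G2_mixed (f : ℂ → ℂ) (hf : ContDiff ℝ 2 f) (z : ℂ) :
    dzb (dz f) z = lap f z / 4 ∧ dz (dzb f) z = lap f z / 4 := by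
  have h1 : ContDiff ℝ 1 (fderiv ℝ f) := hf.fderiv_right (by norm_num)
  have hd : DifferentiableAt ℝ (fderiv ℝ f) z := h1.differentiable (by norm_num) z
  have hs : ∀ v w : ℂ, fderiv ℝ (fderiv ℝ f) z v w = fderiv ℝ (fderiv ℝ f) z w v :=
    fun v w => (hf.contDiffAt.isSymmSndFDerivAt (by simp)) v w
  have h2 : ∀ v w : ℂ, fderiv ℝ (fun y => fderiv ℝ f y w) z v = fderiv ℝ (fderiv ℝ f) z v w := by
    intro v w
    rw [fderiv_clm_apply hd (differentiableAt_const w)]
    simp
  have hdd : ∀ w : ℂ, DifferentiableAt ℝ (fun y => fderiv ℝ f y w) z := fun w =>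
    hd.clm_apply (differentiableAt_const w)
  have h3 : ∀ v : ℂ, fderiv ℝ (dz f) z v =
      (1 / 2) * (fderiv ℝ (fderiv ℝ f) z v 1 - I * fderiv ℝ (fderiv ℝ f) z v I) := by
    intro v
    have : dz f = fun y => (1 / 2 : ℂ) * (fderiv ℝ f y 1 - I * fderiv ℝ f y I) := by
      funext y
      rw [G2_dz]
      ring
    rw [this, fderiv_const_mul (DifferentiableAt.fun_sub (hdd 1) ((hdd I).const_mul I)),
      fderiv_fun_sub (hdd 1) ((hdd I).const_mul I), fderiv_const_mul (hdd I)]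
    simp only [_root_.smul_apply, _root_.sub_apply, h2, smul_eq_mul]
  have h4 : ∀ v : ℂ, fderiv ℝ (dzb f) z v =
      (1 / 2) * (fderiv ℝ (fderiv ℝ f) z v 1 + I * fderiv ℝ (fderiv ℝ f) z v I) := by
    intro v
    have : dzb f = fun y => (1 / 2 : ℂ) * (fderiv ℝ f y 1 + I * fderiv ℝ f y I) := by
      funext y
      rw [G2_dzb]
      ring
    rw [this, fderiv_const_mul (DifferentiableAt.fun_add (hdd 1) ((hdd I).const_mul I)),
      fderiv_fun_add (hdd 1) ((hdd I).const_mul I), fderiv_const_mul (hdd I)]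
    simp only [_root_.smul_apply, _root_.add_apply, h2, smul_eq_mul]
  have h5 : lap f z = fderiv ℝ (fderiv ℝ f) z 1 1 + fderiv ℝ (fderiv ℝ f) z I I := by
    rw [lap, show pd 0 f = _ from funext (G2_pd0 f), show pd 1 f = _ from funext (G2_pd1 f),
      G2_pd0, G2_pd1, h2, h2]
  rw [G2_dzb (dz f), G2_dz (dzb f), h3, h3, h4, h4, hs 1 I, h5]
  constructor
  · linear_combination (-(1 / 4) * fderiv ℝ (fderiv ℝ f) z I I) * I_sq
  · linear_combination (-(1 / 4) * fderiv ℝ (fderiv ℝ f) z I I) * I_sq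

theorem G2_of_top {l : ℂ → ℂ} (hl : ContDiff ℝ (⊤ : ℕ∞) l) (n : ℕ) : ContDiff ℝ n l :=
  hl.of_le (by exact_mod_cast le_top)

/-- `Q = (l_z)² / 4 - l_zz / 2` is entire. -/
theorem liouville_Q {l : ℂ → ℂ} (hl : ContDiff ℝ (⊤ : ℕ∞) l)
    (hL : ∀ z, lap l z = -2 * exp (l z)) :
    Differentiable ℂ (fun z => (dz l z) ^ 2 / 4 - dz (dz l) z / 2) := by
  have hl0 : ∀ n : ℕ, ContDiff ℝ n l := G2_of_top hl
  have hl1 : ∀ n : ℕ, ContDiff ℝ n (dz l) := fun n => (G2_contDiff l n (hl0 (n + 1))).1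
  have hl2 : ∀ n : ℕ, ContDiff ℝ n (dz (dz l)) := fun n => (G2_contDiff _ n (hl1 (n + 1))).1
  have hd0 : Differentiable ℝ l := (hl0 1).differentiable (by norm_num)
  have hd1 : Differentiable ℝ (dz l) := (hl1 1).differentiable (by norm_num)
  have hd2 : Differentiable ℝ (dz (dz l)) := (hl2 1).differentiable (by norm_num)
  have hb : dzb (dz l) = fun z => (-(1 / 2) : ℂ) * exp (l z) := by
    funext z
    rw [(G2_mixed l (hl0 2) z).1, hL z]
    ring
  have hE : ∀ z, dzb (dz (dz l)) z = dz l z * dzb (dz l) z := by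
    intro z
    rw [(G2_mixed (dz l) (hl1 2) z).1, ← (G2_mixed (dz l) (hl1 2) z).2, hb,
      (G2_const_mul _ _ z (hd0 z).cexp).1, (G2_exp l z (hd0 z)).1]
    ring
  have e0 : (fun z => (dz l z) ^ 2 / 4 - dz (dz l) z / 2) =
      fun z => (1 / 4 : ℂ) * (dz l z * dz l z) - (1 / 2 : ℂ) * dz (dz l) z := by
    funext z
    ring
  rw [e0]
  have hA : Differentiable ℝ fun z => (1 / 4 : ℂ) * (dz l z * dz l z) := (hd1.mul hd1).const_mul _
  have hB : Differentiable ℝ fun z => (1 / 2 : ℂ) * dz (dz l) z := hd2.const_mul _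
  refine differentiable_of_dzb ?_ fun z => ?_
  · have a := (contDiff_const (c := (1 / 4 : ℂ))).mul ((hl1 1).mul (hl1 1))
    have b := (contDiff_const (c := (1 / 2 : ℂ))).mul (hl2 1)
    exact_mod_cast a.sub b
  · have e1 := (G2_const_mul (1 / 4) (fun z => dz l z * dz l z) z ((hd1.mul hd1) z)).2
    rw [(G2_sub _ _ z (hA z) (hB z)).2, e1, (G2_const_mul _ _ z (hd2 z)).2, (G2_mul _ _ z (hd1 z) (hd1 z)).2, hE z]
    ring

/-- `F = exp (-l / 2)` satisfies `F_zz = Q F`, so `F = u₁ α + u₂ β` with `α = F u₂' - F_z u₂`,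
`β = F_z u₁ - F u₁'` antiholomorphic. -/
theorem liouville_decomp {l : ℂ → ℂ} (hl : ContDiff ℝ (⊤ : ℕ∞) l)
    (hL : ∀ z, lap l z = -2 * exp (l z)) :
    ∃ a₁ a₂ c₁ c₂ : ℂ → ℂ, Differentiable ℂ a₁ ∧ Differentiable ℂ a₂ ∧ Differentiable ℂ c₁ ∧
      Differentiable ℂ c₂ ∧ ∀ z, exp (- l z / 2) =
        a₁ z * (starRingEnd ℂ) (c₂ z) - a₂ z * (starRingEnd ℂ) (c₁ z) := by
  obtain ⟨u, v, hu, hv, hu2, hv2, hW⟩ := exists_basis (liouville_Q hl hL)
  have hl0 : ∀ n : ℕ, ContDiff ℝ n l := G2_of_top hl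
  have hl1 : ∀ n : ℕ, ContDiff ℝ n (dz l) := fun n => (G2_contDiff l n (hl0 (n + 1))).1
  have hd0 : Differentiable ℝ l := (hl0 1).differentiable (by norm_num)
  have hd1 : Differentiable ℝ (dz l) := (hl1 1).differentiable (by norm_num)
  have hre : ∀ {g : ℂ → ℂ}, Differentiable ℂ g → Differentiable ℝ g := fun h z =>
    (h z).restrictScalars ℝ
  set F : ℂ → ℂ := fun z => exp (-l z / 2) with hF
  have hF' : F = fun z => exp ((-(1 / 2) : ℂ) * l z) := by
    funext z
    rw [hF]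
    simp only
    congr 1
    ring
  have hFc : ∀ n : ℕ, ContDiff ℝ n F := fun n => by
    rw [hF']
    exact (contDiff_const.mul (hl0 n)).cexp
  have hFz : ∀ z, dz F z = (-(1 / 2) : ℂ) * dz l z * F z := by
    intro z
    rw [hF', (G2_exp _ z ((hd0 z).const_mul _)).1, (G2_const_mul _ _ z (hd0 z)).1]
  have hFz' : dz F = fun z => (-(1 / 2) : ℂ) * dz l z * F z := funext hFz
  have hFzc : ∀ n : ℕ, ContDiff ℝ n (dz F) := fun n => by
    rw [hFz']
    exact (contDiff_const.mul (hl1 n)).mul (hFc n)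
  have hFd : Differentiable ℝ F := (hFc 1).differentiable (by norm_num)
  have hFzd : Differentiable ℝ (dz F) := (hFzc 1).differentiable (by norm_num)
  have hFzz : ∀ z, dz (dz F) z = ((dz l z) ^ 2 / 4 - dz (dz l) z / 2) * F z := by
    intro z
    rw [hFz', (G2_mul (fun z => (-(1 / 2) : ℂ) * dz l z) F z ((hd1 z).const_mul _) (hFd z)).1,
      (G2_const_mul _ _ z (hd1 z)).1, hFz z]
    ring
  have key : ∀ y : ℂ → ℂ, Differentiable ℂ y →
      (∀ z, deriv (deriv y) z = ((dz l z) ^ 2 / 4 - dz (dz l) z / 2) * y z) →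
      Differentiable ℂ fun z => (starRingEnd ℂ) (F z * deriv y z - dz F z * y z) := by
    intro y hy he
    have hyc : ContDiff ℝ 1 y := hy.contDiff.restrict_scalars ℝ
    have hyc' : ContDiff ℝ 1 (deriv y) := hy.deriv.contDiff.restrict_scalars ℝ
    refine conj_differentiable_of_dz ?_ fun z => ?_
    · have a := (hFc 1).mul hyc'
      have b := (hFzc 1).mul hyc
      exact_mod_cast a.sub b
    · rw [(G2_sub (fun z => F z * deriv y z) (fun z => dz F z * y z) z
        ((hFd.mul (hre hy.deriv)) z) ((hFzd.mul (hre hy)) z)).1,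
        (G2_mul _ _ z (hFd z) (hre hy.deriv z)).1, (G2_mul _ _ z (hFzd z) (hre hy z)).1,
        (G2_hol _ z (hy.deriv z)).1, (G2_hol _ z (hy z)).1, hFzz z, he z]
      ring
  refine ⟨u, v, fun z => (starRingEnd ℂ) (F z * deriv u z - dz F z * u z),
    fun z => (starRingEnd ℂ) (F z * deriv v z - dz F z * v z), hu, hv, key u hu hu2, key v hv hv2,
    fun z => ?_⟩
  simp only [conj_conj]
  change F z = _
  linear_combination (-(F z)) * hW z

end Pool.Agent.StatSurf
end

section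

/-! # Task A1: the algebra of the functions uniformly approximable by polynomials -/

open Complex MeasureTheory

namespace Pool.Agent.StatSurf

theorem Appr.congr {K : Set ℂ} {f g : ℂ → ℂ} (hf : Appr K f) (h : ∀ z ∈ K, g z = f z) :
    Appr K g := by
  intro ε hε
  obtain ⟨p, hp⟩ := hf ε hε
  exact ⟨p, fun z hz => by rw [h z hz]; exact hp z hz⟩

theorem appr_poly (K : Set ℂ) (p : Polynomial ℂ) : Appr K (fun z => p.eval z) := by
  intro ε hε
  exact ⟨p, fun z _ => by simpa using hε.le⟩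

theorem Appr.mono {K K' : Set ℂ} {f : ℂ → ℂ} (hf : Appr K f) (h : K' ⊆ K) : Appr K' f := by
  intro ε hε
  obtain ⟨p, hp⟩ := hf ε hε
  exact ⟨p, fun z hz => hp z (h hz)⟩

/-- A polynomial is bounded on a compact set. -/
private theorem poly_bdd {K : Set ℂ} (hK : IsCompact K) (p : Polynomial ℂ) :
    ∃ M, 0 ≤ M ∧ ∀ z ∈ K, ‖p.eval z‖ ≤ M := by
  obtain ⟨M, hM⟩ := hK.exists_bound_of_continuousOn (f := fun z => p.eval z)
    (p.continuous.continuousOn)
  exact ⟨max M 0, le_max_right _ _, fun z hz => (hM z hz).trans (le_max_left _ _)⟩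

theorem Appr.bounded {K : Set ℂ} (hK : IsCompact K) {f : ℂ → ℂ} (hf : Appr K f) :
    ∃ M, ∀ z ∈ K, ‖f z‖ ≤ M := by
  obtain ⟨p, hp⟩ := hf 1 one_pos
  obtain ⟨M, _, hM⟩ := poly_bdd hK p
  refine ⟨1 + M, fun z hz => ?_⟩
  calc ‖f z‖ = ‖(f z - p.eval z) + p.eval z‖ := by congr 1; ring
    _ ≤ ‖f z - p.eval z‖ + ‖p.eval z‖ := norm_add_le _ _
    _ ≤ 1 + M := add_le_add (hp z hz) (hM z hz)

theorem Appr.add {K : Set ℂ} {f g : ℂ → ℂ} (hf : Appr K f) (hg : Appr K g) :
    Appr K (fun z => f z + g z) := by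
  intro ε hε
  obtain ⟨p, hp⟩ := hf (ε / 2) (half_pos hε)
  obtain ⟨q, hq⟩ := hg (ε / 2) (half_pos hε)
  refine ⟨p + q, fun z hz => ?_⟩
  rw [Polynomial.eval_add]
  calc ‖f z + g z - (p.eval z + q.eval z)‖ = ‖(f z - p.eval z) + (g z - q.eval z)‖ := by
        congr 1; ring
    _ ≤ ‖f z - p.eval z‖ + ‖g z - q.eval z‖ := norm_add_le _ _
    _ ≤ ε / 2 + ε / 2 := add_le_add (hp z hz) (hq z hz)
    _ = ε := by ring

theorem Appr.sub {K : Set ℂ} {f g : ℂ → ℂ} (hf : Appr K f) (hg : Appr K g) :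
    Appr K (fun z => f z - g z) := by
  intro ε hε
  obtain ⟨p, hp⟩ := hf (ε / 2) (half_pos hε)
  obtain ⟨q, hq⟩ := hg (ε / 2) (half_pos hε)
  refine ⟨p - q, fun z hz => ?_⟩
  rw [Polynomial.eval_sub]
  calc ‖f z - g z - (p.eval z - q.eval z)‖ = ‖(f z - p.eval z) - (g z - q.eval z)‖ := by
        congr 1; ring
    _ ≤ ‖f z - p.eval z‖ + ‖g z - q.eval z‖ := norm_sub_le _ _
    _ ≤ ε / 2 + ε / 2 := add_le_add (hp z hz) (hq z hz)
    _ = ε := by ring

theorem Appr.mul {K : Set ℂ} (hK : IsCompact K) {f g : ℂ → ℂ} (hf : Appr K f) (hg : Appr K g) :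
    Appr K (fun z => f z * g z) := by
  intro ε hε
  obtain ⟨M₀, hM₀⟩ := hg.bounded hK
  set M := max M₀ 0 + 1 with hMdef
  have hM1 : 0 < M := by have := le_max_right M₀ 0; linarith
  have hM : ∀ z ∈ K, ‖g z‖ ≤ M := fun z hz =>
    (hM₀ z hz).trans ((le_max_left M₀ 0).trans (by linarith))
  obtain ⟨p, hp⟩ := hf (ε / (2 * M)) (by positivity)
  obtain ⟨N₀, hN₀, hN₁⟩ := poly_bdd hK p
  set N := N₀ + 1 with hNdef
  have hN0 : 0 < N := by linarith
  have hN : ∀ z ∈ K, ‖p.eval z‖ ≤ N := fun z hz => (hN₁ z hz).trans (by linarith)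
  obtain ⟨q, hq⟩ := hg (ε / (2 * N)) (by positivity)
  refine ⟨p * q, fun z hz => ?_⟩
  rw [Polynomial.eval_mul]
  calc ‖f z * g z - p.eval z * q.eval z‖
      = ‖(f z - p.eval z) * g z + p.eval z * (g z - q.eval z)‖ := by congr 1; ring
    _ ≤ ‖(f z - p.eval z) * g z‖ + ‖p.eval z * (g z - q.eval z)‖ := norm_add_le _ _
    _ = ‖f z - p.eval z‖ * ‖g z‖ + ‖p.eval z‖ * ‖g z - q.eval z‖ := by
        rw [norm_mul, norm_mul]
    _ ≤ ε / (2 * M) * M + N * (ε / (2 * N)) := by
        refine add_le_add ?_ ?_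
        · exact mul_le_mul (hp z hz) (hM z hz) (norm_nonneg _) (by positivity)
        · exact mul_le_mul (hN z hz) (hq z hz) (norm_nonneg _) hN0.le
    _ = ε := by field_simp; ring

theorem Appr.pow {K : Set ℂ} (hK : IsCompact K) {f : ℂ → ℂ} (hf : Appr K f) (n : ℕ) :
    Appr K (fun z => f z ^ n) := by
  induction n with
  | zero =>
    refine (appr_poly K 1).congr fun z _ => ?_
    simp
  | succ n ih =>
    refine (Appr.mul hK ih hf).congr fun z _ => ?_
    rw [pow_succ]

theorem Appr.prod {K : Set ℂ} (hK : IsCompact K) {ι : Type*} (s : Finset ι) {f : ι → ℂ → ℂ}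
    (hf : ∀ i ∈ s, Appr K (f i)) : Appr K (fun z => ∏ i ∈ s, f i z) := by
  classical
  induction s using Finset.induction_on with
  | empty =>
    refine (appr_poly K 1).congr fun z _ => ?_
    simp
  | insert a s ha ih =>
    refine (Appr.mul hK (hf a (Finset.mem_insert_self a s))
      (ih fun i hi => hf i (Finset.mem_insert_of_mem hi))).congr fun z _ => ?_
    rw [Finset.prod_insert ha]

/-- Uniform limits of approximable functions are approximable. -/
theorem Appr.of_limit {K : Set ℂ} {f : ℂ → ℂ}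
    (h : ∀ ε > 0, ∃ g, Appr K g ∧ ∀ z ∈ K, ‖f z - g z‖ ≤ ε) : Appr K f := by
  intro ε hε
  obtain ⟨g, hg, hfg⟩ := h (ε / 2) (half_pos hε)
  obtain ⟨p, hp⟩ := hg (ε / 2) (half_pos hε)
  refine ⟨p, fun z hz => ?_⟩
  calc ‖f z - p.eval z‖ = ‖(f z - g z) + (g z - p.eval z)‖ := by congr 1; ring
    _ ≤ ‖f z - g z‖ + ‖g z - p.eval z‖ := norm_add_le _ _
    _ ≤ ε / 2 + ε / 2 := add_le_add (hfg z hz) (hp z hz)
    _ = ε := by ring

private theorem Appr.sum {K : Set ℂ} {ι : Type*} (s : Finset ι) {f : ι → ℂ → ℂ}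
    (hf : ∀ i ∈ s, Appr K (f i)) : Appr K (fun z => ∑ i ∈ s, f i z) := by
  classical
  induction s using Finset.induction_on with
  | empty =>
    refine (appr_poly K 0).congr fun z _ => ?_
    simp
  | insert a s ha ih =>
    refine (Appr.add (hf a (Finset.mem_insert_self a s))
      (ih fun i hi => hf i (Finset.mem_insert_of_mem hi))).congr fun z _ => ?_
    rw [Finset.sum_insert ha]

/-- The exponential of an approximable function is approximable (partial sums of `exp`). -/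
theorem Appr.exp {K : Set ℂ} (hK : IsCompact K) {f : ℂ → ℂ} (hf : Appr K f) :
    Appr K (fun z => Complex.exp (f z)) := by
  refine Appr.of_limit fun ε hε => ?_
  obtain ⟨M₀, hM₀⟩ := hf.bounded hK
  set M := max M₀ 0 with hMdef
  have hM0 : 0 ≤ M := le_max_right _ _
  have hM : ∀ z ∈ K, ‖f z‖ ≤ M := fun z hz => (hM₀ z hz).trans (le_max_left M₀ 0)
  -- tails of the exponential series at `M`
  have hlim : Filter.Tendsto (fun n : ℕ => M ^ n / (n.factorial : ℝ)) Filter.atTop (nhds 0) :=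
    FloorSemiring.tendsto_pow_div_factorial_atTop M
  obtain ⟨N, hN1, hN2⟩ : ∃ N : ℕ, 2 * M ≤ (N : ℝ) + 1 ∧ M ^ N / (N.factorial : ℝ) ≤ ε / 2 := by
    have h1 : ∀ᶠ n : ℕ in Filter.atTop, M ^ n / (n.factorial : ℝ) ≤ ε / 2 :=
      (hlim.eventually (gt_mem_nhds (half_pos hε))).mono fun n hn => le_of_lt hn
    have h2 : ∀ᶠ n : ℕ in Filter.atTop, 2 * M ≤ (n : ℝ) + 1 := by
      filter_upwards [Filter.eventually_ge_atTop ⌈2 * M⌉₊] with n hn
      have : 2 * M ≤ (n : ℝ) := (Nat.le_ceil _).trans (by exact_mod_cast hn)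
      linarith
    obtain ⟨N, hN⟩ := (h2.and h1).exists
    exact ⟨N, hN.1, hN.2⟩
  refine ⟨fun z => ∑ k ∈ Finset.range N, f z ^ k / (k.factorial : ℂ), ?_, fun z hz => ?_⟩
  · refine Appr.sum _ fun k _ => ?_
    refine (Appr.mul hK (hf.pow hK k) (appr_poly K (Polynomial.C ((k.factorial : ℂ)⁻¹)))).congr
      fun z _ => ?_
    rw [Polynomial.eval_C, div_eq_mul_inv]
  · have hb := Complex.exp_bound' (x := f z) (n := N) (by
      rw [div_le_iff₀ (by positivity)]
      have := hM z hz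
      push_cast
      linarith)
    refine hb.trans ?_
    have h3 : ‖f z‖ ^ N ≤ M ^ N := pow_le_pow_left₀ (norm_nonneg _) (hM z hz) N
    calc ‖f z‖ ^ N / (N.factorial : ℝ) * 2 ≤ M ^ N / (N.factorial : ℝ) * 2 := by gcongr
      _ ≤ ε / 2 * 2 := by gcongr
      _ = ε := by ring

end Pool.Agent.StatSurf
end
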