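import Pool.Agent.Lib.MP_fcf01e_gt.Mg.G002
import Pool.Agent.Lib.MP_fcf01e_gt.Pompeiu
import Pool.Agent.Lib.MP_fcf01e_gt.SpNormal

section

/-! # Task R3: the ring bounds -/

open Complex MeasureTheory

namespace Pool.Agent.StatSurf

private lemma radLip_nonneg {m : ℕ} {k : ℂ → ℂ} {M : ℝ} (h : RadLip m k M) : 0 ≤ M := by
  have := h.bound ((m : ℝ) : ℂ) (by simp) (by simp)
  exact (norm_nonneg _).trans this

private lemma volume_ring_lt_top (m : ℕ) : volume (ring m) < ⊤ := by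
  rw [volume_ring]; exact ENNReal.ofReal_lt_top

private lemma integrableOn_ring {m : ℕ} {F : ℂ → ℂ} (hF : Measurable F) {M : ℝ}
    (hb : ∀ z ∈ ring m, ‖F z‖ ≤ M) : IntegrableOn F (ring m) := by
  refine IntegrableOn.of_bound (volume_ring_lt_top m) hF.aestronglyMeasurable M ?_
  exact (ae_restrict_iff' (measurableSet_ring m)).mpr (Filter.Eventually.of_forall hb)

private lemma radLip_on {m : ℕ} {k : ℂ → ℂ} {M : ℝ} (h : RadLip m k M) {z : ℂ}
    (hz : z ∈ ring m) : ‖k z‖ ≤ M := h.bound z hz.1 hz.2.le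

/-- Splitting `μ = i sg + (μ - i sg)`. -/
theorem ring_split (m n : ℕ) (hm : 1 ≤ m) (hn : 2 ≤ n) {η : ℝ} (hη : 0 < η) {μ : ℂ → ℂ}
    (hμ : Measurable μ) (hμ1 : ∀ z, ‖μ z‖ ≤ 1) (hN : Near m n η μ) {F : ℂ → ℂ} (hF : Measurable F)
    {M : ℝ} (h : RadLip m F M) :
    ‖∫ z in ring m, μ z * F z‖ ≤ 40 * (m + 1) * M * (1 / n + η) := by
  have hM := radLip_nonneg h
  have hsg : Measurable fun z => ((sg n z : ℝ) : ℂ) :=
    Complex.measurable_ofReal.comp (measurable_sg n)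
  have hsg1 : ∀ z, ‖((sg n z : ℝ) : ℂ)‖ ≤ 1 := by
    intro z
    rw [Complex.norm_real]
    exact abs_sg_le n z
  have hD : ∀ z, ‖μ z - I * ((sg n z : ℝ) : ℂ)‖ ≤ 2 := by
    intro z
    calc ‖μ z - I * ((sg n z : ℝ) : ℂ)‖ ≤ ‖μ z‖ + ‖I * ((sg n z : ℝ) : ℂ)‖ := norm_sub_le _ _
      _ ≤ 1 + 1 := by
        refine add_le_add (hμ1 z) ?_
        rw [norm_mul, Complex.norm_I, one_mul]
        exact hsg1 z
      _ = 2 := by norm_num
  set B : Set ℂ := {z ∈ ring m | ¬ (sg n z ≠ 0 ∧ ‖μ z - I * (sg n z : ℂ)‖ ≤ η)} with hB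
  have hBm : MeasurableSet B := by
    refine (measurableSet_ring m).inter ?_
    refine MeasurableSet.compl ?_
    refine MeasurableSet.inter ?_ ?_
    · exact (measurableSet_eq_fun (measurable_sg n) measurable_const).compl
    · exact measurableSet_le (hμ.sub (hsg.const_mul I)).norm measurable_const
  have hBvol : volume B ≤ ENNReal.ofReal η := hN
  -- first part
  have h1 := ring_osc m n hm hn F hF M h
  have i1 : IntegrableOn (fun z => I * (((sg n z : ℝ) : ℂ) * F z)) (ring m) := by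
    refine integrableOn_ring ((hsg.mul hF).const_mul I) (M := M) ?_
    intro z hz
    rw [norm_mul, norm_mul, Complex.norm_I, one_mul]
    calc ‖((sg n z : ℝ) : ℂ)‖ * ‖F z‖ ≤ 1 * M :=
          mul_le_mul (hsg1 z) (radLip_on h hz) (norm_nonneg _) zero_le_one
      _ = M := one_mul M
  have i2 : IntegrableOn (fun z => (μ z - I * ((sg n z : ℝ) : ℂ)) * F z) (ring m) := by
    refine integrableOn_ring ((hμ.sub (hsg.const_mul I)).mul hF) (M := 2 * M) ?_
    intro z hz
    rw [norm_mul]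
    exact mul_le_mul (hD z) (radLip_on h hz) (norm_nonneg _) (by norm_num)
  have hsplit : ∫ z in ring m, μ z * F z = (∫ z in ring m, I * (((sg n z : ℝ) : ℂ) * F z)) +
      ∫ z in ring m, (μ z - I * ((sg n z : ℝ) : ℂ)) * F z := by
    rw [← integral_add i1 i2]
    congr 1
    funext z
    ring
  have h2 : ‖∫ z in ring m, I * (((sg n z : ℝ) : ℂ) * F z)‖ ≤ 40 * (m + 1) * M / n := by
    rw [integral_const_mul, norm_mul, Complex.norm_I, one_mul]
    exact h1
  have h3 : ‖∫ z in ring m, (μ z - I * ((sg n z : ℝ) : ℂ)) * F z‖ ≤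
      ∫ z in ring m, (η * M + B.indicator (fun _ => 2 * M) z) := by
    refine norm_integral_le_of_norm_le ?_ ?_
    · refine Integrable.add ?_ ?_
      · exact integrableOn_const (volume_ring_lt_top m).ne
      · refine Integrable.indicator ?_ hBm
        exact integrableOn_const (volume_ring_lt_top m).ne
    · refine (ae_restrict_iff' (measurableSet_ring m)).mpr (Filter.Eventually.of_forall ?_)
      intro z hz
      rw [norm_mul]
      by_cases hzB : z ∈ B
      · rw [Set.indicator_of_mem hzB]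
        have : ‖μ z - I * ((sg n z : ℝ) : ℂ)‖ * ‖F z‖ ≤ 2 * M :=
          mul_le_mul (hD z) (radLip_on h hz) (norm_nonneg _) (by norm_num)
        have h0 : 0 ≤ η * M := by positivity
        linarith
      · rw [Set.indicator_of_notMem hzB, add_zero]
        have hz' : ‖μ z - I * (sg n z : ℂ)‖ ≤ η := by
          by_contra hcon
          exact hzB ⟨hz, fun hh => hcon hh.2⟩
        exact mul_le_mul hz' (radLip_on h hz) (norm_nonneg _) hη.le
  have h4 : ∫ z in ring m, (η * M + B.indicator (fun _ => 2 * M) z) ≤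
      η * M * (Real.pi * (2 * m + 1)) + 2 * M * η := by
    have c1 : Integrable (fun _ : ℂ => η * M) (volume.restrict (ring m)) :=
      integrableOn_const (volume_ring_lt_top m).ne
    have c3 : Integrable (fun _ : ℂ => 2 * M) (volume.restrict (ring m)) :=
      integrableOn_const (volume_ring_lt_top m).ne
    have c2 : Integrable (B.indicator (fun _ : ℂ => 2 * M)) (volume.restrict (ring m)) :=
      Integrable.indicator c3 hBm
    rw [integral_add c1 c2]
    rw [integral_indicator hBm, Measure.restrict_restrict hBm]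
    rw [setIntegral_const, setIntegral_const]
    have hBr : B ∩ ring m = B := Set.inter_eq_left.mpr (fun z hz => hz.1)
    rw [hBr]
    have v1 : volume.real (ring m) = Real.pi * (2 * m + 1) := by
      rw [measureReal_def, volume_ring, ENNReal.toReal_ofReal (by positivity)]
    have v2 : volume.real B ≤ η := by
      rw [measureReal_def]
      exact ENNReal.toReal_le_of_le_ofReal hη.le hBvol
    rw [v1, smul_eq_mul, smul_eq_mul]
    have v3 : volume.real B * (2 * M) ≤ η * (2 * M) :=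
      mul_le_mul_of_nonneg_right v2 (by positivity)
    linarith
  have hpi : Real.pi ≤ 4 := Real.pi_le_four
  have hm0 : (0 : ℝ) ≤ m := Nat.cast_nonneg m
  rw [hsplit]
  calc ‖(∫ z in ring m, I * (((sg n z : ℝ) : ℂ) * F z)) +
      ∫ z in ring m, (μ z - I * ((sg n z : ℝ) : ℂ)) * F z‖
      ≤ 40 * (m + 1) * M / n + (η * M * (Real.pi * (2 * m + 1)) + 2 * M * η) :=
        (norm_add_le _ _).trans (add_le_add h2 (h3.trans h4))
    _ ≤ 40 * (m + 1) * M * (1 / n + η) := by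
        have e1 : η * M * (Real.pi * (2 * m + 1)) ≤ η * M * (4 * (2 * m + 1)) := by
          have : 0 ≤ η * M := by positivity
          have : Real.pi * (2 * (m : ℝ) + 1) ≤ 4 * (2 * m + 1) :=
            mul_le_mul_of_nonneg_right hpi (by positivity)
          exact mul_le_mul_of_nonneg_left this (by positivity)
        have e2 : 0 ≤ η * M := by positivity
        have e3 : 0 ≤ η * M * m := by positivity
        have e4 : 40 * ((m : ℝ) + 1) * M * (1 / n + η) =
          40 * (m + 1) * M / n + 40 * (η * M * m) + 40 * (η * M) := by ring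
        rw [e4]
        nlinarith

/-- Near `z`: replace the kernel by the regularised kernel `Ka a`. -/
theorem ring_near (m n : ℕ) (hm : 1 ≤ m) (hn : 2 ≤ n) {η : ℝ} (hη : 0 < η) {μ : ℂ → ℂ}
    (hμ : Measurable μ) (hμ1 : ∀ z, ‖μ z‖ ≤ 1) (hN : Near m n η μ) {k : ℂ → ℂ} (hk : Measurable k)
    {M : ℝ} (h : RadLip m k M) {a : ℝ} (ha : 0 < a) (ha1 : a ≤ 1) (φ : ℂ →L[ℝ] ℂ) (hφ : ‖φ‖ ≤ 1)
    (z : ℂ) :
    ‖∫ ζ in ring m, μ ζ * k ζ * φ ((z - ζ)⁻¹)‖ ≤
      M * (10 * a) + 40 * (m + 1) * (2 * M / a ^ 2) * (1 / n + η) := by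
  have hM := radLip_nonneg h
  have hφ1 : ∀ v, ‖φ v‖ ≤ ‖v‖ := fun v =>
    (φ.le_opNorm v).trans (by simpa using mul_le_mul_of_nonneg_right hφ (norm_nonneg v))
  have hKm : Measurable fun ζ => Ka a (z - ζ) := (measurable_Ka a).comp (measurable_const.sub
    measurable_id)
  have hF : Measurable fun ζ => k ζ * φ (Ka a (z - ζ)) :=
    hk.mul (φ.measurable.comp hKm)
  have hinv : 1 / (2 * a) ≤ 1 / a ^ 2 := by
    apply one_div_le_one_div_of_le (by positivity)
    nlinarith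
  have hinv0 : 0 ≤ 1 / a ^ 2 := by positivity
  have hRL : RadLip m (fun ζ => k ζ * φ (Ka a (z - ζ))) (2 * M / a ^ 2) := by
    constructor
    · intro ζ h1 h2
      rw [norm_mul]
      calc ‖k ζ‖ * ‖φ (Ka a (z - ζ))‖ ≤ M * (1 / (2 * a)) :=
            mul_le_mul (h.bound ζ h1 h2) ((hφ1 _).trans (norm_Ka_le ha _)) (norm_nonneg _) hM
        _ ≤ M * (1 / a ^ 2) := mul_le_mul_of_nonneg_left hinv hM
        _ ≤ 2 * M / a ^ 2 := by
            have : 0 ≤ M * (1 / a ^ 2) := by positivity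
            have e : 2 * M / a ^ 2 = 2 * (M * (1 / a ^ 2)) := by ring
            rw [e]; linarith
    · intro u hu r r' h1 h2 h1' h2'
      have e : k (r • u) * φ (Ka a (z - r • u)) - k (r' • u) * φ (Ka a (z - r' • u)) =
          (k (r • u) - k (r' • u)) * φ (Ka a (z - r • u)) +
          k (r' • u) * (φ (Ka a (z - r • u)) - φ (Ka a (z - r' • u))) := by ring
      have hr0 : (0 : ℝ) ≤ r' := (Nat.cast_nonneg m).trans h1'
      have hn' : ‖(r' • u : ℂ)‖ = r' := by
        rw [norm_smul, hu, mul_one, Real.norm_of_nonneg hr0]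
      have a1 : ‖(k (r • u) - k (r' • u)) * φ (Ka a (z - r • u))‖ ≤
          M * |r - r'| * (1 / a ^ 2) := by
        rw [norm_mul]
        exact mul_le_mul (h.lip u hu r r' h1 h2 h1' h2')
          (((hφ1 _).trans (norm_Ka_le ha _)).trans hinv) (norm_nonneg _) (by positivity)
      have a2 : ‖k (r' • u) * (φ (Ka a (z - r • u)) - φ (Ka a (z - r' • u)))‖ ≤
          M * (|r - r'| / a ^ 2) := by
        rw [norm_mul, ← map_sub]
        refine mul_le_mul (h.bound _ (by rw [hn']; exact h1') (by rw [hn']; exact h2')) ?_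
          (norm_nonneg _) hM
        refine (hφ1 _).trans ((norm_Ka_sub_le ha _ _).trans (le_of_eq ?_))
        congr 1
        have : z - r • u - (z - r' • u) = (r' - r) • u := by
          rw [sub_smul]; ring
        rw [this, norm_smul, hu, mul_one, Real.norm_eq_abs, abs_sub_comm]
      calc ‖k (r • u) * φ (Ka a (z - r • u)) - k (r' • u) * φ (Ka a (z - r' • u))‖
          ≤ M * |r - r'| * (1 / a ^ 2) + M * (|r - r'| / a ^ 2) := by
            rw [e]; exact (norm_add_le _ _).trans (add_le_add a1 a2)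
        _ = 2 * M / a ^ 2 * |r - r'| := by ring
  have h2 := ring_split m n hm hn hη hμ hμ1 hN hF hRL
  -- the difference of the kernels
  have iD : Integrable (fun ζ => ‖(z - ζ)⁻¹ - Ka a (z - ζ)‖) := (integrable_Ka_sub ha z).norm
  have hDm : Measurable fun ζ => (z - ζ)⁻¹ - Ka a (z - ζ) :=
    (measurable_const.sub measurable_id).inv.sub hKm
  have bD : ∀ ζ ∈ ring m, ‖μ ζ * k ζ * φ ((z - ζ)⁻¹ - Ka a (z - ζ))‖ ≤
      M * ‖(z - ζ)⁻¹ - Ka a (z - ζ)‖ := by
    intro ζ hζ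
    rw [norm_mul, norm_mul]
    refine mul_le_mul ?_ (hφ1 _) (norm_nonneg _) hM
    calc ‖μ ζ‖ * ‖k ζ‖ ≤ 1 * M :=
          mul_le_mul (hμ1 ζ) (radLip_on h hζ) (norm_nonneg _) zero_le_one
      _ = M := one_mul M
  have bD' : ∀ᵐ ζ ∂(volume.restrict (ring m)), ‖μ ζ * k ζ * φ ((z - ζ)⁻¹ - Ka a (z - ζ))‖ ≤
      M * ‖(z - ζ)⁻¹ - Ka a (z - ζ)‖ :=
    (ae_restrict_iff' (measurableSet_ring m)).mpr (Filter.Eventually.of_forall bD)
  have iM : Integrable (fun ζ => M * ‖(z - ζ)⁻¹ - Ka a (z - ζ)‖) (volume.restrict (ring m)) :=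
    (iD.const_mul M).restrict
  have i1 : IntegrableOn (fun ζ => μ ζ * k ζ * φ ((z - ζ)⁻¹ - Ka a (z - ζ))) (ring m) := by
    refine Integrable.mono' iM ?_ bD'
    exact ((hμ.mul hk).mul (φ.measurable.comp hDm)).aestronglyMeasurable
  have i2 : IntegrableOn (fun ζ => μ ζ * (k ζ * φ (Ka a (z - ζ)))) (ring m) := by
    refine integrableOn_ring (hμ.mul hF) (M := 2 * M / a ^ 2) ?_
    intro ζ hζ
    rw [norm_mul]
    calc ‖μ ζ‖ * ‖k ζ * φ (Ka a (z - ζ))‖ ≤ 1 * (2 * M / a ^ 2) :=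
          mul_le_mul (hμ1 ζ) (radLip_on hRL hζ) (norm_nonneg _) zero_le_one
      _ = _ := one_mul _
  have hsplit : ∫ ζ in ring m, μ ζ * k ζ * φ ((z - ζ)⁻¹) =
      (∫ ζ in ring m, μ ζ * k ζ * φ ((z - ζ)⁻¹ - Ka a (z - ζ))) +
      ∫ ζ in ring m, μ ζ * (k ζ * φ (Ka a (z - ζ))) := by
    rw [← integral_add i1 i2]
    congr 1
    funext ζ
    rw [map_sub]
    ring
  have h3 : ‖∫ ζ in ring m, μ ζ * k ζ * φ ((z - ζ)⁻¹ - Ka a (z - ζ))‖ ≤ M * (10 * a) := by
    calc ‖∫ ζ in ring m, μ ζ * k ζ * φ ((z - ζ)⁻¹ - Ka a (z - ζ))‖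
        ≤ ∫ ζ in ring m, M * ‖(z - ζ)⁻¹ - Ka a (z - ζ)‖ := norm_integral_le_of_norm_le iM bD'
      _ ≤ ∫ ζ, M * ‖(z - ζ)⁻¹ - Ka a (z - ζ)‖ :=
          setIntegral_le_integral (iD.const_mul M)
            (Filter.Eventually.of_forall fun ζ => by positivity)
      _ = M * ∫ ζ, ‖(z - ζ)⁻¹ - Ka a (z - ζ)‖ := integral_const_mul _ _
      _ ≤ M * (10 * a) := mul_le_mul_of_nonneg_left (integral_Ka_sub_le ha z) hM
  rw [hsplit]
  exact (norm_add_le _ _).trans (add_le_add h3 h2)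

private lemma norm_le_half {m : ℕ} {z ζ : ℂ} (hz : 2 * ((m : ℝ) + 1) ≤ ‖z‖)
    (hζ : ‖ζ‖ ≤ m + 1) : ‖z‖ / 2 ≤ ‖z - ζ‖ := by
  have := norm_sub_norm_le z ζ
  linarith

private lemma inv_bound {m : ℕ} {z ζ : ℂ} (hz : 2 * ((m : ℝ) + 1) ≤ ‖z‖)
    (hζ : ‖ζ‖ ≤ m + 1) : ‖(z - ζ)⁻¹‖ ≤ 2 / ‖z‖ := by
  have h1 := norm_le_half hz hζ
  have h0 : 0 < ‖z‖ := by
    have : (0 : ℝ) ≤ m := Nat.cast_nonneg m
    linarith
  rw [norm_inv]
  calc (‖z - ζ‖)⁻¹ ≤ (‖z‖ / 2)⁻¹ := inv_anti₀ (by positivity) h1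
    _ = 2 / ‖z‖ := by rw [inv_div]

private lemma inv_lip {m : ℕ} {z ζ ζ' : ℂ} (hz : 2 * ((m : ℝ) + 1) ≤ ‖z‖)
    (hζ : ‖ζ‖ ≤ m + 1) (hζ' : ‖ζ'‖ ≤ m + 1) :
    ‖(z - ζ)⁻¹ - (z - ζ')⁻¹‖ ≤ 4 / ‖z‖ ^ 2 * ‖ζ - ζ'‖ := by
  have h0 : 0 < ‖z‖ := by
    have : (0 : ℝ) ≤ m := Nat.cast_nonneg m
    linarith
  have n1 : z - ζ ≠ 0 := by
    intro hh
    have := norm_le_half hz hζ
    rw [hh, norm_zero] at this
    linarith
  have n2 : z - ζ' ≠ 0 := by
    intro hh
    have := norm_le_half hz hζ'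
    rw [hh, norm_zero] at this
    linarith
  have e : (z - ζ)⁻¹ - (z - ζ')⁻¹ = (z - ζ)⁻¹ * (z - ζ')⁻¹ * (ζ - ζ') := by
    field_simp
    ring
  rw [e, norm_mul, norm_mul]
  calc ‖(z - ζ)⁻¹‖ * ‖(z - ζ')⁻¹‖ * ‖ζ - ζ'‖ ≤ 2 / ‖z‖ * (2 / ‖z‖) * ‖ζ - ζ'‖ := by
        refine mul_le_mul_of_nonneg_right ?_ (norm_nonneg _)
        exact mul_le_mul (inv_bound hz hζ) (inv_bound hz hζ') (norm_nonneg _) (by positivity)
    _ = 4 / ‖z‖ ^ 2 * ‖ζ - ζ'‖ := by
        field_simp
        ring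

/-- A product of a `RadLip` function with a bounded Lipschitz kernel. -/
private lemma radLip_mul {m : ℕ} {k : ℂ → ℂ} {M : ℝ} (h : RadLip m k M) {G : ℂ → ℂ} {A B C : ℝ}
    (hA : ∀ ζ : ℂ, ‖ζ‖ ≤ m + 1 → ‖G ζ‖ ≤ A)
    (hB : ∀ ζ ζ' : ℂ, ‖ζ‖ ≤ m + 1 → ‖ζ'‖ ≤ m + 1 → ‖G ζ - G ζ'‖ ≤ B * ‖ζ - ζ'‖)
    (hB0 : 0 ≤ B) (hC : A + B ≤ C) :
    RadLip m (fun ζ => k ζ * G ζ) (C * M) := by
  have hM := radLip_nonneg h
  constructor
  · intro ζ h1 h2
    rw [norm_mul]
    calc ‖k ζ‖ * ‖G ζ‖ ≤ M * A := mul_le_mul (h.bound ζ h1 h2) (hA ζ h2) (norm_nonneg _) hM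
      _ ≤ C * M := by nlinarith
  · intro u hu r r' h1 h2 h1' h2'
    have hr0 : (0 : ℝ) ≤ r := (Nat.cast_nonneg m).trans h1
    have hr0' : (0 : ℝ) ≤ r' := (Nat.cast_nonneg m).trans h1'
    have hn : ‖(r • u : ℂ)‖ = r := by
      rw [norm_smul, hu, mul_one, Real.norm_of_nonneg hr0]
    have hn' : ‖(r' • u : ℂ)‖ = r' := by
      rw [norm_smul, hu, mul_one, Real.norm_of_nonneg hr0']
    have hd : ‖(r • u - r' • u : ℂ)‖ = |r - r'| := by
      rw [← sub_smul, norm_smul, hu, mul_one, Real.norm_eq_abs]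
    have e : k (r • u) * G (r • u) - k (r' • u) * G (r' • u) =
        (k (r • u) - k (r' • u)) * G (r • u) + k (r' • u) * (G (r • u) - G (r' • u)) := by ring
    have a1 : ‖(k (r • u) - k (r' • u)) * G (r • u)‖ ≤ M * |r - r'| * A := by
      rw [norm_mul]
      exact mul_le_mul (h.lip u hu r r' h1 h2 h1' h2') (hA _ (by rw [hn]; exact h2))
        (norm_nonneg _) (by positivity)
    have a2 : ‖k (r' • u) * (G (r • u) - G (r' • u))‖ ≤ M * (B * |r - r'|) := by
      rw [norm_mul]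
      refine mul_le_mul (h.bound _ (by rw [hn']; exact h1') (by rw [hn']; exact h2')) ?_
        (norm_nonneg _) hM
      have := hB (r • u) (r' • u) (by rw [hn]; exact h2) (by rw [hn']; exact h2')
      rwa [hd] at this
    calc ‖k (r • u) * G (r • u) - k (r' • u) * G (r' • u)‖
        ≤ M * |r - r'| * A + M * (B * |r - r'|) := by
          rw [e]; exact (norm_add_le _ _).trans (add_le_add a1 a2)
      _ = (A + B) * (M * |r - r'|) := by ring
      _ ≤ C * (M * |r - r'|) := mul_le_mul_of_nonneg_right hC (by positivity)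
      _ = C * M * |r - r'| := by ring

/-- Far from the ring. -/
theorem ring_far (m n : ℕ) (hm : 1 ≤ m) (hn : 2 ≤ n) {η : ℝ} (hη : 0 < η) {μ : ℂ → ℂ}
    (hμ : Measurable μ) (hμ1 : ∀ z, ‖μ z‖ ≤ 1) (hN : Near m n η μ) {k : ℂ → ℂ} (hk : Measurable k)
    {M : ℝ} (h : RadLip m k M) (φ : ℂ →L[ℝ] ℂ) (hφ : ‖φ‖ ≤ 1) (z : ℂ)
    (hz : 2 * ((m : ℝ) + 1) ≤ ‖z‖) :
    ‖∫ ζ in ring m, μ ζ * k ζ * φ ((z - ζ)⁻¹)‖ ≤
      40 * (m + 1) * (4 * M / ‖z‖) * (1 / n + η) := by
  have hφ1 : ∀ v, ‖φ v‖ ≤ ‖v‖ := fun v =>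
    (φ.le_opNorm v).trans (by simpa using mul_le_mul_of_nonneg_right hφ (norm_nonneg v))
  have hm1 : (1 : ℝ) ≤ m := by exact_mod_cast hm
  have hz4 : 4 ≤ ‖z‖ := by linarith
  have hz0 : 0 < ‖z‖ := by linarith
  have hRL : RadLip m (fun ζ => k ζ * φ ((z - ζ)⁻¹)) (4 / ‖z‖ * M) := by
    refine radLip_mul h (A := 2 / ‖z‖) (B := 4 / ‖z‖ ^ 2) ?_ ?_ (by positivity) ?_
    · intro ζ hζ
      exact (hφ1 _).trans (inv_bound hz hζ)
    · intro ζ ζ' hζ hζ'
      rw [← map_sub]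
      exact (hφ1 _).trans (inv_lip hz hζ hζ')
    · rw [div_add_div _ _ (by positivity) (by positivity), div_le_div_iff₀ (by positivity)
        (by positivity)]
      nlinarith [mul_pos hz0 hz0, mul_pos (mul_pos hz0 hz0) hz0]
  have hF : Measurable fun ζ => k ζ * φ ((z - ζ)⁻¹) :=
    hk.mul (φ.measurable.comp (measurable_const.sub measurable_id).inv)
  have h2 := ring_split m n hm hn hη hμ hμ1 hN hF hRL
  have e : (fun ζ => μ ζ * k ζ * φ ((z - ζ)⁻¹)) = fun ζ => μ ζ * (k ζ * φ ((z - ζ)⁻¹)) := by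
    funext ζ; ring
  rw [e]
  refine h2.trans (le_of_eq ?_)
  ring

theorem ring_far3 (m n : ℕ) (hm : 1 ≤ m) (hn : 2 ≤ n) {η : ℝ} (hη : 0 < η) {μ : ℂ → ℂ}
    (hμ : Measurable μ) (hμ1 : ∀ z, ‖μ z‖ ≤ 1) (hN : Near m n η μ) {k : ℂ → ℂ} (hk : Measurable k)
    {M : ℝ} (h : RadLip m k M) (φ : ℂ →L[ℝ] ℂ) (hφ : ‖φ‖ ≤ 1) (z : ℂ)
    (hz : 2 * ((m : ℝ) + 1) ≤ ‖z‖) :
    ‖∫ ζ in ring m, μ ζ * k ζ * φ (ζ ^ 3 / (z ^ 3 * (z - ζ)))‖ ≤
      40 * (m + 1) * (20 * (m + 1) ^ 3 * M / ‖z‖ ^ 4) * (1 / n + η) := by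
  have hφ1 : ∀ v, ‖φ v‖ ≤ ‖v‖ := fun v =>
    (φ.le_opNorm v).trans (by simpa using mul_le_mul_of_nonneg_right hφ (norm_nonneg v))
  have hm1 : (1 : ℝ) ≤ m := by exact_mod_cast hm
  have hz4 : 4 ≤ ‖z‖ := by linarith
  have hz0 : 0 < ‖z‖ := by linarith
  set p : ℝ := (m : ℝ) + 1 with hp
  have hp0 : 0 < p := by positivity
  have hp1 : 1 ≤ p := by linarith
  have hRL : RadLip m (fun ζ => k ζ * φ (ζ ^ 3 / (z ^ 3 * (z - ζ)))) (20 * p ^ 3 / ‖z‖ ^ 4 * M) := by
    refine radLip_mul h (A := 2 * p ^ 3 / ‖z‖ ^ 4) (B := 8 * p ^ 2 / ‖z‖ ^ 4) ?_ ?_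
      (by positivity) ?_
    · intro ζ hζ
      refine (hφ1 _).trans ?_
      have e : ζ ^ 3 / (z ^ 3 * (z - ζ)) = ζ ^ 3 * (z ^ 3)⁻¹ * (z - ζ)⁻¹ := by
        rw [div_eq_mul_inv, mul_inv]; ring
      rw [e, norm_mul, norm_mul, norm_inv, norm_pow, norm_pow]
      calc ‖ζ‖ ^ 3 * (‖z‖ ^ 3)⁻¹ * ‖(z - ζ)⁻¹‖ ≤ p ^ 3 * (‖z‖ ^ 3)⁻¹ * (2 / ‖z‖) := by
            refine mul_le_mul ?_ (inv_bound hz hζ) (norm_nonneg _) (by positivity)
            exact mul_le_mul_of_nonneg_right (pow_le_pow_left₀ (norm_nonneg _) hζ 3)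
              (by positivity)
        _ = 2 * p ^ 3 / ‖z‖ ^ 4 := by field_simp
    · intro ζ ζ' hζ hζ'
      rw [← map_sub]
      refine (hφ1 _).trans ?_
      have e : ζ ^ 3 / (z ^ 3 * (z - ζ)) - ζ' ^ 3 / (z ^ 3 * (z - ζ')) =
          (z ^ 3)⁻¹ * ((ζ ^ 3 - ζ' ^ 3) * (z - ζ)⁻¹ + ζ' ^ 3 * ((z - ζ)⁻¹ - (z - ζ')⁻¹)) := by
        rw [div_eq_mul_inv, mul_inv, div_eq_mul_inv, mul_inv]; ring
      have c1 : ‖ζ ^ 3 - ζ' ^ 3‖ ≤ 3 * p ^ 2 * ‖ζ - ζ'‖ := by
        have e1 : ζ ^ 3 - ζ' ^ 3 = (ζ ^ 2 + ζ * ζ' + ζ' ^ 2) * (ζ - ζ') := by ring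
        rw [e1, norm_mul]
        refine mul_le_mul_of_nonneg_right ?_ (norm_nonneg _)
        calc ‖ζ ^ 2 + ζ * ζ' + ζ' ^ 2‖ ≤ ‖ζ‖ ^ 2 + ‖ζ‖ * ‖ζ'‖ + ‖ζ'‖ ^ 2 := by
              refine (norm_add_le _ _).trans ?_
              rw [norm_pow]
              refine add_le_add_left ?_ _
              refine (norm_add_le _ _).trans ?_
              rw [norm_pow, norm_mul]
          _ ≤ p ^ 2 + p * p + p ^ 2 := by
              refine add_le_add (add_le_add ?_ ?_) ?_
              · exact pow_le_pow_left₀ (norm_nonneg _) hζ 2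
              · exact mul_le_mul hζ hζ' (norm_nonneg _) hp0.le
              · exact pow_le_pow_left₀ (norm_nonneg _) hζ' 2
          _ = 3 * p ^ 2 := by ring
      have c2 : ‖(ζ ^ 3 - ζ' ^ 3) * (z - ζ)⁻¹‖ ≤ 3 * p ^ 2 * ‖ζ - ζ'‖ * (2 / ‖z‖) := by
        rw [norm_mul]
        exact mul_le_mul c1 (inv_bound hz hζ) (norm_nonneg _) (by positivity)
      have c3 : ‖ζ' ^ 3 * ((z - ζ)⁻¹ - (z - ζ')⁻¹)‖ ≤ p ^ 3 * (4 / ‖z‖ ^ 2 * ‖ζ - ζ'‖) := by
        rw [norm_mul, norm_pow]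
        exact mul_le_mul (pow_le_pow_left₀ (norm_nonneg _) hζ' 3) (inv_lip hz hζ hζ')
          (norm_nonneg _) (by positivity)
      have c4 : p ^ 3 * (4 / ‖z‖ ^ 2 * ‖ζ - ζ'‖) ≤ 2 * p ^ 2 / ‖z‖ * ‖ζ - ζ'‖ := by
        have : p ^ 3 * (4 / ‖z‖ ^ 2) ≤ 2 * p ^ 2 / ‖z‖ := by
          rw [mul_div_assoc', div_le_div_iff₀ (by positivity) hz0]
          have h5 : 0 ≤ p ^ 2 * ‖z‖ := by positivity
          nlinarith
        calc p ^ 3 * (4 / ‖z‖ ^ 2 * ‖ζ - ζ'‖) = p ^ 3 * (4 / ‖z‖ ^ 2) * ‖ζ - ζ'‖ := by ring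
          _ ≤ _ := mul_le_mul_of_nonneg_right this (norm_nonneg _)
      rw [e, norm_mul, norm_inv, norm_pow]
      calc (‖z‖ ^ 3)⁻¹ * ‖(ζ ^ 3 - ζ' ^ 3) * (z - ζ)⁻¹ + ζ' ^ 3 * ((z - ζ)⁻¹ - (z - ζ')⁻¹)‖
          ≤ (‖z‖ ^ 3)⁻¹ * (3 * p ^ 2 * ‖ζ - ζ'‖ * (2 / ‖z‖) + 2 * p ^ 2 / ‖z‖ * ‖ζ - ζ'‖) := by
            refine mul_le_mul_of_nonneg_left ?_ (by positivity)
            exact (norm_add_le _ _).trans (add_le_add c2 (c3.trans c4))
        _ = 8 * p ^ 2 / ‖z‖ ^ 4 * ‖ζ - ζ'‖ := by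
            field_simp
            ring
    · rw [← add_div]
      refine div_le_div_of_nonneg_right ?_ (by positivity)
      nlinarith [pow_pos hp0 2, pow_pos hp0 3]
  have hF : Measurable fun ζ => k ζ * φ (ζ ^ 3 / (z ^ 3 * (z - ζ))) := by
    refine hk.mul (φ.measurable.comp ?_)
    exact (measurable_id.pow_const 3).div ((measurable_const.sub measurable_id).const_mul _)
  have h2 := ring_split m n hm hn hη hμ hμ1 hN hF hRL
  have e : (fun ζ => μ ζ * k ζ * φ (ζ ^ 3 / (z ^ 3 * (z - ζ)))) =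
      fun ζ => μ ζ * (k ζ * φ (ζ ^ 3 / (z ^ 3 * (z - ζ)))) := by
    funext ζ; ring
  rw [e]
  refine h2.trans (le_of_eq ?_)
  ring

/-- The ring bounds, for `n` large and `η` small. -/
theorem ring_bounds (m : ℕ) (hm : 1 ≤ m) (t : ℝ) (ht : 0 < t) :
    ∃ n0 : ℕ, ∃ η0 > 0, ∀ n ≥ n0, ∀ η : ℝ, 0 < η → η ≤ η0 → ∀ μ : ℂ → ℂ, Measurable μ →
      (∀ z, ‖μ z‖ ≤ 1) → Near m n η μ → ∀ (k : ℂ → ℂ) (M : ℝ), Measurable k → RadLip m k M →
      ∀ φ : ℂ →L[ℝ] ℂ, ‖φ‖ ≤ 1 →
      (∀ z : ℂ, ‖∫ ζ in ring m, μ ζ * k ζ * φ ((z - ζ)⁻¹)‖ ≤ t * M / (1 + ‖z‖)) ∧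
      (∀ z : ℂ, 2 * ((m : ℝ) + 1) ≤ ‖z‖ →
        ‖∫ ζ in ring m, μ ζ * k ζ * φ (ζ ^ 3 / (z ^ 3 * (z - ζ)))‖ ≤ t * M / ‖z‖ ^ 4) := by
  have hm1 : (1 : ℝ) ≤ m := by exact_mod_cast hm
  set p : ℝ := (m : ℝ) + 1 with hp
  have hp0 : 0 < p := by positivity
  set s : ℝ := t / (2 * p + 1) with hs
  have hs0 : 0 < s := by positivity
  set a : ℝ := min 1 (s / 20) with ha
  have ha0 : 0 < a := lt_min one_pos (by positivity)
  have ha1 : a ≤ 1 := min_le_left _ _
  have ha2 : 10 * a ≤ s / 2 := by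
    have := min_le_right 1 (s / 20)
    rw [← ha] at this
    linarith
  set δ : ℝ := min (s * a ^ 2 / (160 * p)) (min (t / (320 * p)) (t / (800 * p ^ 4))) with hδ
  have hδ0 : 0 < δ := lt_min (by positivity) (lt_min (by positivity) (by positivity))
  have d1 : 80 * p * δ / a ^ 2 ≤ s / 2 := by
    have := min_le_left (s * a ^ 2 / (160 * p)) (min (t / (320 * p)) (t / (800 * p ^ 4)))
    rw [← hδ, le_div_iff₀ (by positivity)] at this
    rw [div_le_iff₀ (by positivity)]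
    linarith
  have d2 : 320 * p * δ ≤ t := by
    have := (min_le_right (s * a ^ 2 / (160 * p)) (min (t / (320 * p)) (t / (800 * p ^ 4)))).trans
      (min_le_left _ _)
    rw [← hδ, le_div_iff₀ (by positivity)] at this
    linarith
  have d3 : 800 * p ^ 4 * δ ≤ t := by
    have := (min_le_right (s * a ^ 2 / (160 * p)) (min (t / (320 * p)) (t / (800 * p ^ 4)))).trans
      (min_le_right _ _)
    rw [← hδ, le_div_iff₀ (by positivity)] at this
    linarith
  obtain ⟨n1, hn1⟩ := exists_nat_gt (2 / δ)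
  refine ⟨max n1 2, δ / 2, by positivity, ?_⟩
  intro n hn η hη hηle μ hμ hμ1 hN k M hk h φ hφ
  have hn2 : 2 ≤ n := (le_max_right _ _).trans hn
  have hn3 : 2 / δ < n := hn1.trans_le (by exact_mod_cast (le_max_left _ _).trans hn)
  have hn0 : (0 : ℝ) < n := by
    have : (2 : ℝ) ≤ n := by exact_mod_cast hn2
    linarith
  have hsum : 1 / (n : ℝ) + η ≤ δ := by
    have : 1 / (n : ℝ) ≤ δ / 2 := by
      rw [div_lt_iff₀ hδ0] at hn3
      rw [div_le_div_iff₀ hn0 two_pos]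
      linarith
    linarith
  have hM := radLip_nonneg h
  constructor
  · intro z
    rcases le_or_gt (2 * ((m : ℝ) + 1)) ‖z‖ with hz | hz
    · have h1 := ring_far m n hm hn2 hη hμ hμ1 hN hk h φ hφ z hz
      have hz0 : 0 < ‖z‖ := by linarith
      refine h1.trans ?_
      rw [← hp]
      calc 40 * p * (4 * M / ‖z‖) * (1 / n + η) ≤ 40 * p * (4 * M / ‖z‖) * δ :=
            mul_le_mul_of_nonneg_left hsum (by positivity)
        _ ≤ t * M / (1 + ‖z‖) := by
            have e : 40 * p * (4 * M / ‖z‖) * δ = (160 * p * δ * M) / ‖z‖ := by ring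
            rw [e, div_le_div_iff₀ hz0 (by positivity)]
            have h5 : 160 * p * δ * M * (1 + ‖z‖) ≤ 160 * p * δ * M * (2 * ‖z‖) :=
              mul_le_mul_of_nonneg_left (by linarith) (by positivity)
            have h6 : 320 * p * δ * (M * ‖z‖) ≤ t * (M * ‖z‖) :=
              mul_le_mul_of_nonneg_right d2 (by positivity)
            linarith
    · have h1 := ring_near m n hm hn2 hη hμ hμ1 hN hk h ha0 ha1 φ hφ z
      refine h1.trans ?_
      rw [← hp] at hz ⊢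
      have h2 : 40 * p * (2 * M / a ^ 2) * (1 / n + η) ≤ 40 * p * (2 * M / a ^ 2) * δ :=
        mul_le_mul_of_nonneg_left hsum (by positivity)
      have h3 : 40 * p * (2 * M / a ^ 2) * δ = M * (80 * p * δ / a ^ 2) := by ring
      have h4 : M * (80 * p * δ / a ^ 2) ≤ M * (s / 2) := mul_le_mul_of_nonneg_left d1 hM
      have h5 : M * (10 * a) ≤ M * (s / 2) := mul_le_mul_of_nonneg_left ha2 hM
      have h6 : M * s ≤ t * M / (1 + ‖z‖) := by
        rw [hs, le_div_iff₀ (by positivity)]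
        have : M * (t / (2 * p + 1)) * (1 + ‖z‖) ≤ M * (t / (2 * p + 1)) * (2 * p + 1) :=
          mul_le_mul_of_nonneg_left (by linarith) (by positivity)
        refine this.trans (le_of_eq ?_)
        field_simp
      linarith
  · intro z hz
    have h1 := ring_far3 m n hm hn2 hη hμ hμ1 hN hk h φ hφ z hz
    have hz0 : 0 < ‖z‖ := by linarith
    refine h1.trans ?_
    rw [← hp]
    calc 40 * p * (20 * p ^ 3 * M / ‖z‖ ^ 4) * (1 / n + η) ≤
          40 * p * (20 * p ^ 3 * M / ‖z‖ ^ 4) * δ :=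
            mul_le_mul_of_nonneg_left hsum (by positivity)
      _ = (800 * p ^ 4 * δ) * M / ‖z‖ ^ 4 := by ring
      _ ≤ t * M / ‖z‖ ^ 4 := by
          refine div_le_div_of_nonneg_right ?_ (by positivity)
          exact mul_le_mul_of_nonneg_right d3 hM

end Pool.Agent.StatSurf
end

section

/-! # Task S1: the Cauchy-Pompeiu formula -/

open Complex MeasureTheory

namespace Pool.Agent.StatSurf

private theorem S1_locInt : LocallyIntegrable (fun ζ : ℂ => ζ⁻¹) volume := by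
  intro x
  refine ⟨Metric.ball 0 (‖x‖ + 1), ?_, ?_⟩
  · exact Metric.isOpen_ball.mem_nhds (by simp)
  · have h := (integrableOn_inv 0 (‖x‖ + 1)).neg
    refine h.congr (Filter.Eventually.of_forall (fun ζ => ?_))
    simp [inv_neg]

private theorem S1_conv (φ : ℂ → ℂ) :
    (fun z => ∫ ζ, φ ζ * (z - ζ)⁻¹) =
      convolution (fun ζ : ℂ => ζ⁻¹) φ (ContinuousLinearMap.mul ℝ ℂ) volume := by
  funext z
  rw [convolution_def, ← integral_sub_left_eq_self (fun ζ => φ ζ * (z - ζ)⁻¹) volume z]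
  congr 1
  funext t
  simp [mul_comm]

private theorem S1_pd_conv {φ : ℂ → ℂ} (hφ : ContDiff ℝ 1 φ) (hc : HasCompactSupport φ)
    (i : Fin 2) (z : ℂ) :
    pd i (fun z => ∫ ζ, φ ζ * (z - ζ)⁻¹) z = ∫ ζ, pd i φ ζ * (z - ζ)⁻¹ := by
  have h1 := hc.hasFDerivAt_convolution_right (ContinuousLinearMap.mul ℝ ℂ) S1_locInt hφ z
  have h2 : ∫ ζ, pd i φ ζ * (z - ζ)⁻¹ =
      (fun z => ∫ ζ, pd i φ ζ * (z - ζ)⁻¹) z := rfl
  rw [h2, S1_conv (pd i φ), pd, S1_conv φ, h1.fderiv]
  rw [convolution_precompR_apply (ContinuousLinearMap.mul ℝ ℂ) S1_locInt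
    (hc.fderiv ℝ) (hφ.continuous_fderiv one_ne_zero) z (e i)]
  rfl

/-- `∫ (∂_s + i ∂_t) ψ / ζ = - 2 π ψ 0` (polar coordinates:
`(∂_s + i ∂_t) ψ = e^(i θ) (ψ_r + (i / r) ψ_θ)`). -/
theorem integral_dbar_div {ψ : ℂ → ℂ} (hψ : ContDiff ℝ 1 ψ) (hc : HasCompactSupport ψ) :
    ∫ ζ, (pd 0 ψ ζ + I * pd 1 ψ ζ) * ζ⁻¹ = - (2 * Real.pi * ψ 0 : ℂ) := by
  have h := Pool.Agent.StatSurf.Pompeiu.cauchy_pompeiu hψ hc 0
  have h2 : ∀ ζ : ℂ, (pd 0 ψ ζ + I * pd 1 ψ ζ) * ζ⁻¹ =
      (-2 : ℂ) * (Pool.Agent.StatSurf.Pompeiu.dbar ψ ζ / (0 - ζ)) := by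
    intro ζ
    simp only [pd, e, Pool.Agent.StatSurf.Pompeiu.dbar, if_true, one_ne_zero, if_false,
      Fin.one_eq_zero_iff]
    rw [zero_sub, div_neg, div_eq_mul_inv]
    simp
    ring
  simp_rw [h2]
  rw [integral_const_mul, h]
  ring

/-- The Cauchy transform of a compactly supported `C^k` function is `C^k`
(`HasCompactSupport.contDiff_convolution_right`). -/
theorem contDiff_cauchy {φ : ℂ → ℂ} {k : ℕ} (hφ : ContDiff ℝ k φ) (hc : HasCompactSupport φ) :
    ContDiff ℝ k (fun z => ∫ ζ, φ ζ * (z - ζ)⁻¹) := by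
  rw [S1_conv φ]
  exact hc.contDiff_convolution_right (ContinuousLinearMap.mul ℝ ℂ) S1_locInt hφ

/-- Cauchy-Pompeiu. -/
theorem cauchy_pompeiu {φ : ℂ → ℂ} (hφ : ContDiff ℝ 1 φ) (hc : HasCompactSupport φ) (z : ℂ) :
    pd 0 (fun z => ∫ ζ, φ ζ * (z - ζ)⁻¹) z + I * pd 1 (fun z => ∫ ζ, φ ζ * (z - ζ)⁻¹) z =
      2 * Real.pi * φ z := by
  rw [S1_pd_conv hφ hc, S1_pd_conv hφ hc]
  have hint : ∀ i : Fin 2, Integrable (fun ζ => pd i φ ζ * (z - ζ)⁻¹) := by
    intro i
    have hcs : HasCompactSupport (pd i φ) := by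
      have := hc.fderiv (𝕜 := ℝ)
      exact this.comp_left (g := fun L : ℂ →L[ℝ] ℂ => L (e i)) (by simp)
    have hcont : Continuous (pd i φ) :=
      (hφ.continuous_fderiv one_ne_zero).clm_apply continuous_const
    have h3 := hcs.convolutionExists_right (ContinuousLinearMap.mul ℝ ℂ) S1_locInt hcont z
    have h4 : Integrable (fun t => t⁻¹ * pd i φ (z - t)) := h3
    have h5 := h4.comp_sub_left z
    refine h5.congr (Filter.Eventually.of_forall (fun ζ => ?_))
    simp [mul_comm]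
  rw [← integral_const_mul, ← integral_add (hint 0) ((hint 1).const_mul I)]
  have h := Pool.Agent.StatSurf.Pompeiu.cauchy_pompeiu hφ hc z
  have h2 : ∀ ζ : ℂ, pd 0 φ ζ * (z - ζ)⁻¹ + I * (pd 1 φ ζ * (z - ζ)⁻¹) =
      (2 : ℂ) * (Pool.Agent.StatSurf.Pompeiu.dbar φ ζ / (z - ζ)) := by
    intro ζ
    simp only [pd, e, Pool.Agent.StatSurf.Pompeiu.dbar, if_true, one_ne_zero, if_false,
      Fin.one_eq_zero_iff]
    rw [div_eq_mul_inv]
    simp
    ring
  simp_rw [h2]
  rw [integral_const_mul, h]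
  ring

end Pool.Agent.StatSurf
end

section

/-! # Task S2: regularity of the summed Cauchy transform -/

open Complex MeasureTheory

namespace Pool.Agent.StatSurf

private theorem s2_measurableSet_ring (m : ℕ) : MeasurableSet (ring m) := by
  have : ring m = {z : ℂ | (m : ℝ) ≤ ‖z‖} ∩ {z : ℂ | ‖z‖ < m + 1} := by
    ext z; simp [ring]
  rw [this]
  exact (measurableSet_le measurable_const measurable_norm).inter
    (measurableSet_lt measurable_norm measurable_const)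

private theorem s2_ring_subset (m : ℕ) : ring m ⊆ Metric.ball 0 ((m : ℝ) + 1) := by
  intro z hz
  rw [Metric.mem_ball, dist_zero_right]
  exact hz.2

private theorem s2_volume_ring (m : ℕ) : volume (ring m) < ⊤ :=
  lt_of_le_of_lt (measure_mono (s2_ring_subset m)) Metric.isBounded_ball.measure_lt_top

private theorem s2_diff (m : ℕ) {f : ℂ → ℂ} (hf : Measurable f) {M : ℝ}
    (hM : ∀ ζ ∈ ring m, ‖f ζ‖ ≤ M) {R : ℝ} (h0 : ∀ ζ ∈ ring m, ‖ζ‖ < R → f ζ = 0) :
    DifferentiableOn ℂ (V m f) (Metric.ball 0 R) := by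
  intro z0 hz0
  rw [Metric.mem_ball, dist_zero_right] at hz0
  set δ : ℝ := (R - ‖z0‖) / 2 with hδ
  have hδ0 : 0 < δ := by rw [hδ]; linarith
  have hM0 : 0 ≤ |M| := abs_nonneg M
  have key : ∀ z ∈ Metric.ball z0 δ, ∀ ζ ∈ ring m, f ζ = 0 ∨ δ ≤ ‖z - ζ‖ := by
    intro z hz ζ hζ
    by_cases h : ‖ζ‖ < R
    · left; exact h0 ζ hζ h
    · right
      push Not at h
      rw [Metric.mem_ball, dist_eq_norm] at hz
      have h1 : ‖ζ‖ ≤ ‖z - ζ‖ + ‖z - z0‖ + ‖z0‖ := by
        calc ‖ζ‖ = ‖-(z - ζ) + (z - z0) + z0‖ := by congr 1; ring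
          _ ≤ ‖-(z - ζ) + (z - z0)‖ + ‖z0‖ := norm_add_le _ _
          _ ≤ ‖-(z - ζ)‖ + ‖z - z0‖ + ‖z0‖ := by gcongr; exact norm_add_le _ _
          _ = _ := by rw [norm_neg]
      have : R = 2 * δ + ‖z0‖ := by rw [hδ]; ring
      linarith
  have hmeas : ∀ z : ℂ, Measurable (fun ζ => f ζ * (z - ζ)⁻¹) := fun z =>
    hf.mul (measurable_const.sub measurable_id).inv
  have hfin : IsFiniteMeasure (volume.restrict (ring m)) :=
    ⟨by rw [Measure.restrict_apply_univ]; exact s2_volume_ring m⟩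
  have main := hasDerivAt_integral_of_dominated_loc_of_deriv_le
    (μ := volume.restrict (ring m)) (F := fun z ζ => f ζ * (z - ζ)⁻¹)
    (F' := fun z ζ => f ζ * (-1 / (z - ζ) ^ 2)) (x₀ := z0) (s := Metric.ball z0 δ)
    (bound := fun _ => |M| * (1 / δ ^ 2))
    (Metric.ball_mem_nhds z0 hδ0)
    (Filter.Eventually.of_forall fun z => (hmeas z).aestronglyMeasurable)
    ?_ ?_ ?_ ?_ ?_
  · exact main.2.differentiableAt.differentiableWithinAt
  · -- integrable
    apply Integrable.of_bound (hmeas z0).aestronglyMeasurable (|M| * δ⁻¹)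
    rw [ae_restrict_iff' (s2_measurableSet_ring m)]
    refine Filter.Eventually.of_forall fun ζ hζ => ?_
    rcases key z0 (Metric.mem_ball_self hδ0) ζ hζ with h | h
    · rw [h]; simp; positivity
    · rw [norm_mul, norm_inv]
      have := (hM ζ hζ).trans (le_abs_self M)
      gcongr
  · exact (hf.mul (measurable_const.div ((measurable_const.sub measurable_id).pow_const 2))).aestronglyMeasurable
  · rw [ae_restrict_iff' (s2_measurableSet_ring m)]
    refine Filter.Eventually.of_forall fun ζ hζ z hz => ?_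
    rcases key z hz ζ hζ with h | h
    · rw [h]; simp; positivity
    · rw [norm_mul, norm_div, norm_neg, norm_one, norm_pow]
      have := (hM ζ hζ).trans (le_abs_self M)
      gcongr
  · exact integrable_const _
  · rw [ae_restrict_iff' (s2_measurableSet_ring m)]
    refine Filter.Eventually.of_forall fun ζ hζ z hz => ?_
    rcases key z hz ζ hζ with h | h
    · simp only [h, zero_mul]; exact hasDerivAt_const z (0 : ℂ)
    · have hne : z - ζ ≠ 0 := by
        intro h2; rw [h2, norm_zero] at h; linarith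
      have h3 : HasDerivAt (fun z : ℂ => z - ζ) 1 z := (hasDerivAt_id z).sub_const ζ
      exact (h3.inv hne).const_mul (f ζ)

/-- The Cauchy transform of a function is holomorphic where the function vanishes. -/
theorem differentiableOn_V_of_zero (m : ℕ) {f : ℂ → ℂ} (hf : Measurable f) {M : ℝ}
    (hM : ∀ ζ ∈ ring m, ‖f ζ‖ ≤ M) {R : ℝ} (h0 : ∀ ζ, ‖ζ‖ ≤ R → f ζ = 0) :
    DifferentiableOn ℂ (V m f) (Metric.ball 0 R) :=
  s2_diff m hf hM fun _ _ h => h0 _ h.le

/-- The Cauchy transform of the ring `m` is holomorphic in the disc `|z| < m`. -/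
theorem differentiableOn_V (m : ℕ) {f : ℂ → ℂ} (hf : Measurable f) {M : ℝ}
    (hM : ∀ ζ ∈ ring m, ‖f ζ‖ ≤ M) : DifferentiableOn ℂ (V m f) (Metric.ball 0 m) :=
  s2_diff m hf hM fun ζ hζ h => absurd hζ.1 (not_le.mpr h)

private theorem s2_ball_union (N : ℕ) :
    Metric.ball (0 : ℂ) ((N : ℝ) + 1) = Metric.ball (0 : ℂ) (N : ℝ) ∪ ring N := by
  ext z
  simp only [Metric.mem_ball, dist_zero_right, Set.mem_union, ring, Set.mem_ofPred_eq]
  constructor
  · intro h
    by_cases h1 : ‖z‖ < N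
    · left; exact h1
    · right; exact ⟨not_lt.mp h1, h⟩
  · rintro (h | h)
    · linarith
    · exact h.2

private theorem s2_sum_rings {φ : ℂ → ℂ} (hφ : ∀ R : ℝ, IntegrableOn φ (Metric.ball 0 R)) (N : ℕ) :
    ∫ ζ in Metric.ball (0 : ℂ) (N : ℝ), φ ζ = ∑ m ∈ Finset.range N, ∫ ζ in ring m, φ ζ := by
  induction N with
  | zero => simp
  | succ N ih =>
    rw [Finset.sum_range_succ, ← ih]
    push_cast
    rw [s2_ball_union, setIntegral_union]
    · rw [Set.disjoint_left]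
      intro z hz hz2
      rw [Metric.mem_ball, dist_zero_right] at hz
      exact absurd hz2.1 (not_le.mpr hz)
    · exact s2_measurableSet_ring N
    · exact hφ N
    · exact (hφ ((N : ℝ) + 1)).mono_set (s2_ring_subset N)

private theorem s2_bound {f : ℂ → ℂ} (hf : Continuous f) (R : ℝ) :
    ∃ M : ℝ, ∀ ζ ∈ Metric.closedBall (0 : ℂ) R, ‖f ζ‖ ≤ M :=
  (isCompact_closedBall (0 : ℂ) R).exists_bound_of_continuousOn hf.continuousOn

private theorem s2_integrableOn {f : ℂ → ℂ} (hf : Continuous f) (z : ℂ) (R : ℝ) :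
    IntegrableOn (fun ζ => f ζ * (z - ζ)⁻¹) (Metric.ball 0 R) := by
  obtain ⟨M, hM⟩ := s2_bound hf R
  refine Integrable.bdd_mul (c := M) (integrableOn_inv z R) hf.aestronglyMeasurable ?_
  rw [ae_restrict_iff' measurableSet_ball]
  exact Filter.Eventually.of_forall fun ζ hζ => hM ζ (Metric.ball_subset_closedBall hζ)

private theorem s2_dbar_hol {H : ℂ → ℂ} {z : ℂ} (hH : DifferentiableAt ℂ H z) :
    pd 0 H z + I * pd 1 H z = 0 := by
  unfold pd e
  have h1 : HasFDerivAt H ((fderiv ℂ H z).restrictScalars ℝ) z :=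
    hH.hasFDerivAt.restrictScalars ℝ
  rw [h1.fderiv]
  simp only [if_true, ContinuousLinearMap.coe_restrictScalars']
  have h2 : (if (1 : Fin 2) = 0 then (1 : ℂ) else I) = I := by simp
  rw [h2]
  have h3 : (fderiv ℂ H z) I = I * (fderiv ℂ H z) 1 := by
    have := (fderiv ℂ H z).map_smul I 1
    simpa using this
  rw [h3, ← mul_assoc, I_mul_I]
  ring

/-- Local regularity and the `∂̄` equation of the sum of the Cauchy transforms. On the disc
`|z| < R` write `f = χ f + (1 - χ) f` with a smooth bump function `χ`, equal to `1` for `|ζ| ≤ R` and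
to `0` for `|ζ| ≥ R + 1`; all but the Cauchy transform of `χ f` is holomorphic there. -/
theorem cauchy_sum_reg {f : ℂ → ℂ} {k : ℕ} (hk : 1 ≤ k) (hf : ContDiff ℝ k f) {b : ℕ → ℝ}
    (hb : Summable b) (hV : ∀ m z, ‖V m f z‖ ≤ b m) :
    ContDiff ℝ k (fun z => ∑' m, V m f z) ∧
      ∀ z, pd 0 (fun z => ∑' m, V m f z) z + I * pd 1 (fun z => ∑' m, V m f z) z =
        2 * Real.pi * f z := by
  have hfc : Continuous f := hf.continuous
  -- local decomposition
  have key : ∀ z0 : ℂ, ∃ φ H : ℂ → ℂ, ContDiff ℝ k φ ∧ HasCompactSupport φ ∧ φ z0 = f z0 ∧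
      (∀ᶠ z in nhds z0, DifferentiableAt ℂ H z) ∧ (∀ᶠ z in nhds z0, ∑' m, V m f z =
        (∫ ζ, φ ζ * (z - ζ)⁻¹) + H z) := by
    intro z0
    obtain ⟨N, hN⟩ := exists_nat_gt ‖z0‖
    have hN0 : (0 : ℝ) < N := lt_of_le_of_lt (norm_nonneg _) hN
    let χ : ContDiffBump (0 : ℂ) := ⟨(N : ℝ), (N : ℝ) + 1, hN0, by linarith⟩
    have hχs : ContDiff ℝ k (fun ζ : ℂ => ((χ ζ : ℝ) : ℂ)) :=
      Complex.ofRealCLM.contDiff.comp χ.contDiff
    have hχ1 : ∀ ζ : ℂ, ‖ζ‖ ≤ N → χ ζ = 1 := fun ζ h =>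
      χ.one_of_mem_closedBall (by rw [Metric.mem_closedBall, dist_zero_right]; exact h)
    have hχ0 : ∀ ζ : ℂ, (N : ℝ) + 1 ≤ ‖ζ‖ → χ ζ = 0 := fun ζ h =>
      χ.zero_of_le_dist (by rw [dist_zero_right]; exact h)
    set φ : ℂ → ℂ := fun ζ => ((χ ζ : ℝ) : ℂ) * f ζ with hφ
    have hφs : ContDiff ℝ k φ := hχs.mul hf
    have hφc : HasCompactSupport φ := by
      apply HasCompactSupport.intro (isCompact_closedBall (0 : ℂ) ((N : ℝ) + 1))
      intro ζ hζ
      rw [Metric.mem_closedBall, dist_zero_right, not_le] at hζ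
      simp [hφ, hχ0 ζ hζ.le]
    set ψ : ℂ → ℂ := fun ζ => (1 - ((χ ζ : ℝ) : ℂ)) * f ζ with hψ
    have hψc : Continuous ψ := (continuous_const.sub hχs.continuous).mul hfc
    set H : ℂ → ℂ := fun z => (∑ m ∈ Finset.range (N + 1), V m ψ z) + ∑' m, V (m + (N + 1)) f z
      with hH
    have hHd : DifferentiableOn ℂ H (Metric.ball 0 N) := by
      rw [hH]
      apply DifferentiableOn.add
      · apply DifferentiableOn.fun_sum
        intro m _
        obtain ⟨M, hM⟩ := s2_bound hψc ((m : ℝ) + 1)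
        refine differentiableOn_V_of_zero m hψc.measurable (M := M) ?_ ?_
        · intro ζ hζ
          exact hM ζ (Metric.ball_subset_closedBall (s2_ring_subset m hζ))
        · intro ζ hζ
          simp [hψ, hχ1 ζ hζ]
      · apply Complex.differentiableOn_tsum_of_summable_norm
          ((summable_nat_add_iff (N + 1)).mpr hb) _ Metric.isOpen_ball
        · intro m w _; exact hV _ _
        · intro m
          obtain ⟨M, hM⟩ := s2_bound hfc (((m + (N + 1) : ℕ) : ℝ) + 1)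
          refine (differentiableOn_V (m + (N + 1)) hfc.measurable (M := M) ?_).mono ?_
          · intro ζ hζ
            exact hM ζ (Metric.ball_subset_closedBall (s2_ring_subset _ hζ))
          · apply Metric.ball_subset_ball
            push_cast; linarith [(Nat.cast_nonneg m : (0 : ℝ) ≤ m)]
    have hball : Metric.ball (0 : ℂ) N ∈ nhds z0 :=
      Metric.isOpen_ball.mem_nhds (by rw [Metric.mem_ball, dist_zero_right]; exact hN)
    refine ⟨φ, H, hφs, hφc, ?_, ?_, ?_⟩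
    · simp [hφ, hχ1 z0 hN.le]
    · filter_upwards [Metric.isOpen_ball.mem_nhds (show z0 ∈ Metric.ball (0 : ℂ) N by
        rw [Metric.mem_ball, dist_zero_right]; exact hN)] with z hz
      exact (hHd z hz).differentiableAt (Metric.isOpen_ball.mem_nhds hz)
    · refine Filter.Eventually.of_forall fun z => ?_
      have hs : Summable (fun m => V m f z) :=
        Summable.of_norm_bounded hb (fun m => hV m z)
      rw [← hs.sum_add_tsum_nat_add (N + 1), hH]
      simp only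
      rw [← add_assoc]
      congr 1
      have e1 : ∀ m, V m f z = V m φ z + V m ψ z := by
        intro m
        unfold V
        rw [← integral_add]
        · apply integral_congr_ae
          refine Filter.Eventually.of_forall fun ζ => ?_
          simp only [hφ, hψ]; ring
        · exact (s2_integrableOn hφs.continuous z ((m : ℝ) + 1)).mono_set (s2_ring_subset m)
        · exact (s2_integrableOn hψc z ((m : ℝ) + 1)).mono_set (s2_ring_subset m)
      rw [Finset.sum_congr rfl (fun m _ => e1 m), Finset.sum_add_distrib]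
      congr 1
      have e2 := s2_sum_rings (fun R => s2_integrableOn hφs.continuous z R) (N + 1)
      unfold V
      rw [← e2]
      rw [setIntegral_eq_integral_of_forall_compl_eq_zero]
      intro ζ hζ
      rw [Metric.mem_ball, dist_zero_right, not_lt] at hζ
      push_cast at hζ
      simp [hφ, hχ0 ζ hζ]
  constructor
  · rw [contDiff_iff_contDiffAt]
    intro z0
    obtain ⟨φ, H, h1, h2, h3, h4, h5⟩ := key z0
    apply ContDiffAt.congr_of_eventuallyEq _ h5
    apply ContDiffAt.add (contDiff_cauchy h1 h2).contDiffAt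
    have h6 : ContDiffAt ℂ k H z0 := by
      obtain ⟨U, hU1, hU2, hU3⟩ := eventually_nhds_iff.mp h4
      have : DifferentiableOn ℂ H U := fun z hz => (hU1 z hz).differentiableWithinAt
      exact (this.contDiffOn hU2).contDiffAt (hU2.mem_nhds hU3)
    exact h6.restrict_scalars ℝ
  · intro z0
    obtain ⟨φ, H, h1, h2, h3, h4, h5⟩ := key z0
    have h6 : fderiv ℝ (fun z => ∑' m, V m f z) z0
        = fderiv ℝ (fun z => (∫ ζ, φ ζ * (z - ζ)⁻¹)) z0 + fderiv ℝ H z0 := by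
      rw [Filter.EventuallyEq.fderiv_eq h5]
      apply fderiv_add
      · exact (contDiff_cauchy h1 h2).differentiable (by exact_mod_cast (by omega : k ≠ 0)) z0
      · exact h4.self_of_nhds.restrictScalars ℝ
    have h7 := s2_dbar_hol h4.self_of_nhds
    have h8 := cauchy_pompeiu (h1.of_le (by exact_mod_cast hk)) h2 z0
    rw [← h3, ← h8]
    unfold pd at h7 ⊢
    rw [h6]
    simp only [add_apply]
    linear_combination h7

end Pool.Agent.StatSurf
end

section

set_option autoImplicit false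

/-!
Completeness and the passage from the curvature integrals to the final statement.
-/

namespace Pool.Agent.Lib.MP_fcf01e_gt

open Pool.Agent.Lib.MP_364e81_gt

open Complex MeasureTheory Filter Topology ComplexConjugate
open scoped ContDiff

namespace Sp

variable (S : Sp)

noncomputable section

/-- A surface with `|E| ≥ c / (1 + |z|)` is complete. -/
theorem isComplete {c : ℝ} (hc : 0 < c) (h : ∀ z, c ≤ ‖S.E z‖ * (1 + ‖z‖)) :
    IsCompleteSurface S.x := by
  intro γ hγ hlim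
  have hγc : Continuous γ := hγ.continuous
  have hγd : Continuous (deriv γ) := hγ.continuous_deriv le_rfl
  have hE : Continuous S.E := S.smooth_E.continuous
  have hs : Continuous (speed S.x γ) := by
    rw [show speed S.x γ = fun t => ‖S.E (γ t)‖ * ‖deriv γ t‖ from funext (S.speed_x γ)]
    exact (hE.comp hγc).norm.mul hγd.norm
  have hpos : ∀ t, 0 < 1 + normSq (γ t) := fun t => by
    have := normSq_nonneg (γ t)
    linarith
  -- derivative of `log (1 + |γ|²)`
  have hd1 : ∀ t, HasDerivAt (fun t => normSq (γ t))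
      (2 * ((γ t).re * (deriv γ t).re + (γ t).im * (deriv γ t).im)) t := by
    intro t
    have h0 : HasDerivAt γ (deriv γ t) t := ((hγ.differentiable one_ne_zero) t).hasDerivAt
    have hre : HasDerivAt (fun t => (γ t).re) (deriv γ t).re t :=
      (reCLM.hasFDerivAt.comp_hasDerivAt t h0)
    have him : HasDerivAt (fun t => (γ t).im) (deriv γ t).im t :=
      (imCLM.hasFDerivAt.comp_hasDerivAt t h0)
    have h1 := (hre.mul hre).add (him.mul him)
    refine (h1.congr_deriv ?_).congr_of_eventuallyEq (Eventually.of_forall fun s => ?_)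
    · ring
    · simp [normSq_apply]
  have hd2 : ∀ t, HasDerivAt (fun t => Real.log (1 + normSq (γ t)))
      ((2 * ((γ t).re * (deriv γ t).re + (γ t).im * (deriv γ t).im)) / (1 + normSq (γ t))) t := by
    intro t
    exact ((hd1 t).const_add 1).log (hpos t).ne'
  have hcont : Continuous fun t =>
      (2 * ((γ t).re * (deriv γ t).re + (γ t).im * (deriv γ t).im)) / (1 + normSq (γ t)) := by
    refine Continuous.div ?_ ?_ fun t => (hpos t).ne'
    · fun_prop
    · exact continuous_const.add (continuous_normSq.comp hγc)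
  have hbound : ∀ t, c / 4 *
      ((2 * ((γ t).re * (deriv γ t).re + (γ t).im * (deriv γ t).im)) / (1 + normSq (γ t))) ≤
      speed S.x γ t := by
    intro t
    rw [speed_x]
    have h1 : (γ t).re * (deriv γ t).re + (γ t).im * (deriv γ t).im ≤ ‖γ t‖ * ‖deriv γ t‖ := by
      have := (abs_re_le_norm (conj (γ t) * deriv γ t))
      rw [norm_mul, norm_conj] at this
      refine le_trans (le_abs_self _) ?_
      refine le_trans (le_of_eq ?_) this
      congr 1
      simp [mul_re, conj_re, conj_im]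
    have h2 : normSq (γ t) = ‖γ t‖ ^ 2 := normSq_eq_norm_sq _
    have h3 := h (γ t)
    set r := ‖γ t‖ with hr
    have hr0 : 0 ≤ r := norm_nonneg _
    set w := ‖deriv γ t‖ with hw
    have hw0 : 0 ≤ w := norm_nonneg _
    have hE0 : 0 ≤ ‖S.E (γ t)‖ := norm_nonneg _
    rw [h2, mul_div_assoc', div_le_iff₀ (by positivity)]
    have h4 : c / 4 * (2 * ((γ t).re * (deriv γ t).re + (γ t).im * (deriv γ t).im)) ≤
        c / 2 * (r * w) := by nlinarith
    refine h4.trans ?_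
    have h5 : c * (r * w) ≤ ‖S.E (γ t)‖ * (1 + r) * (r * w) :=
      mul_le_mul_of_nonneg_right h3 (by positivity)
    have h6 : (1 + r) * r ≤ 2 * (1 + r ^ 2) := by nlinarith [sq_nonneg (r - 1)]
    have h7 : ‖S.E (γ t)‖ * w * ((1 + r) * r) ≤ ‖S.E (γ t)‖ * w * (2 * (1 + r ^ 2)) :=
      mul_le_mul_of_nonneg_left h6 (by positivity)
    nlinarith
  have h1 : ∀ T : ℝ, 0 ≤ T → c / 4 * (Real.log (1 + normSq (γ T)) -
      Real.log (1 + normSq (γ 0))) ≤ ∫ t in (0 : ℝ)..T, speed S.x γ t := by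
    intro T hT
    have h2 := intervalIntegral.integral_eq_sub_of_hasDerivAt (a := 0) (b := T)
      (fun t _ => hd2 t) (hcont.intervalIntegrable _ _)
    rw [← h2, ← intervalIntegral.integral_const_mul]
    exact intervalIntegral.integral_mono_on hT
      ((continuous_const.mul hcont).intervalIntegrable _ _) (hs.intervalIntegrable _ _)
      fun t _ => hbound t
  have h6 : Tendsto (fun T => c / 4 * (Real.log (1 + normSq (γ T)) -
      Real.log (1 + normSq (γ 0)))) atTop atTop := by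
    have h7 : Tendsto (fun T => ‖γ T‖) atTop atTop := tendsto_norm_cocompact_atTop.comp hlim
    have h8 : Tendsto (fun T => 1 + normSq (γ T)) atTop atTop := by
      have h9 : Tendsto (fun T => ‖γ T‖ ^ 2) atTop atTop :=
        (tendsto_pow_atTop two_ne_zero).comp h7
      have h10 := tendsto_atTop_add_const_left atTop (1 : ℝ) h9
      refine h10.congr fun T => ?_
      rw [normSq_eq_norm_sq]
    have h11 := Real.tendsto_log_atTop.comp h8
    exact (tendsto_atTop_add_const_right _ (-Real.log (1 + normSq (γ 0))) h11).const_mul_atTop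
      (by positivity)
  refine tendsto_atTop_mono' atTop ?_ h6
  filter_upwards [eventually_ge_atTop 0] with T hT
  exact h1 T hT

theorem continuous_kap_div : Continuous fun z => S.kap z / S.E z ^ 2 := by
  have hs : ∀ i, Continuous (S.s i) := fun i => (S.smooth_s i).continuous
  have ht : ∀ i, Continuous (S.t i) := fun i => (S.smooth_t i).continuous
  have hds : ∀ i, Continuous (S.ds i) := fun i =>
    continuous_iff_continuousAt.mpr fun z => (S.hds i z).continuousAt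
  have hdt : ∀ i, Continuous (S.dt i) := fun i =>
    continuous_iff_continuousAt.mpr fun z => (S.hdt i z).continuousAt
  have hk : Continuous S.kap := by
    unfold kap
    exact (((hs 0).mul (hds 1)).sub ((hds 0).mul (hs 1))).mul
      (continuous_conj.comp (((ht 0).mul (hdt 1)).sub ((hdt 0).mul (ht 1))))
  exact hk.div (S.smooth_E.continuous.pow 2) fun z => pow_ne_zero 2 (S.hE z)

/-- The final step: from entire spinors to the surface. -/
theorem final {c : ℝ} (hc : 0 < c) (h : ∀ z, c ≤ ‖S.E z‖ * (1 + ‖z‖))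
    (hK : Integrable fun z => (S.kap z / S.E z ^ 2).re)
    (hN : ¬ Integrable fun z => (S.kap z / S.E z ^ 2).im) :
    ∃ x e3 e4 : ℂ → Fin 4 → ℝ,
      ContDiff ℝ ∞ x ∧ IsSpacelike x ∧ IsStationary x ∧ IsCompleteSurface x ∧
      IsNormalFrame x e3 e4 ∧
      Integrable (fun z => |gaussK x z| * area x z) ∧
      ¬ Integrable (fun z => |normalK x e3 e4 z| * area x z) := by
  have hA : ∀ z, 0 ≤ area S.x z := fun z => by
    rw [area_x]
    exact (S.N_pos z).le
  refine ⟨S.x, S.e3, S.e4, S.smooth_x, S.isSpacelike, S.isStationary, S.isComplete hc h,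
    S.isNormalFrame, ?_, ?_⟩
  · refine (hK.abs.const_mul 4).congr (ae_of_all _ fun z => ?_)
    simp only
    rw [← abs_of_nonneg (hA z), ← abs_mul, gaussK_area, abs_mul]
    norm_num
  · intro hcon
    apply hN
    have hcont : Continuous fun z => (S.kap z / S.E z ^ 2).im :=
      continuous_im.comp S.continuous_kap_div
    refine Integrable.mono' (hcon.const_mul (1 / 4)) hcont.aestronglyMeasurable
      (ae_of_all _ fun z => ?_)
    have h1 := S.normalK_area z
    have h2 : |normalK S.x S.e3 S.e4 z| * area S.x z = 4 * |(S.kap z / S.E z ^ 2).im| := by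
      rw [← abs_of_nonneg (hA z), ← abs_mul, h1, abs_mul]
      norm_num
    rw [h2, Real.norm_eq_abs]
    linarith

end

end Sp

end Pool.Agent.Lib.MP_fcf01e_gt
end
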