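import Pool.Agent.Lib.MP_fcf01e_gt.Mg.G002

section

/-! # Task H0: the Cauchy transforms of the rings -/

open Complex MeasureTheory

namespace Pool.Agent.StatSurf

theorem H0_ring_subset (m : ℕ) : ring m ⊆ Metric.ball (0 : ℂ) (m + 1) := by
  intro z hz
  rw [Metric.mem_ball, dist_zero_right]
  exact hz.2

theorem H0_volume_ring_lt (m : ℕ) : volume (ring m) < ⊤ := by
  rw [volume_ring]; exact ENNReal.ofReal_lt_top

theorem H0_M_nonneg (m : ℕ) {f : ℂ → ℂ} {M : ℝ} (hM : ∀ ζ ∈ ring m, ‖f ζ‖ ≤ M) : 0 ≤ M := by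
  refine (norm_nonneg (f (m : ℂ))).trans (hM _ ?_)
  constructor
  · simp
  · simp

theorem H0_ae_bound (m : ℕ) {f : ℂ → ℂ} {M : ℝ} (hM : ∀ ζ ∈ ring m, ‖f ζ‖ ≤ M) :
    ∀ᵐ ζ ∂(volume.restrict (ring m)), ‖f ζ‖ ≤ M :=
  (ae_restrict_iff' (measurableSet_ring m)).mpr (Filter.Eventually.of_forall hM)

theorem H0_int_inv (m : ℕ) (z : ℂ) : IntegrableOn (fun ζ => (z - ζ)⁻¹) (ring m) :=
  (integrableOn_inv z (m + 1)).mono_set (H0_ring_subset m)

theorem H0_int (m : ℕ) {f : ℂ → ℂ} (hf : Measurable f) {M : ℝ}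
    (hM : ∀ ζ ∈ ring m, ‖f ζ‖ ≤ M) (z : ℂ) :
    IntegrableOn (fun ζ => f ζ * (z - ζ)⁻¹) (ring m) :=
  (H0_int_inv m z).bdd_mul hf.aestronglyMeasurable (H0_ae_bound m hM)

theorem H0_int_conj (m : ℕ) {f : ℂ → ℂ} (hf : Measurable f) {M : ℝ}
    (hM : ∀ ζ ∈ ring m, ‖f ζ‖ ≤ M) (z : ℂ) :
    IntegrableOn (fun ζ => f ζ * (starRingEnd ℂ) ((z - ζ)⁻¹)) (ring m) := by
  refine Integrable.bdd_mul (c := M) ?_ hf.aestronglyMeasurable (H0_ae_bound m hM)
  have h := (H0_int_inv m z)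
  exact (conjCLE : ℂ →L[ℝ] ℂ).integrable_comp h

theorem H0_int_Ka (m : ℕ) {f : ℂ → ℂ} (hf : Measurable f) {M : ℝ}
    (hM : ∀ ζ ∈ ring m, ‖f ζ‖ ≤ M) {a : ℝ} (ha : 0 < a) (z : ℂ) :
    IntegrableOn (fun ζ => f ζ * Ka a (z - ζ)) (ring m) := by
  refine Integrable.bdd_mul (c := M) ?_ hf.aestronglyMeasurable (H0_ae_bound m hM)
  refine Measure.integrableOn_of_bounded (M := 1 / (2 * a)) (H0_volume_ring_lt m).ne ?_ ?_
  · exact ((measurable_Ka a).comp (measurable_const.sub measurable_id)).aestronglyMeasurable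
  · exact Filter.Eventually.of_forall fun ζ => norm_Ka_le ha _

theorem dpot_apply (m : ℕ) {f : ℂ → ℂ} (hf : Measurable f) {M : ℝ}
    (hM : ∀ ζ ∈ ring m, ‖f ζ‖ ≤ M) (z h : ℂ) :
    dpot m f z h = ∫ ζ in ring m, f ζ * (((h * (z - ζ)⁻¹).re : ℝ) : ℂ) := by
  have h1 := H0_int m hf hM z
  have h2 := H0_int_conj m hf hM z
  have e : ∀ ζ, f ζ * (((h * (z - ζ)⁻¹).re : ℝ) : ℂ) =
      (h / 2) * (f ζ * (z - ζ)⁻¹) + ((starRingEnd ℂ) h / 2) * (f ζ * (starRingEnd ℂ) ((z - ζ)⁻¹)) := by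
    intro ζ
    rw [Complex.re_eq_add_conj, map_mul]
    ring
  simp_rw [e]
  rw [integral_add (h1.const_mul _) (h2.const_mul _), integral_const_mul, integral_const_mul]
  simp only [dpot, V, Vc]
  simp
  ring

theorem H0_norm_V_sub (m : ℕ) {f : ℂ → ℂ} (hf : Measurable f) {M : ℝ}
    (hM : ∀ ζ ∈ ring m, ‖f ζ‖ ≤ M) {a : ℝ} (ha : 0 < a) (z : ℂ) :
    ‖V m f z - ∫ ζ in ring m, f ζ * Ka a (z - ζ)‖ ≤ M * (10 * a) := by
  have hM0 := H0_M_nonneg m hM
  rw [V, ← integral_sub (H0_int m hf hM z) (H0_int_Ka m hf hM ha z)]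
  have hi := (integrable_Ka_sub ha z).norm
  calc ‖∫ ζ in ring m, (f ζ * (z - ζ)⁻¹ - f ζ * Ka a (z - ζ))‖
      ≤ ∫ ζ in ring m, M * ‖(z - ζ)⁻¹ - Ka a (z - ζ)‖ := by
        refine norm_integral_le_of_norm_le (hi.integrableOn.const_mul M) ?_
        filter_upwards [H0_ae_bound m hM] with ζ hζ
        rw [← mul_sub, norm_mul]
        exact mul_le_mul_of_nonneg_right hζ (norm_nonneg _)
    _ = M * ∫ ζ in ring m, ‖(z - ζ)⁻¹ - Ka a (z - ζ)‖ := integral_const_mul _ _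
    _ ≤ M * ∫ ζ, ‖(z - ζ)⁻¹ - Ka a (z - ζ)‖ := by
        refine mul_le_mul_of_nonneg_left ?_ hM0
        exact setIntegral_le_integral hi (Filter.Eventually.of_forall fun ζ => norm_nonneg _)
    _ ≤ M * (10 * a) := mul_le_mul_of_nonneg_left (integral_Ka_sub_le ha z) hM0

theorem H0_cont_Ka (m : ℕ) {f : ℂ → ℂ} (hf : Measurable f) {M : ℝ}
    (hM : ∀ ζ ∈ ring m, ‖f ζ‖ ≤ M) {a : ℝ} (ha : 0 < a) :
    Continuous (fun z => ∫ ζ in ring m, f ζ * Ka a (z - ζ)) := by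
  have hM0 := H0_M_nonneg m hM
  set K : ℝ := M * (volume (ring m)).toReal / a ^ 2 with hK
  have hK0 : 0 ≤ K := by positivity
  have hl : LipschitzWith ⟨K, hK0⟩ (fun z => ∫ ζ in ring m, f ζ * Ka a (z - ζ)) := by
    refine LipschitzWith.of_dist_le_mul fun z z' => ?_
    rw [dist_eq_norm, ← integral_sub (H0_int_Ka m hf hM ha z) (H0_int_Ka m hf hM ha z')]
    have : ‖∫ ζ in ring m, (f ζ * Ka a (z - ζ) - f ζ * Ka a (z' - ζ))‖ ≤
        M * (‖z - z'‖ / a ^ 2) * (volume (ring m)).toReal := by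
      refine norm_setIntegral_le_of_norm_le_const (H0_volume_ring_lt m) ?_
      intro ζ hζ
      rw [← mul_sub, norm_mul]
      refine mul_le_mul (hM ζ hζ) ?_ (norm_nonneg _) hM0
      have := norm_Ka_sub_le ha (z - ζ) (z' - ζ)
      simpa using this
    refine this.trans (le_of_eq ?_)
    show _ = K * dist z z'
    rw [hK, dist_eq_norm]
    ring
  exact hl.continuous

/-- The regularised Cauchy transforms converge uniformly to `V m f` (`integral_Ka_sub_le`), and they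
are Lipschitz (`norm_Ka_sub_le`). -/
theorem continuous_V (m : ℕ) {f : ℂ → ℂ} (hf : Measurable f) {M : ℝ}
    (hM : ∀ ζ ∈ ring m, ‖f ζ‖ ≤ M) : Continuous (V m f) := by
  have hM0 := H0_M_nonneg m hM
  refine continuous_of_uniform_approx_of_continuous ?_
  intro u hu
  obtain ⟨ε, hε, hεu⟩ := Metric.mem_uniformity_dist.mp hu
  set a : ℝ := ε / (20 * (M + 1)) with ha_def
  have ha : 0 < a := by positivity
  refine ⟨_, H0_cont_Ka m hf hM ha, fun z => hεu ?_⟩
  rw [dist_eq_norm]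
  refine (H0_norm_V_sub m hf hM ha z).trans_lt ?_
  have : M * (10 * a) = (M / (M + 1)) * (ε / 2) := by
    rw [ha_def]; field_simp; ring
  rw [this]
  have h1 : M / (M + 1) ≤ 1 := by
    rw [div_le_one (by positivity)]; linarith
  nlinarith

theorem H0_Vc_eq (m : ℕ) (f : ℂ → ℂ) (z : ℂ) :
    Vc m f z = (starRingEnd ℂ) (V m (fun ζ => (starRingEnd ℂ) (f ζ)) z) := by
  rw [V, Vc, ← integral_conj]
  congr 1
  funext ζ
  rw [map_mul, Complex.conj_conj]

theorem continuous_Vc (m : ℕ) {f : ℂ → ℂ} (hf : Measurable f) {M : ℝ}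
    (hM : ∀ ζ ∈ ring m, ‖f ζ‖ ≤ M) : Continuous (Vc m f) := by
  have h : Vc m f = fun z => (starRingEnd ℂ) (V m (fun ζ => (starRingEnd ℂ) (f ζ)) z) := by
    funext z; exact H0_Vc_eq m f z
  rw [h]
  refine Complex.continuous_conj.comp (continuous_V m (M := M) ?_ ?_)
  · exact Complex.continuous_conj.measurable.comp hf
  · intro ζ hζ
    rw [RCLike.norm_conj]
    exact hM ζ hζ

theorem continuous_dpot (m : ℕ) {f : ℂ → ℂ} (hf : Measurable f) {M : ℝ}
    (hM : ∀ ζ ∈ ring m, ‖f ζ‖ ≤ M) : Continuous (dpot m f) := by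
  have h1 := continuous_V m hf hM
  have h2 := continuous_Vc m hf hM
  unfold dpot
  exact ((h1.div_const 2).smul continuous_const).add ((h2.div_const 2).smul continuous_const)

theorem pot_zero (m : ℕ) (hm : 1 ≤ m) (f : ℂ → ℂ) : pot m f 0 = 0 := by
  have hm0 : m ≠ 0 := by omega
  unfold pot
  simp [hm0]

theorem norm_pot_zero_le {f : ℂ → ℂ} (hf : Measurable f) {M : ℝ}
    (hM : ∀ ζ ∈ ring 0, ‖f ζ‖ ≤ M) : ‖pot 0 f 0‖ ≤ 2 * M := by
  have hM0 := H0_M_nonneg 0 hM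
  have hi : IntegrableOn (fun ζ : ℂ => Real.log ‖ζ‖) (ring 0) := by
    have h := (integrableOn_log 0 (0 + 1)).mono_set (by simpa using H0_ring_subset 0)
    simpa using h
  have hn : IntegrableOn (fun ζ : ℂ => ‖Real.log ‖ζ‖‖) (ring 0) := hi.norm
  unfold pot
  calc ‖∫ ζ in ring 0, f ζ * ((Real.log ‖(0 : ℂ) - ζ‖ - (if (0 : ℕ) = 0 then 0 else Real.log ‖ζ‖) : ℝ) : ℂ)‖
      ≤ ∫ ζ in ring 0, M * ‖Real.log ‖ζ‖‖ := by
        refine norm_integral_le_of_norm_le (hn.const_mul M) ?_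
        filter_upwards [H0_ae_bound 0 hM] with ζ hζ
        rw [norm_mul, Complex.norm_real]
        simp only [zero_sub, norm_neg, if_true, sub_zero]
        exact mul_le_mul_of_nonneg_right hζ (norm_nonneg _)
    _ = M * ∫ ζ in ring 0, ‖Real.log ‖ζ‖‖ := integral_const_mul _ _
    _ ≤ M * 2 := mul_le_mul_of_nonneg_left integral_log_le hM0
    _ = 2 * M := by ring

theorem H0_norm_V_zero {f : ℂ → ℂ} {M : ℝ}
    (hM : ∀ ζ ∈ ring 0, ‖f ζ‖ ≤ M) (z : ℂ) : ‖V 0 f z‖ ≤ 60 * M / (1 + ‖z‖) := by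
  have hM0 := H0_M_nonneg 0 hM
  have hn : IntegrableOn (fun ζ : ℂ => ‖(z - ζ)⁻¹‖) (ring 0) := (H0_int_inv 0 z).norm
  unfold V
  calc ‖∫ ζ in ring 0, f ζ * (z - ζ)⁻¹‖
      ≤ ∫ ζ in ring 0, M * ‖(z - ζ)⁻¹‖ := by
        refine norm_integral_le_of_norm_le (hn.const_mul M) ?_
        filter_upwards [H0_ae_bound 0 hM] with ζ hζ
        rw [norm_mul]
        exact mul_le_mul_of_nonneg_right hζ (norm_nonneg _)
    _ = M * ∫ ζ in ring 0, ‖(z - ζ)⁻¹‖ := integral_const_mul _ _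
    _ ≤ M * (60 / (1 + ‖z‖)) := mul_le_mul_of_nonneg_left (integral_inv_le z) hM0
    _ = 60 * M / (1 + ‖z‖) := by ring

theorem norm_V_zero_le' {f : ℂ → ℂ} (hf : Measurable f) {M : ℝ}
    (hM : ∀ ζ ∈ ring 0, ‖f ζ‖ ≤ M) (z : ℂ) : ‖V 0 f z‖ ≤ 60 * M / (1 + ‖z‖) ∧
      ‖Vc 0 f z‖ ≤ 60 * M / (1 + ‖z‖) ∧ ‖dpot 0 f z‖ ≤ 60 * M / (1 + ‖z‖) := by
  have h1 := H0_norm_V_zero hM z
  have h2 : ‖Vc 0 f z‖ ≤ 60 * M / (1 + ‖z‖) := by
    rw [H0_Vc_eq, RCLike.norm_conj]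
    refine H0_norm_V_zero ?_ z
    intro ζ hζ
    rw [RCLike.norm_conj]
    exact hM ζ hζ
  refine ⟨h1, h2, ?_⟩
  have h0 : 0 ≤ 60 * M / (1 + ‖z‖) := (norm_nonneg _).trans h1
  refine ContinuousLinearMap.opNorm_le_bound _ h0 fun h => ?_
  have e : dpot 0 f z h = V 0 f z / 2 * h + Vc 0 f z / 2 * (starRingEnd ℂ) h := by
    simp [dpot]
  rw [e]
  calc ‖V 0 f z / 2 * h + Vc 0 f z / 2 * (starRingEnd ℂ) h‖
      ≤ ‖V 0 f z / 2 * h‖ + ‖Vc 0 f z / 2 * (starRingEnd ℂ) h‖ := norm_add_le _ _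
    _ = ‖V 0 f z‖ / 2 * ‖h‖ + ‖Vc 0 f z‖ / 2 * ‖h‖ := by
        rw [norm_mul, norm_mul, norm_div, norm_div, RCLike.norm_conj]; simp
    _ ≤ _ := by nlinarith [norm_nonneg h]

end Pool.Agent.StatSurf
end

section

/-! # Task H1: the ring potentials are differentiable -/

open Complex MeasureTheory Filter Topology

namespace Pool.Agent.StatSurf

/-- derivative of the regularised logarithm -/
noncomputable def H1_L (a : ℝ) (v : ℂ) : ℂ →L[ℝ] ℝ :=
  Complex.reCLM.comp ((ContinuousLinearMap.mul ℝ ℂ) (Ka a v))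

theorem H1_L_apply (a : ℝ) (v h : ℂ) : H1_L a v h = (Ka a v * h).re := rfl

theorem H1_norm_L_le (a : ℝ) (v : ℂ) : ‖H1_L a v‖ ≤ ‖Ka a v‖ := by
  refine ContinuousLinearMap.opNorm_le_bound _ (norm_nonneg _) fun h => ?_
  rw [H1_L_apply, Real.norm_eq_abs]
  exact (Complex.abs_re_le_norm _).trans (norm_mul _ _).le

theorem H1_log_deriv {a : ℝ} (ha : 0 < a) (ζ z : ℂ) :
    HasFDerivAt (fun w : ℂ => Real.log (‖w - ζ‖ ^ 2 + a ^ 2) / 2) (H1_L a (z - ζ)) z := by
  have h1 : HasFDerivAt (fun w : ℂ => w - ζ) (ContinuousLinearMap.id ℝ ℂ) z :=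
    (hasFDerivAt_id z).sub_const ζ
  have h2 := (hasStrictFDerivAt_norm_sq (z - ζ)).hasFDerivAt.comp z h1
  have h3 := (h2.add_const (a ^ 2)).log (x := z) (by
    have : 0 < ‖z - ζ‖ ^ 2 + a ^ 2 := by positivity
    exact this.ne')
  have h4 := h3.mul_const (2⁻¹ : ℝ)
  have e : (fun w : ℂ => Real.log (‖w - ζ‖ ^ 2 + a ^ 2) / 2) =
      fun w : ℂ => Real.log (((fun x : ℂ => ‖x‖ ^ 2) ∘ fun w : ℂ => w - ζ) w + a ^ 2) * 2⁻¹ := by
    funext w
    simp only [Function.comp]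
    rw [div_eq_mul_inv]
  rw [e]
  refine h4.congr_fderiv ?_
  refine ContinuousLinearMap.ext fun h => ?_
  have hc : (‖z - ζ‖ ^ 2 + a ^ 2) ≠ 0 := by positivity
  have hK : Ka a (z - ζ) * h = (((‖z - ζ‖ ^ 2 + a ^ 2)⁻¹ : ℝ) : ℂ) * ((starRingEnd ℂ) (z - ζ) * h) := by
    unfold Ka
    rw [Complex.ofReal_inv]
    field_simp
  rw [H1_L_apply, hK, Complex.re_ofReal_mul]
  have hi : inner ℝ (z - ζ) h = ((starRingEnd ℂ) (z - ζ) * h).re := by
    rw [Complex.inner, mul_comm]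
  simp only [smul_apply, ContinuousLinearMap.comp_apply, ContinuousLinearMap.id_apply,
    innerSL_apply_apply, hi, Function.comp, smul_eq_mul, nsmul_eq_mul]
  push_cast
  ring

theorem H1_measurable_L (a : ℝ) : Measurable (H1_L a) := by
  unfold H1_L
  have h1 : Measurable (fun v => (ContinuousLinearMap.mul ℝ ℂ) (Ka a v)) :=
    (ContinuousLinearMap.continuous _).measurable.comp (measurable_Ka a)
  exact ((ContinuousLinearMap.compL ℝ ℂ ℂ ℝ Complex.reCLM).continuous).measurable.comp h1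

/-- the constant subtracted from the logarithm -/
noncomputable def H1_c (m : ℕ) (ζ : ℂ) : ℝ := if m = 0 then 0 else Real.log ‖ζ‖

theorem H1_int_c (m : ℕ) : IntegrableOn (H1_c m) (ring m) := by
  by_cases h : m = 0
  · have : H1_c m = fun _ => 0 := by funext ζ; simp [H1_c, h]
    rw [this]
    exact integrableOn_zero
  · have : H1_c m = fun ζ => Real.log ‖ζ‖ := by funext ζ; simp [H1_c, h]
    rw [this]
    have h2 := (integrableOn_log 0 (m + 1)).mono_set (H0_ring_subset m)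
    simpa using h2

/-- the regularised potential -/
noncomputable def H1_F (m : ℕ) (f : ℂ → ℂ) (a : ℝ) (z ζ : ℂ) : ℂ :=
  f ζ * ((Real.log (‖z - ζ‖ ^ 2 + a ^ 2) / 2 - H1_c m ζ : ℝ) : ℂ)

noncomputable def H1_F' (f : ℂ → ℂ) (a : ℝ) (z ζ : ℂ) : ℂ →L[ℝ] ℂ :=
  f ζ • (Complex.ofRealCLM.comp (H1_L a (z - ζ)))

theorem H1_F'_apply (f : ℂ → ℂ) (a : ℝ) (z ζ h : ℂ) :
    H1_F' f a z ζ h = f ζ * (((Ka a (z - ζ) * h).re : ℝ) : ℂ) := rfl

theorem H1_F_deriv (m : ℕ) (f : ℂ → ℂ) {a : ℝ} (ha : 0 < a) (z ζ : ℂ) :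
    HasFDerivAt (fun w => H1_F m f a w ζ) (H1_F' f a z ζ) z := by
  have h1 := (H1_log_deriv ha ζ z).sub_const (H1_c m ζ)
  have h2 := (Complex.ofRealCLM.hasFDerivAt).comp z h1
  exact h2.const_mul (f ζ)

theorem H1_norm_F'_le {m : ℕ} {f : ℂ → ℂ} {M : ℝ} (hM : ∀ ζ ∈ ring m, ‖f ζ‖ ≤ M) {a : ℝ}
    (ha : 0 < a) (z ζ : ℂ) (hζ : ζ ∈ ring m) : ‖H1_F' f a z ζ‖ ≤ M * (1 / (2 * a)) := by
  have hM0 := H0_M_nonneg m hM
  refine ContinuousLinearMap.opNorm_le_bound _ (by positivity) fun h => ?_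
  rw [H1_F'_apply, norm_mul, Complex.norm_real, Real.norm_eq_abs, mul_assoc]
  refine mul_le_mul (hM ζ hζ) ?_ (abs_nonneg _) hM0
  refine (Complex.abs_re_le_norm _).trans ?_
  rw [norm_mul]
  exact mul_le_mul_of_nonneg_right (norm_Ka_le ha _) (norm_nonneg _)

theorem H1_meas_F (m : ℕ) {f : ℂ → ℂ} (hf : Measurable f) (a : ℝ) (z : ℂ) :
    Measurable (H1_F m f a z) := by
  unfold H1_F H1_c
  refine hf.mul (Complex.measurable_ofReal.comp ?_)
  refine Measurable.sub ?_ ?_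
  · fun_prop
  · split_ifs
    · exact measurable_const
    · fun_prop

theorem H1_int_F (m : ℕ) {f : ℂ → ℂ} (hf : Measurable f) {M : ℝ}
    (hM : ∀ ζ ∈ ring m, ‖f ζ‖ ≤ M) {a : ℝ} (ha : 0 < a) (z : ℂ) :
    IntegrableOn (H1_F m f a z) (ring m) := by
  unfold H1_F
  refine Integrable.bdd_mul (c := M) ?_ hf.aestronglyMeasurable (H0_ae_bound m hM)
  refine Integrable.ofReal ?_
  refine Integrable.sub ?_ (H1_int_c m)
  have hc : ContinuousOn (fun ζ : ℂ => Real.log (‖z - ζ‖ ^ 2 + a ^ 2) / 2) (Metric.closedBall 0 (m + 1)) := by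
    refine ContinuousOn.div_const ?_ _
    refine ContinuousOn.log (by fun_prop) ?_
    intro ζ _
    have : 0 < ‖z - ζ‖ ^ 2 + a ^ 2 := by positivity
    exact this.ne'
  exact (hc.integrableOn_compact (isCompact_closedBall _ _)).mono_set
    ((H0_ring_subset m).trans Metric.ball_subset_closedBall)

theorem H1_reg_deriv (m : ℕ) {f : ℂ → ℂ} (hf : Measurable f) {M : ℝ}
    (hM : ∀ ζ ∈ ring m, ‖f ζ‖ ≤ M) {a : ℝ} (ha : 0 < a) (z : ℂ) :
    HasFDerivAt (fun w => ∫ ζ in ring m, H1_F m f a w ζ) (∫ ζ in ring m, H1_F' f a z ζ) z := by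
  refine hasFDerivAt_integral_of_dominated_of_fderiv_le (s := Set.univ) (bound := fun _ => M * (1 / (2 * a)))
    Filter.univ_mem ?_ (H1_int_F m hf hM ha z) ?_ ?_ ?_ ?_
  · exact Filter.Eventually.of_forall fun w => (H1_meas_F m hf a w).aestronglyMeasurable
  · have : Measurable (H1_F' f a z) := by
      unfold H1_F'
      refine hf.smul ?_
      have h1 : Measurable (fun ζ => H1_L a (z - ζ)) :=
        (H1_measurable_L a).comp (measurable_const.sub measurable_id)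
      exact ((ContinuousLinearMap.compL ℝ ℂ ℝ ℂ Complex.ofRealCLM).continuous).measurable.comp h1
    exact this.aestronglyMeasurable
  · refine (ae_restrict_iff' (measurableSet_ring m)).mpr (Filter.Eventually.of_forall ?_)
    intro ζ hζ w _
    exact H1_norm_F'_le hM ha w ζ hζ
  · have : IsFiniteMeasure (volume.restrict (ring m)) := ⟨by
      rw [Measure.restrict_apply_univ]; exact H0_volume_ring_lt m⟩
    exact integrable_const _
  · exact Filter.Eventually.of_forall fun ζ w _ => H1_F_deriv m f ha w ζ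

theorem H1_int_F' (m : ℕ) {f : ℂ → ℂ} (hf : Measurable f) {M : ℝ}
    (hM : ∀ ζ ∈ ring m, ‖f ζ‖ ≤ M) {a : ℝ} (ha : 0 < a) (z : ℂ) :
    IntegrableOn (H1_F' f a z) (ring m) := by
  refine Measure.integrableOn_of_bounded (M := M * (1 / (2 * a))) (H0_volume_ring_lt m).ne ?_ ?_
  · have : Measurable (H1_F' f a z) := by
      unfold H1_F'
      refine hf.smul ?_
      have h1 : Measurable (fun ζ => H1_L a (z - ζ)) :=
        (H1_measurable_L a).comp (measurable_const.sub measurable_id)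
      exact ((ContinuousLinearMap.compL ℝ ℂ ℝ ℂ Complex.ofRealCLM).continuous).measurable.comp h1
    exact this.aestronglyMeasurable
  · refine (ae_restrict_iff' (measurableSet_ring m)).mpr (Filter.Eventually.of_forall ?_)
    intro ζ hζ
    exact H1_norm_F'_le hM ha z ζ hζ

/-- the derivatives are uniformly close to `dpot` -/
theorem H1_close (m : ℕ) {f : ℂ → ℂ} (hf : Measurable f) {M : ℝ}
    (hM : ∀ ζ ∈ ring m, ‖f ζ‖ ≤ M) {a : ℝ} (ha : 0 < a) (z : ℂ) :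
    ‖dpot m f z - ∫ ζ in ring m, H1_F' f a z ζ‖ ≤ M * (10 * a) := by
  have hM0 := H0_M_nonneg m hM
  refine ContinuousLinearMap.opNorm_le_bound _ (by positivity) fun h => ?_
  have hi := H1_int_F' m hf hM ha z
  rw [sub_apply, ContinuousLinearMap.integral_apply hi, dpot_apply m hf hM z h]
  have hi1 : IntegrableOn (fun ζ => f ζ * (((h * (z - ζ)⁻¹).re : ℝ) : ℂ)) (ring m) := by
    refine Integrable.bdd_mul (c := M) ?_ hf.aestronglyMeasurable (H0_ae_bound m hM)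
    exact Integrable.ofReal ((H0_int_inv m z).const_mul h).re
  have hi2 : IntegrableOn (fun ζ => H1_F' f a z ζ h) (ring m) :=
    ((ContinuousLinearMap.apply ℝ ℂ h).integrable_comp hi)
  rw [← integral_sub hi1 hi2]
  have hK := (integrable_Ka_sub ha z).norm
  calc ‖∫ ζ in ring m, (f ζ * (((h * (z - ζ)⁻¹).re : ℝ) : ℂ) - H1_F' f a z ζ h)‖
      ≤ ∫ ζ in ring m, (M * ‖h‖) * ‖(z - ζ)⁻¹ - Ka a (z - ζ)‖ := by
        refine norm_integral_le_of_norm_le (hK.integrableOn.const_mul _) ?_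
        filter_upwards [H0_ae_bound m hM] with ζ hζ
        rw [H1_F'_apply, ← mul_sub, norm_mul, mul_assoc]
        refine mul_le_mul hζ ?_ (norm_nonneg _) hM0
        rw [← Complex.ofReal_sub, Complex.norm_real, Real.norm_eq_abs, ← Complex.sub_re]
        refine (Complex.abs_re_le_norm _).trans ?_
        rw [mul_comm (Ka a (z - ζ)) h, ← mul_sub, norm_mul]
    _ = (M * ‖h‖) * ∫ ζ in ring m, ‖(z - ζ)⁻¹ - Ka a (z - ζ)‖ := integral_const_mul _ _
    _ ≤ (M * ‖h‖) * ∫ ζ, ‖(z - ζ)⁻¹ - Ka a (z - ζ)‖ := by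
        refine mul_le_mul_of_nonneg_left ?_ (by positivity)
        exact setIntegral_le_integral hK (Filter.Eventually.of_forall fun ζ => norm_nonneg _)
    _ ≤ (M * ‖h‖) * (10 * a) := mul_le_mul_of_nonneg_left (integral_Ka_sub_le ha z) (by positivity)
    _ = M * (10 * a) * ‖h‖ := by ring

theorem H1_abs_log_le {r a : ℝ} (hr : 0 < r) (ha : 0 < a) (ha1 : a ≤ 1) :
    |Real.log (r ^ 2 + a ^ 2) / 2| ≤ |Real.log r| + r ^ 2 := by
  have h1 : Real.log (r ^ 2) ≤ Real.log (r ^ 2 + a ^ 2) :=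
    Real.log_le_log (by positivity) (by nlinarith [sq_nonneg a])
  rw [Real.log_pow] at h1
  push_cast at h1
  have h2 : Real.log (r ^ 2 + a ^ 2) ≤ r ^ 2 := by
    have h3 := Real.log_le_sub_one_of_pos (x := r ^ 2 + a ^ 2) (by positivity)
    nlinarith
  have h4 := neg_abs_le (Real.log r)
  have h5 := abs_nonneg (Real.log r)
  rw [abs_le]
  constructor
  · nlinarith [sq_nonneg r]
  · nlinarith [sq_nonneg r]

/-- the regularised potentials converge -/
theorem H1_tendsto (m : ℕ) {f : ℂ → ℂ} (hf : Measurable f) {M : ℝ}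
    (hM : ∀ ζ ∈ ring m, ‖f ζ‖ ≤ M) (z : ℂ) :
    Tendsto (fun n : ℕ => ∫ ζ in ring m, H1_F m f (1 / ((n : ℝ) + 1)) z ζ) atTop (𝓝 (pot m f z)) := by
  have hM0 := H0_M_nonneg m hM
  unfold pot
  have hb : IntegrableOn (fun ζ : ℂ => M * (|Real.log ‖z - ζ‖| + ‖z - ζ‖ ^ 2 + |H1_c m ζ|)) (ring m) := by
    refine Integrable.const_mul ?_ _
    refine Integrable.add (Integrable.add ?_ ?_) (H1_int_c m).abs
    · exact ((integrableOn_log z (m + 1)).mono_set (H0_ring_subset m)).abs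
    · have hc : ContinuousOn (fun ζ : ℂ => ‖z - ζ‖ ^ 2) (Metric.closedBall 0 (m + 1)) := by fun_prop
      exact (hc.integrableOn_compact (isCompact_closedBall _ _)).mono_set
        ((H0_ring_subset m).trans Metric.ball_subset_closedBall)
  refine tendsto_integral_of_dominated_convergence _ ?_ hb ?_ ?_
  · intro n
    exact (H1_meas_F m hf _ z).aestronglyMeasurable
  · intro n
    have hne : ∀ᵐ ζ ∂(volume.restrict (ring m)), ζ ≠ z := ae_restrict_of_ae (by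
      have : volume ({z} : Set ℂ) = 0 := measure_singleton z
      exact (measure_eq_zero_iff_ae_notMem.mp this))
    filter_upwards [H0_ae_bound m hM, hne] with ζ hζ hz
    unfold H1_F
    rw [norm_mul, Complex.norm_real, Real.norm_eq_abs]
    refine mul_le_mul hζ ?_ (abs_nonneg _) hM0
    have hr : 0 < ‖z - ζ‖ := norm_pos_iff.mpr (sub_ne_zero.mpr (Ne.symm hz))
    have ha : (0 : ℝ) < 1 / ((n : ℝ) + 1) := by positivity
    have ha1 : (1 : ℝ) / ((n : ℝ) + 1) ≤ 1 := by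
      rw [div_le_one (by positivity)]
      have : (0 : ℝ) ≤ n := Nat.cast_nonneg n
      linarith
    have h1 := H1_abs_log_le hr ha ha1
    calc |Real.log (‖z - ζ‖ ^ 2 + (1 / ((n : ℝ) + 1)) ^ 2) / 2 - H1_c m ζ|
        ≤ |Real.log (‖z - ζ‖ ^ 2 + (1 / ((n : ℝ) + 1)) ^ 2) / 2| + |H1_c m ζ| := abs_sub _ _
      _ ≤ _ := by linarith
  · have hne : ∀ᵐ ζ ∂(volume.restrict (ring m)), ζ ≠ z := ae_restrict_of_ae (by
      have : volume ({z} : Set ℂ) = 0 := measure_singleton z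
      exact (measure_eq_zero_iff_ae_notMem.mp this))
    filter_upwards [hne] with ζ hz
    have hr : 0 < ‖z - ζ‖ := norm_pos_iff.mpr (sub_ne_zero.mpr (Ne.symm hz))
    unfold H1_F
    refine Tendsto.const_mul _ ?_
    refine (Complex.continuous_ofReal.tendsto _).comp ?_
    refine Tendsto.sub ?_ tendsto_const_nhds
    have h0 : Tendsto (fun n : ℕ => (1 : ℝ) / ((n : ℝ) + 1)) atTop (𝓝 0) :=
      tendsto_one_div_add_atTop_nhds_zero_nat
    have h1 : Tendsto (fun n : ℕ => ‖z - ζ‖ ^ 2 + ((1 : ℝ) / ((n : ℝ) + 1)) ^ 2) atTop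
        (𝓝 (‖z - ζ‖ ^ 2)) := by
      have := (h0.pow 2).const_add (‖z - ζ‖ ^ 2)
      simpa using this
    have h2 : Tendsto (fun n : ℕ => Real.log (‖z - ζ‖ ^ 2 + ((1 : ℝ) / ((n : ℝ) + 1)) ^ 2)) atTop
        (𝓝 (Real.log (‖z - ζ‖ ^ 2))) := h1.log (by positivity)
    have h3 := h2.div_const 2
    have e : Real.log (‖z - ζ‖ ^ 2) / 2 = Real.log ‖z - ζ‖ := by
      rw [Real.log_pow]; push_cast; ring
    rw [e] at h3
    exact h3

/-- Regularise `log |z - ζ|` by `log (|z - ζ| ^ 2 + a ^ 2) / 2`, whose derivative in `z` is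
`h ↦ Re (h Ka a (z - ζ))`: the derivatives converge uniformly as `a → 0` by `integral_Ka_sub_le`, and
the functions converge pointwise (`hasFDerivAt_of_tendstoUniformly`). -/
theorem hasFDerivAt_pot (m : ℕ) {f : ℂ → ℂ} (hf : Measurable f) {M : ℝ}
    (hM : ∀ ζ ∈ ring m, ‖f ζ‖ ≤ M) (z : ℂ) : HasFDerivAt (pot m f) (dpot m f z) z := by
  have hM0 := H0_M_nonneg m hM
  have hpos : ∀ n : ℕ, (0 : ℝ) < 1 / ((n : ℝ) + 1) := fun n => by positivity
  refine hasFDerivAt_of_tendstoUniformly (l := atTop)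
    (f := fun (n : ℕ) w => ∫ ζ in ring m, H1_F m f (1 / ((n : ℝ) + 1)) w ζ)
    (f' := fun (n : ℕ) w => ∫ ζ in ring m, H1_F' f (1 / ((n : ℝ) + 1)) w ζ) ?_ ?_ ?_ z
  · rw [Metric.tendstoUniformly_iff]
    intro ε hε
    have h0 : Tendsto (fun n : ℕ => M * (10 * ((1 : ℝ) / ((n : ℝ) + 1)))) atTop (𝓝 (M * (10 * 0))) :=
      (tendsto_one_div_add_atTop_nhds_zero_nat.const_mul 10).const_mul M
    rw [mul_zero, mul_zero] at h0
    filter_upwards [h0.eventually (gt_mem_nhds hε)] with n hn w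
    rw [dist_eq_norm]
    exact (H1_close m hf hM (hpos n) w).trans_lt hn
  · intro n w
    exact H1_reg_deriv m hf hM (hpos n) w
  · intro w
    exact H1_tendsto m hf hM w

end Pool.Agent.StatSurf
end

section

/-! # Task H2a: bounds of the transforms of admissible functions -/

open Complex MeasureTheory

namespace Pool.Agent.StatSurf

/-- `k` is `C^1`, with `|k|` and `|D k|` at most `B (3 + |z|) ^ 2`. -/
structure Adm (k : ℂ → ℂ) (B : ℝ) : Prop where
  c1 : ContDiff ℝ 1 k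
  bound : ∀ z, ‖k z‖ ≤ B * (3 + ‖z‖) ^ 2
  grad : ∀ z, ‖fderiv ℝ k z‖ ≤ B * (3 + ‖z‖) ^ 2

theorem Adm.nonneg {k : ℂ → ℂ} {B : ℝ} (h : Adm k B) : 0 ≤ B := by
  have h0 := h.bound 0
  have h1 : 0 ≤ ‖k 0‖ := norm_nonneg _
  rw [norm_zero] at h0
  nlinarith

theorem Adm.radLip {k : ℂ → ℂ} {B : ℝ} (h : Adm k B) (m : ℕ) :
    RadLip m k (B * ((m : ℝ) + 4) ^ 2) := by
  have hB := h.nonneg
  have key : ∀ z : ℂ, ‖z‖ ≤ m + 1 → B * (3 + ‖z‖) ^ 2 ≤ B * ((m : ℝ) + 4) ^ 2 := by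
    intro z hz
    have h1 : 0 ≤ ‖z‖ := norm_nonneg _
    apply mul_le_mul_of_nonneg_left _ hB
    apply pow_le_pow_left₀ (by linarith)
    linarith
  refine ⟨fun z _ hz => (h.bound z).trans (key z hz), ?_⟩
  intro u hu r r' hr1 hr2 hr1' hr2'
  have hm : (0 : ℝ) ≤ m := Nat.cast_nonneg m
  have hconv : Convex ℝ (Metric.closedBall (0 : ℂ) ((m : ℝ) + 1)) := convex_closedBall _ _
  have hmem : ∀ s : ℝ, (m : ℝ) ≤ s → s ≤ m + 1 → s • u ∈ Metric.closedBall (0 : ℂ) ((m : ℝ) + 1) := by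
    intro s hs1 hs2
    rw [mem_closedBall_zero_iff, norm_smul, hu, mul_one, Real.norm_eq_abs,
      abs_of_nonneg (hm.trans hs1)]
    exact hs2
  have hd : ∀ z ∈ Metric.closedBall (0 : ℂ) ((m : ℝ) + 1), DifferentiableAt ℝ k z := fun z _ =>
    (h.c1.differentiable (by norm_num)).differentiableAt
  have hbd : ∀ z ∈ Metric.closedBall (0 : ℂ) ((m : ℝ) + 1),
      ‖fderiv ℝ k z‖ ≤ B * ((m : ℝ) + 4) ^ 2 := fun z hz =>
    (h.grad z).trans (key z (by simpa using hz))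
  have := hconv.norm_image_sub_le_of_norm_fderiv_le hd hbd (hmem r' hr1' hr2') (hmem r hr1 hr2)
  refine this.trans (le_of_eq ?_)
  rw [← sub_smul, norm_smul, hu, mul_one, Real.norm_eq_abs]

theorem norm_mu (g : ℂ → ℂ) (z : ℂ) : ‖mu g z‖ = 1 := by
  unfold mu
  rw [mul_comm, Complex.norm_exp_ofReal_mul_I]

theorem continuous_mu {g : ℂ → ℂ} (hg : Differentiable ℂ g) : Continuous (mu g) := by
  unfold mu
  have := hg.continuous
  fun_prop

theorem mu_om {g : ℂ → ℂ} (hg : ∀ z, g (om * z) = - g z) (z : ℂ) :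
    mu g (om * z) = (starRingEnd ℂ) (mu g z) := by
  unfold mu
  rw [hg, ← Complex.exp_conj]
  simp

/-- The product `μ k` is bounded on each ring. -/
theorem Adm.bound_ring {k : ℂ → ℂ} {B : ℝ} (h : Adm k B) (g : ℂ → ℂ) (m : ℕ) :
    ∀ ζ ∈ ring m, ‖mu g ζ * k ζ‖ ≤ B * ((m : ℝ) + 4) ^ 2 := by
  intro ζ hζ
  rw [norm_mul, norm_mu, one_mul]
  exact (h.radLip m).bound ζ hζ.1 hζ.2.le

theorem Adm.measurable {k : ℂ → ℂ} {B : ℝ} (h : Adm k B) {g : ℂ → ℂ} (hg : Differentiable ℂ g) :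
    Measurable (fun ζ => mu g ζ * k ζ) :=
  (continuous_mu hg).measurable.mul h.c1.continuous.measurable

private theorem norm_dpot_le (m : ℕ) (f : ℂ → ℂ) (z : ℂ) {C : ℝ} (h1 : ‖V m f z‖ ≤ C)
    (h2 : ‖Vc m f z‖ ≤ C) : ‖dpot m f z‖ ≤ C := by
  have hC : 0 ≤ C := (norm_nonneg _).trans h1
  refine ContinuousLinearMap.opNorm_le_bound _ hC fun h => ?_
  have e1 : dpot m f z h = V m f z / 2 * h + Vc m f z / 2 * (starRingEnd ℂ) h := by
    simp [dpot]
  rw [e1]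
  calc ‖V m f z / 2 * h + Vc m f z / 2 * (starRingEnd ℂ) h‖
      ≤ ‖V m f z / 2 * h‖ + ‖Vc m f z / 2 * (starRingEnd ℂ) h‖ := norm_add_le _ _
    _ = ‖V m f z‖ / 2 * ‖h‖ + ‖Vc m f z‖ / 2 * ‖h‖ := by
        rw [norm_mul, norm_mul, norm_div, norm_div, RCLike.norm_conj]
        norm_num
    _ ≤ C / 2 * ‖h‖ + C / 2 * ‖h‖ := by gcongr
    _ = C * ‖h‖ := by ring

theorem norm_V_le {g : ℂ → ℂ} (hg : Phase g) {k : ℂ → ℂ} {B : ℝ} (h : Adm k B) (m : ℕ)
    (hm : 1 ≤ m) (z : ℂ) :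
    ‖V m (fun ζ => mu g ζ * k ζ) z‖ ≤ (1 / 2) ^ m * B / (1 + ‖z‖) ∧
    ‖Vc m (fun ζ => mu g ζ * k ζ) z‖ ≤ (1 / 2) ^ m * B / (1 + ‖z‖) ∧
    ‖dpot m (fun ζ => mu g ζ * k ζ) z‖ ≤ (1 / 2) ^ m * B / (1 + ‖z‖) := by
  have hk : Measurable k := h.c1.continuous.measurable
  have e : tt m * (B * ((m : ℝ) + 4) ^ 2) / (1 + ‖z‖) = (1 / 2) ^ m * B / (1 + ‖z‖) := by
    have : ((m : ℝ) + 4) ^ 2 ≠ 0 := by positivity
    unfold tt
    field_simp
  have h1 : ‖V m (fun ζ => mu g ζ * k ζ) z‖ ≤ (1 / 2) ^ m * B / (1 + ‖z‖) := by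
    have := hg.ring1 m hm k _ hk (h.radLip m) (ContinuousLinearMap.id ℝ ℂ)
      ContinuousLinearMap.norm_id_le z
    rw [e] at this
    exact this
  have h2 : ‖Vc m (fun ζ => mu g ζ * k ζ) z‖ ≤ (1 / 2) ^ m * B / (1 + ‖z‖) := by
    have := hg.ring1 m hm k _ hk (h.radLip m) (conjCLE : ℂ →L[ℝ] ℂ)
      (ContinuousLinearMap.opNorm_le_bound _ zero_le_one fun x => by simp) z
    rw [e] at this
    exact this
  exact ⟨h1, h2, norm_dpot_le m _ z h1 h2⟩

theorem norm_V_zero_le {g : ℂ → ℂ} {k : ℂ → ℂ} {B : ℝ} (hg : Differentiable ℂ g) (h : Adm k B)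
    (z : ℂ) :
    ‖V 0 (fun ζ => mu g ζ * k ζ) z‖ ≤ 960 * B / (1 + ‖z‖) ∧
    ‖Vc 0 (fun ζ => mu g ζ * k ζ) z‖ ≤ 960 * B / (1 + ‖z‖) ∧
    ‖dpot 0 (fun ζ => mu g ζ * k ζ) z‖ ≤ 960 * B / (1 + ‖z‖) := by
  have h1 := norm_V_zero_le' (h.measurable hg) (M := 16 * B) (fun ζ hζ => by
    have := h.bound_ring g 0 ζ hζ
    refine this.trans (le_of_eq ?_)
    norm_num
    ring) z
  have e : 60 * (16 * B) = 960 * B := by ring
  rw [e] at h1
  exact h1

end Pool.Agent.StatSurf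
end

section

/-! # Task H3a: properties of the class `Cls` -/

open Complex MeasureTheory

namespace Pool.Agent.StatSurf

/-- Growth: `|w z| ≤ κ (1 + log (1 + |z|))`. -/
theorem Cls.growth {w : ℂ → ℂ} {κ : ℝ} (h : Cls w κ) (z : ℂ) :
    ‖w z‖ ≤ κ * (1 + Real.log (1 + ‖z‖)) := by
  have hdiff : Differentiable ℝ w := h.c1.differentiable (by norm_num)
  have hline : ∀ t : ℝ, HasDerivAt (fun t : ℝ => w ((t : ℂ) * z)) (fderiv ℝ w ((t : ℂ) * z) z) t := by
    intro t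
    have h1 : HasDerivAt (fun t : ℝ => (t : ℂ) * z) z t := by
      have := (Complex.ofRealCLM.hasDerivAt (x := t)).mul_const z
      simpa using this
    exact (hdiff ((t : ℂ) * z)).hasFDerivAt.comp_hasDerivAt t h1
  have hpos : ∀ t : ℝ, 0 ≤ t → 0 < 1 + t * ‖z‖ := by
    intro t ht
    have := mul_nonneg ht (norm_nonneg z)
    linarith
  have hB : ∀ t : ℝ, 0 ≤ t → HasDerivAt (fun t : ℝ => κ * (1 + Real.log (1 + t * ‖z‖)))
      (κ * (‖z‖ / (1 + t * ‖z‖))) t := by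
    intro t ht
    have h1 : HasDerivAt (fun t : ℝ => 1 + t * ‖z‖) ‖z‖ t := by
      simpa using ((hasDerivAt_id t).mul_const ‖z‖).const_add 1
    have h2 := (h1.log (hpos t ht).ne').const_add 1
    exact h2.const_mul κ
  have key := image_norm_le_of_norm_deriv_right_le_deriv_boundary'
    (f := fun t : ℝ => w ((t : ℂ) * z)) (f' := fun t => fderiv ℝ w ((t : ℂ) * z) z)
    (a := 0) (b := 1)
    (B := fun t : ℝ => κ * (1 + Real.log (1 + t * ‖z‖)))
    (B' := fun t : ℝ => κ * (‖z‖ / (1 + t * ‖z‖)))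
    (fun t _ => (hline t).continuousAt.continuousWithinAt)
    (fun t _ => (hline t).hasDerivWithinAt)
    (by simpa using h.zero)
    (fun t ht => (hB t ht.1).continuousAt.continuousWithinAt)
    (fun t ht => (hB t ht.1).hasDerivWithinAt)
    (by
      intro t ht
      have h1 := h.grad ((t : ℂ) * z)
      have hn : ‖(t : ℂ) * z‖ = t * ‖z‖ := by
        rw [norm_mul, Complex.norm_real, Real.norm_of_nonneg ht.1]
      rw [hn] at h1
      calc ‖fderiv ℝ w ((t : ℂ) * z) z‖ ≤ ‖fderiv ℝ w ((t : ℂ) * z)‖ * ‖z‖ :=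
            ContinuousLinearMap.le_opNorm _ _
        _ ≤ κ / (1 + t * ‖z‖) * ‖z‖ := mul_le_mul_of_nonneg_right h1 (norm_nonneg z)
        _ = κ * (‖z‖ / (1 + t * ‖z‖)) := by ring)
  have := key (x := 1) ⟨zero_le_one, le_refl _⟩
  simpa using this

theorem Cls.mono {w : ℂ → ℂ} {κ κ' : ℝ} (h : Cls w κ) (hκ : κ ≤ κ') : Cls w κ' := by
  refine ⟨h.c1, h.zero.trans hκ, fun z => (h.grad z).trans ?_⟩
  have : 0 < 1 + ‖z‖ := by positivity
  gcongr

theorem Cls.add {w w' : ℂ → ℂ} {κ κ' : ℝ} (h : Cls w κ) (h' : Cls w' κ') :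
    Cls (fun z => w z + w' z) (κ + κ') := by
  refine ⟨h.c1.add h'.c1, (norm_add_le _ _).trans (add_le_add h.zero h'.zero), fun z => ?_⟩
  have hd : Differentiable ℝ w := h.c1.differentiable (by norm_num)
  have hd' : Differentiable ℝ w' := h'.c1.differentiable (by norm_num)
  have e1 : fderiv ℝ (fun z => w z + w' z) z = fderiv ℝ w z + fderiv ℝ w' z :=
    fderiv_fun_add (hd z) (hd' z)
  rw [e1, add_div]
  exact (norm_add_le _ _).trans (add_le_add (h.grad z) (h'.grad z))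

theorem Cls.smul {w : ℂ → ℂ} {κ : ℝ} (h : Cls w κ) {c : ℝ} :
    Cls (fun z => (c : ℂ) * w z) (|c| * κ) := by
  have hd : Differentiable ℝ w := h.c1.differentiable (by norm_num)
  refine ⟨contDiff_const.mul h.c1, ?_, fun z => ?_⟩
  · rw [norm_mul, Complex.norm_real, Real.norm_eq_abs]
    exact mul_le_mul_of_nonneg_left h.zero (abs_nonneg c)
  · have e1 : fderiv ℝ (fun z => (c : ℂ) * w z) z = c • fderiv ℝ w z := by
      have := ((hd z).hasFDerivAt.const_smul c).fderiv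
      rw [← this]
      congr 1
    rw [e1, norm_smul, Real.norm_eq_abs, mul_div_assoc]
    exact mul_le_mul_of_nonneg_left (h.grad z) (abs_nonneg c)

private theorem logbd (z : ℂ) : 0 ≤ Real.log (1 + ‖z‖) ∧ Real.log (1 + ‖z‖) ≤ ‖z‖ := by
  have h0 := norm_nonneg z
  refine ⟨Real.log_nonneg (by linarith), ?_⟩
  have := Real.log_le_sub_one_of_pos (x := 1 + ‖z‖) (by linarith)
  linarith

private theorem expbd (z : ℂ) :
    Real.exp (1 / 4 * (1 + Real.log (1 + ‖z‖))) ≤ 4 / 3 * (1 + ‖z‖) := by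
  have h0 := norm_nonneg z
  have h1 : Real.exp (1 / 4) ≤ 4 / 3 := by
    have h2 : Real.exp 1 ≤ (4 / 3 : ℝ) ^ 4 := by
      have := Real.exp_one_lt_d9
      norm_num at this ⊢
      linarith
    have h3 : Real.exp 1 = Real.exp (1 / 4) ^ 4 := by
      rw [← Real.exp_nat_mul]; norm_num
    rw [h3] at h2
    exact le_of_pow_le_pow_left₀ (by norm_num) (by norm_num) h2
  have h4 : Real.exp (1 / 4 * Real.log (1 + ‖z‖)) ≤ 1 + ‖z‖ := by
    calc Real.exp (1 / 4 * Real.log (1 + ‖z‖)) ≤ Real.exp (Real.log (1 + ‖z‖)) := by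
          apply Real.exp_le_exp.mpr
          have := (logbd z).1
          linarith
      _ = 1 + ‖z‖ := Real.exp_log (by linarith)
  have e1 : (1 / 4 * (1 + Real.log (1 + ‖z‖))) = 1 / 4 + 1 / 4 * Real.log (1 + ‖z‖) := by ring
  rw [e1, Real.exp_add]
  exact mul_le_mul h1 h4 (Real.exp_pos _).le (by norm_num)

private theorem norm_exp_bd {w : ℂ → ℂ} (h : Cls w (1 / 4)) (z : ℂ) :
    ‖exp (w z)‖ ≤ 4 / 3 * (1 + ‖z‖) := by
  rw [Complex.norm_exp]
  refine le_trans (Real.exp_le_exp.mpr ?_) (expbd z)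
  exact (Complex.re_le_norm _).trans (h.growth z)

private theorem fderiv_exp_comp {w : ℂ → ℂ} (h : Differentiable ℝ w) (z : ℂ) :
    HasFDerivAt (fun z => exp (w z)) (exp (w z) • fderiv ℝ w z) z :=
  (h z).hasFDerivAt.cexp

/-- `exp w` is admissible. -/
theorem adm_exp {w : ℂ → ℂ} (h : Cls w (1 / 4)) : Adm (fun z => exp (w z)) 1 := by
  have hd : Differentiable ℝ w := h.c1.differentiable (by norm_num)
  refine ⟨h.c1.cexp, fun z => ?_, fun z => ?_⟩
  · have h1 := norm_exp_bd h z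
    have h0 := norm_nonneg z
    nlinarith
  · have h1 := norm_exp_bd h z
    have h0 := norm_nonneg z
    have h2 := h.grad z
    rw [(fderiv_exp_comp hd z).fderiv, norm_smul]
    have h3 : ‖fderiv ℝ w z‖ ≤ 1 / 4 := h2.trans (by
      rw [div_le_iff₀ (by positivity)]
      nlinarith)
    calc ‖exp (w z)‖ * ‖fderiv ℝ w z‖ ≤ (4 / 3 * (1 + ‖z‖)) * (1 / 4) :=
          mul_le_mul h1 h3 (norm_nonneg _) (by positivity)
      _ ≤ 1 * (3 + ‖z‖) ^ 2 := by nlinarith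

private theorem norm_exp_sub {a b : ℂ} {L : ℝ} (ha : ‖a‖ ≤ L) (hb : ‖b‖ ≤ L) :
    ‖exp a - exp b‖ ≤ Real.exp L * ‖a - b‖ := by
  refine Convex.norm_image_sub_le_of_norm_hasDerivWithin_le (f := exp) (f' := exp)
    (s := Metric.closedBall (0 : ℂ) L) (x := b) (y := a) ?_ ?_ (convex_closedBall _ _) ?_ ?_
  · intro x _
    exact (Complex.hasDerivAt_exp x).hasDerivWithinAt
  · intro x hx
    rw [Complex.norm_exp]
    apply Real.exp_le_exp.mpr
    exact (Complex.re_le_norm _).trans (by simpa using hx)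
  · simpa using hb
  · simpa using ha

/-- Differences of exponentials are admissible. -/
theorem adm_exp_sub {w w' : ℂ → ℂ} (h : Cls w (1 / 4)) (h' : Cls w' (1 / 4)) {δ : ℝ}
    (hd : Cls (fun z => w z - w' z) δ) :
    Adm (fun z => exp (w z) - exp (w' z)) (2 * δ) := by
  have hδ : 0 ≤ δ := (norm_nonneg _).trans hd.zero
  have hw : Differentiable ℝ w := h.c1.differentiable (by norm_num)
  have hw' : Differentiable ℝ w' := h'.c1.differentiable (by norm_num)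
  have hbd : ∀ z, ‖exp (w z) - exp (w' z)‖ ≤ 4 / 3 * (1 + ‖z‖) * (δ * (1 + ‖z‖)) := by
    intro z
    have h1 := norm_exp_sub (h.growth z) (h'.growth z)
    have h2 := hd.growth z
    have h3 := logbd z
    have h0 := norm_nonneg z
    have h4 : ‖w z - w' z‖ ≤ δ * (1 + ‖z‖) := h2.trans (by
      apply mul_le_mul_of_nonneg_left _ hδ
      linarith [h3.2])
    exact h1.trans (mul_le_mul (expbd z) h4 (norm_nonneg _) (by positivity))
  refine ⟨h.c1.cexp.sub h'.c1.cexp, fun z => ?_, fun z => ?_⟩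
  · have h0 := norm_nonneg z
    refine (hbd z).trans ?_
    have : 4 / 3 * (1 + ‖z‖) * (δ * (1 + ‖z‖)) = δ * (4 / 3 * (1 + ‖z‖) ^ 2) := by ring
    rw [this, mul_comm (2 : ℝ) δ, mul_assoc]
    apply mul_le_mul_of_nonneg_left _ hδ
    nlinarith
  · have h0 := norm_nonneg z
    have e1 : HasFDerivAt (fun z => exp (w z) - exp (w' z))
        (exp (w z) • fderiv ℝ w z - exp (w' z) • fderiv ℝ w' z) z :=
      (fderiv_exp_comp hw z).sub (fderiv_exp_comp hw' z)
    rw [e1.fderiv]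
    have e2 : exp (w z) • fderiv ℝ w z - exp (w' z) • fderiv ℝ w' z
        = exp (w z) • (fderiv ℝ w z - fderiv ℝ w' z) + (exp (w z) - exp (w' z)) • fderiv ℝ w' z := by
      rw [smul_sub, sub_smul]; abel
    have e3 : fderiv ℝ (fun z => w z - w' z) z = fderiv ℝ w z - fderiv ℝ w' z :=
      fderiv_fun_sub (hw z) (hw' z)
    have h1 : ‖fderiv ℝ w z - fderiv ℝ w' z‖ ≤ δ := by
      rw [← e3]
      refine (hd.grad z).trans ?_
      rw [div_le_iff₀ (by positivity)]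
      nlinarith
    have h2 : ‖fderiv ℝ w' z‖ ≤ 1 / 4 / (1 + ‖z‖) := h'.grad z
    rw [e2]
    refine (norm_add_le _ _).trans ?_
    rw [norm_smul, norm_smul]
    have h3 : ‖exp (w z)‖ * ‖fderiv ℝ w z - fderiv ℝ w' z‖ ≤ (4 / 3 * (1 + ‖z‖)) * δ :=
      mul_le_mul (norm_exp_bd h z) h1 (norm_nonneg _) (by positivity)
    have h4 : ‖exp (w z) - exp (w' z)‖ * ‖fderiv ℝ w' z‖
        ≤ (4 / 3 * (1 + ‖z‖) * (δ * (1 + ‖z‖))) * (1 / 4 / (1 + ‖z‖)) :=
      mul_le_mul (hbd z) h2 (norm_nonneg _) (by positivity)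
    have h5 : (4 / 3 * (1 + ‖z‖) * (δ * (1 + ‖z‖))) * (1 / 4 / (1 + ‖z‖))
        = δ * (1 / 3 * (1 + ‖z‖)) := by
      field_simp
      try ring
    rw [h5] at h4
    have h6 : (4 / 3 * (1 + ‖z‖)) * δ + δ * (1 / 3 * (1 + ‖z‖)) = δ * (5 / 3 * (1 + ‖z‖)) := by ring
    refine (add_le_add h3 h4).trans ?_
    rw [h6, mul_comm (2 : ℝ) δ, mul_assoc]
    apply mul_le_mul_of_nonneg_left _ hδ
    nlinarith

private theorem cls_of_tendsto {v : ℕ → ℂ → ℂ} {V : ℂ → ℂ} {κ : ℝ} (h : ∀ n, Cls (v n) κ)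
    (hV : ContDiff ℝ 1 V) (h1 : Filter.Tendsto (fun n => v n 0) Filter.atTop (nhds (V 0)))
    (h2 : ∀ z, Filter.Tendsto (fun n => fderiv ℝ (v n) z) Filter.atTop (nhds (fderiv ℝ V z))) :
    Cls V κ :=
  ⟨hV, le_of_tendsto h1.norm (Filter.Eventually.of_forall fun n => (h n).zero),
    fun z => le_of_tendsto (h2 z).norm (Filter.Eventually.of_forall fun n => (h n).grad z)⟩

/-- Limits of sequences converging geometrically in the norm of `Cls`. -/
theorem cls_limit (w : ℕ → ℂ → ℂ) (h : ∀ j, Cls (w j) (1 / 4))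
    (hd : ∀ j, Cls (fun z => w (j + 1) z - w j z) ((1 / 2) ^ (j + 3))) :
    ∃ W : ℂ → ℂ, Cls W (1 / 4) ∧ (∀ z, Filter.Tendsto (fun j => w j z) Filter.atTop (nhds (W z))) ∧
      ∀ j, Cls (fun z => W z - w j z) ((1 / 2) ^ (j + 2)) := by
  classical
  have hw : ∀ j, Differentiable ℝ (w j) := fun j => (h j).c1.differentiable (by norm_num)
  -- pointwise convergence
  have hc : ∀ z, CauchySeq (fun j => w j z) := by
    intro z
    refine cauchySeq_of_le_geometric (1 / 2) ((1 / 8) * (1 + Real.log (1 + ‖z‖))) (by norm_num) ?_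
    intro j
    rw [dist_comm, dist_eq_norm]
    refine ((hd j).growth z).trans (le_of_eq ?_)
    rw [pow_add]; ring
  have hc' : ∀ j z, dist (fderiv ℝ (w j) z) (fderiv ℝ (w (j + 1)) z) ≤ 1 / 8 * (1 / 2) ^ j := by
    intro j z
    rw [dist_comm, dist_eq_norm]
    have e3 : fderiv ℝ (fun z => w (j + 1) z - w j z) z = fderiv ℝ (w (j + 1)) z - fderiv ℝ (w j) z :=
      fderiv_fun_sub (hw _ z) (hw _ z)
    rw [← e3]
    refine ((hd j).grad z).trans ?_
    rw [div_le_iff₀ (by positivity)]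
    have h0 := norm_nonneg z
    have hp : (0 : ℝ) ≤ (1 / 2) ^ j := by positivity
    have : ((1 : ℝ) / 2) ^ (j + 3) = 1 / 8 * (1 / 2) ^ j := by rw [pow_add]; ring
    rw [this]
    nlinarith [mul_nonneg hp h0]
  have hcd : ∀ z, CauchySeq (fun j => fderiv ℝ (w j) z) := fun z =>
    cauchySeq_of_le_geometric (1 / 2) (1 / 8) (by norm_num) (fun j => hc' j z)
  choose W hW using fun z => cauchySeq_tendsto_of_complete (hc z)
  choose W' hW' using fun z => cauchySeq_tendsto_of_complete (hcd z)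
  have hunif : TendstoUniformly (fun j z => fderiv ℝ (w j) z) W' Filter.atTop := by
    rw [Metric.tendstoUniformly_iff]
    intro ε hε
    have h1 : Filter.Tendsto (fun j : ℕ => (1 / 8 : ℝ) * (1 / 2) ^ j / (1 - 1 / 2)) Filter.atTop
        (nhds 0) := by
      have := ((tendsto_pow_atTop_nhds_zero_of_lt_one (r := (1 / 2 : ℝ)) (by norm_num)
        (by norm_num)).const_mul (1 / 8)).div_const (1 - 1 / 2)
      simpa using this
    filter_upwards [h1.eventually (gt_mem_nhds hε)] with j hj z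
    rw [dist_comm]
    exact (dist_le_of_le_geometric_of_tendsto (1 / 2) (1 / 8) (by norm_num)
      (fun j => hc' j z) (hW' z) j).trans_lt hj
  have hder : ∀ z, HasFDerivAt W (W' z) z :=
    hasFDerivAt_of_tendstoUniformly hunif (fun j z => (hw j z).hasFDerivAt) hW
  have hWf : fderiv ℝ W = W' := funext fun z => (hder z).fderiv
  have hWc : Continuous W' := hunif.continuous
    (Filter.Eventually.of_forall fun j => ((h j).c1.continuous_fderiv (by norm_num))).frequently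
  have hW1 : ContDiff ℝ 1 W := by
    rw [contDiff_one_iff_fderiv]
    exact ⟨fun z => (hder z).differentiableAt, by rw [hWf]; exact hWc⟩
  have hstep : ∀ j n, Cls (fun z => w (j + n) z - w j z)
      ((1 / 2) ^ (j + 2) - (1 / 2) ^ (j + n + 2)) := by
    intro j n
    induction n with
    | zero =>
      have e1 : (fun z => w (j + 0) z - w j z) = fun _ => (0 : ℂ) := by
        funext z; simp
      rw [e1]
      refine ⟨contDiff_const, by simp, fun z => ?_⟩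
      have : fderiv ℝ (fun _ : ℂ => (0 : ℂ)) z = 0 := by simp
      rw [this]
      simp
    | succ n ih =>
      have := (hd (j + n)).add ih
      have e1 : (fun z => w (j + n + 1) z - w (j + n) z + (w (j + n) z - w j z))
          = fun z => w (j + (n + 1)) z - w j z := by
        funext z
        rw [show j + (n + 1) = j + n + 1 by ring]
        ring
      rw [e1] at this
      convert this using 1
      rw [show j + n + 3 = (j + n + 2) + 1 by ring, show j + (n + 1) + 2 = (j + n + 2) + 1 by ring,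
        pow_succ]
      ring
  refine ⟨W, ?_, hW, fun j => ?_⟩
  · exact cls_of_tendsto h hW1 (hW 0) (fun z => by rw [hWf]; exact hW' z)
  · refine cls_of_tendsto (v := fun n z => w (j + n) z - w j z) (fun n => (hstep j n).mono ?_)
      (hW1.sub (h j).c1) ?_ ?_
    · have : (0 : ℝ) ≤ (1 / 2) ^ (j + n + 2) := by positivity
      linarith
    · have h1 : Filter.Tendsto (fun n => w (j + n) 0) Filter.atTop (nhds (W 0)) := by
        have := (Filter.tendsto_add_atTop_iff_nat (f := fun n => w n 0) j).mpr (hW 0)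
        simpa [add_comm] using this
      exact h1.sub_const (w j 0)
    · intro z
      have e2 : fderiv ℝ (fun z => W z - w j z) z = fderiv ℝ W z - fderiv ℝ (w j) z :=
        fderiv_fun_sub (hder z).differentiableAt (hw j z)
      rw [e2, hWf]
      have h1 : Filter.Tendsto (fun n => fderiv ℝ (w (j + n)) z) Filter.atTop (nhds (W' z)) := by
        have := (Filter.tendsto_add_atTop_iff_nat (f := fun n => fderiv ℝ (w n) z) j).mpr (hW' z)
        simpa [add_comm] using this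
      have h2 := h1.sub_const (fderiv ℝ (w j) z)
      refine h2.congr fun n => ?_
      exact (fderiv_fun_sub (hw _ z) (hw _ z)).symm

end Pool.Agent.StatSurf
end
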