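import Pool.Agent.Lib.MP_fcf01e_gt.Base

section

/-! # Task P3: symmetry and measure of the cells -/

open Complex MeasureTheory

namespace Pool.Agent.StatSurf

theorem norm_om : ‖om‖ = 1 := by
  unfold om
  exact Complex.norm_exp_ofReal_mul_I _

theorem om_pow_three : om ^ 3 = -1 := by
  unfold om
  rw [← Complex.exp_nat_mul]
  have : ((3 : ℕ) : ℂ) * (((Real.pi / 3 : ℝ) : ℂ) * I) = Real.pi * I := by
    push_cast
    ring
  rw [this, Complex.exp_pi_mul_I]

private theorem norm_om_mul (z : ℂ) : ‖om * z‖ = ‖z‖ := by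
  rw [norm_mul, norm_om, one_mul]

private theorem om_mul_pow (z : ℂ) : (om * z) ^ 3 = - z ^ 3 := by
  rw [mul_pow, om_pow_three, neg_one_mul]

theorem sg_om (n : ℕ) (z : ℂ) : sg n (om * z) = - sg n z := by
  unfold sg
  rw [norm_om_mul, om_mul_pow, Complex.neg_im, Real.sign_neg, mul_neg]

theorem om_mem_Kset (m n : ℕ) (θ : ℝ) (z : ℂ) : om * z ∈ Kset m n θ ↔ z ∈ Kset m n θ := by
  unfold Kset
  simp only [Set.mem_ofPred_eq, norm_om_mul, om_mul_pow, Complex.neg_im, abs_neg]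

theorem om_mem_ring (m : ℕ) (z : ℂ) : om * z ∈ ring m ↔ z ∈ ring m := by
  unfold ring
  simp only [Set.mem_ofPred_eq, norm_om_mul]

private theorem measurable_sign : Measurable Real.sign := by
  have : Real.sign = fun r : ℝ => if r < 0 then (-1 : ℝ) else if 0 < r then 1 else 0 := by
    funext r
    rfl
  rw [this]
  refine Measurable.ite measurableSet_Iio measurable_const ?_
  exact Measurable.ite measurableSet_Ioi measurable_const measurable_const

theorem measurable_sg (n : ℕ) : Measurable (sg n) := by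
  unfold sg rs
  refine Measurable.mul ?_ ?_
  · have h1 : Measurable (fun k : ℕ => (-1 : ℝ) ^ k) := measurable_from_nat
    have h2 : Measurable (fun z : ℂ => ⌊(n : ℝ) * ‖z‖ + 1 / 2⌋₊) := by
      apply Measurable.nat_floor
      fun_prop
    exact h1.comp h2
  · apply measurable_sign.comp
    exact Complex.measurable_im.comp (measurable_id.pow_const 3)

private theorem abs_rs (n : ℕ) (r : ℝ) : |rs n r| = 1 := by
  unfold rs
  rw [abs_pow, abs_neg, abs_one, one_pow]

private theorem rs_eq (n : ℕ) (r : ℝ) : rs n r = 1 ∨ rs n r = -1 := by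
  unfold rs
  exact neg_one_pow_eq_or ℝ _

theorem abs_sg_le (n : ℕ) (z : ℂ) : |sg n z| ≤ 1 := by
  unfold sg
  rw [abs_mul, abs_rs, one_mul]
  rcases Real.sign_apply_eq (z ^ 3).im with h | h | h <;> rw [h] <;> norm_num

theorem abs_sg (n : ℕ) (z : ℂ) (h : sg n z ≠ 0) : sg n z = 1 ∨ sg n z = -1 := by
  unfold sg at h ⊢
  rcases Real.sign_apply_eq (z ^ 3).im with h' | h' | h' <;> rw [h'] at h ⊢ <;>
    rcases rs_eq n ‖z‖ with h'' | h'' <;> rw [h''] at h ⊢ <;> simp at h ⊢

theorem measurableSet_ring (m : ℕ) : MeasurableSet (ring m) := by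
  unfold ring
  exact (measurableSet_le measurable_const measurable_norm).inter
    (measurableSet_lt measurable_norm measurable_const)

theorem volume_ring (m : ℕ) : volume (ring m) = ENNReal.ofReal (Real.pi * (2 * m + 1)) := by
  have h : ring m = Metric.ball 0 ((m : ℝ) + 1) \ Metric.ball 0 (m : ℝ) := by
    ext z
    simp only [ring, Set.mem_ofPred_eq, Set.mem_sdiff, Metric.mem_ball, dist_zero_right, not_lt]
    tauto
  rw [h, measure_sdiff (Metric.ball_subset_ball (by linarith)) measurableSet_ball.nullMeasurableSet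
    (by exact measure_ball_lt_top.ne), Complex.volume_ball, Complex.volume_ball]
  rw [← ENNReal.ofReal_pow (by positivity), ← ENNReal.ofReal_pow (by positivity)]
  have hpi : ((NNReal.pi : NNReal) : ENNReal) = ENNReal.ofReal Real.pi := by
    rw [← NNReal.coe_real_pi, ENNReal.ofReal_coe_nnreal]
  rw [hpi, ← ENNReal.ofReal_mul (by positivity), ← ENNReal.ofReal_mul (by positivity),
    ← ENNReal.ofReal_sub _ (by positivity)]
  congr 1
  ring

private theorem null_line (a b : ℝ) (h : a ≠ 0 ∨ b ≠ 0) :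
    volume {z : ℂ | a * z.re + b * z.im = 0} = 0 := by
  have hL := Measure.addHaar_submodule (volume : Measure ℂ)
    (LinearMap.ker (a • Complex.reLm + b • Complex.imLm)) (by
      intro htop
      have h1 : (1 : ℂ) ∈ LinearMap.ker (a • Complex.reLm + b • Complex.imLm) := by
        rw [htop]; trivial
      have h2 : I ∈ LinearMap.ker (a • Complex.reLm + b • Complex.imLm) := by
        rw [htop]; trivial
      simp at h1 h2
      tauto)
  convert hL using 2
  ext z
  simp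

private theorem null_cubic : volume {z : ℂ | (z ^ 3).im = 0} = 0 := by
  have h1 := null_line 0 1 (by norm_num)
  have h2 := null_line (Real.sqrt 3) (-1) (by norm_num)
  have h3 := null_line (Real.sqrt 3) 1 (by norm_num)
  refine measure_mono_null ?_ (measure_union_null (measure_union_null h1 h2) h3)
  intro z hz
  have hz' : (z ^ 3).im = 0 := hz
  have key : (z ^ 3).im = z.im * (Real.sqrt 3 * z.re - z.im) * (Real.sqrt 3 * z.re + z.im) := by
    have h3 : Real.sqrt 3 * Real.sqrt 3 = 3 := Real.mul_self_sqrt (by norm_num)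
    have : (z ^ 3).im = 3 * z.re ^ 2 * z.im - z.im ^ 3 := by
      rw [show z ^ 3 = z * z * z by ring]
      simp only [Complex.mul_im, Complex.mul_re]
      ring
    rw [this]
    linear_combination (-(z.re ^ 2 * z.im)) * h3
  rw [key] at hz'
  rcases mul_eq_zero.mp hz' with h | h
  · rcases mul_eq_zero.mp h with h | h
    · left; left
      show 0 * z.re + 1 * z.im = 0
      rw [h]; ring
    · left; right
      show Real.sqrt 3 * z.re + -1 * z.im = 0
      linarith
  · right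
    show Real.sqrt 3 * z.re + 1 * z.im = 0
    linarith

private theorem null_sphere (r : ℝ) : volume {z : ℂ | ‖z‖ = r} = 0 := by
  have h := Measure.addHaar_sphere (volume : Measure ℂ) 0 r
  convert h using 2
  ext z
  simp

private theorem measurableSet_Kset (m n : ℕ) (θ : ℝ) : MeasurableSet (Kset m n θ) := by
  have h : Kset m n θ = {z : ℂ | (m : ℝ) + θ ≤ ‖z‖} ∩ ({z : ℂ | ‖z‖ ≤ m + 1 - θ} ∩
      ((⋂ j ∈ Finset.Icc 1 (n * (m + 1) + 1), {z : ℂ | θ ≤ |(n : ℝ) * ‖z‖ + 1 / 2 - (j : ℝ)|}) ∩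
      {z : ℂ | θ * ‖z‖ ^ 3 ≤ |(z ^ 3).im|})) := by
    ext z
    simp only [Kset, Set.mem_ofPred_eq, Set.mem_inter_iff, Set.mem_iInter]
  rw [h]
  refine MeasurableSet.inter (measurableSet_le measurable_const measurable_norm)
    (MeasurableSet.inter (measurableSet_le measurable_norm measurable_const)
    (MeasurableSet.inter ?_ ?_))
  · refine Finset.measurableSet_biInter _ fun j _ => ?_
    refine measurableSet_le measurable_const ?_
    exact ((by fun_prop : Continuous fun z : ℂ => |(n : ℝ) * ‖z‖ + 1 / 2 - (j : ℝ)|)).measurable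
  · refine measurableSet_le ?_ ?_
    · exact ((by fun_prop : Continuous fun z : ℂ => θ * ‖z‖ ^ 3)).measurable
    · exact ((Complex.continuous_im.comp (continuous_pow 3)).abs).measurable

private theorem Kset_mono (m n : ℕ) {θ θ' : ℝ} (h : θ ≤ θ') : Kset m n θ' ⊆ Kset m n θ := by
  rintro z ⟨h1, h2, h3, h4⟩
  refine ⟨by linarith, by linarith, fun j hj => h.trans (h3 j hj), le_trans ?_ h4⟩
  exact mul_le_mul_of_nonneg_right h (by positivity)

/-- The cells fill the ring up to a set of small measure: as `θ → 0` the sets `ring m \ Kset m n θ`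
decrease to a null set (finitely many circles and three lines). -/
theorem exists_theta (m n : ℕ) (hm : 1 ≤ m) (hn : 1 ≤ n) {η : ℝ} (hη : 0 < η) :
    ∃ θ : ℝ, 0 < θ ∧ θ ≤ 1 / 4 ∧ volume (ring m \ Kset m n θ) ≤ ENNReal.ofReal η := by
  set θ : ℕ → ℝ := fun k => 1 / ((k : ℝ) + 4) with hθ
  have hθ0 : ∀ k, 0 < θ k := fun k => by positivity
  have hθ4 : ∀ k, θ k ≤ 1 / 4 := fun k => by
    apply one_div_le_one_div_of_le (by norm_num)
    have : (0 : ℝ) ≤ k := Nat.cast_nonneg k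
    linarith
  have hanti : Antitone θ := fun i j hij => by
    apply one_div_le_one_div_of_le (by positivity)
    have : (i : ℝ) ≤ j := Nat.cast_le.mpr hij
    linarith
  have hlim : Filter.Tendsto θ Filter.atTop (nhds 0) := by
    have h1 : Filter.Tendsto (fun k : ℕ => (k : ℝ) + 4) Filter.atTop Filter.atTop :=
      Filter.tendsto_atTop_add_const_right _ _ tendsto_natCast_atTop_atTop
    simp only [hθ, one_div]
    exact h1.inv_tendsto_atTop
  have hev : ∀ c : ℝ, 0 < c → ∀ᶠ k in Filter.atTop, θ k < c := fun c hc =>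
    hlim.eventually_lt_const hc
  have hnull : volume (⋂ k, ring m \ Kset m n (θ k)) = 0 := by
    have hN : volume (({z : ℂ | ‖z‖ = m} ∪ (⋃ j ∈ Finset.Icc 1 (n * (m + 1) + 1),
        {z : ℂ | ‖z‖ = ((j : ℝ) - 1 / 2) / n})) ∪ {z : ℂ | (z ^ 3).im = 0}) = 0 := by
      refine measure_union_null (measure_union_null (null_sphere _) ?_) null_cubic
      refine (measure_biUnion_null_iff (Finset.countable_toSet _)).mpr fun j _ => null_sphere _
    refine measure_mono_null ?_ hN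
    intro z hz
    by_contra hzN
    simp only [Set.mem_union, Set.mem_ofPred_eq, Set.mem_iUnion, not_or, not_exists] at hzN
    obtain ⟨⟨h1, h2⟩, h3⟩ := hzN
    rw [Set.mem_iInter] at hz
    have hzr : z ∈ ring m := (hz 0).1
    have hlt1 : (m : ℝ) < ‖z‖ := lt_of_le_of_ne hzr.1 (fun h => h1 h.symm)
    have hlt2 : ‖z‖ < m + 1 := hzr.2
    have hn0 : (n : ℝ) ≠ 0 := by
      have : 0 < n := hn
      positivity
    have e1 := hev (‖z‖ - m) (by linarith)
    have e2 := hev (m + 1 - ‖z‖) (by linarith)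
    have e3 : ∀ᶠ k in Filter.atTop, ∀ j ∈ Finset.Icc 1 (n * (m + 1) + 1),
        θ k < |(n : ℝ) * ‖z‖ + 1 / 2 - (j : ℝ)| := by
      rw [Filter.eventually_all_finset]
      intro j hj
      apply hev
      apply abs_pos.mpr
      intro h
      apply h2 j hj
      field_simp
      linarith
    have hz0 : 0 < ‖z‖ := lt_of_le_of_lt (Nat.cast_nonneg m) hlt1
    have e4 := hev (|(z ^ 3).im| / ‖z‖ ^ 3) (by
      have := abs_pos.mpr h3
      positivity)
    obtain ⟨k, h1, h2, h3, h4⟩ := (e1.and (e2.and (e3.and e4))).exists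
    apply (hz k).2
    refine ⟨by linarith, by linarith, fun j hj => (h3 j hj).le, ?_⟩
    rw [lt_div_iff₀ (by positivity)] at h4
    exact h4.le
  have hmeas : Filter.Tendsto (fun k => volume (ring m \ Kset m n (θ k))) Filter.atTop (nhds 0) := by
    rw [← hnull]
    refine tendsto_measure_iInter_atTop
      (fun k => ((measurableSet_ring m).diff (measurableSet_Kset m n _)).nullMeasurableSet) ?_ ?_
    · intro i j hij
      exact Set.sdiff_subset_sdiff_right (Kset_mono m n (hanti hij))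
    · refine ⟨0, ne_of_lt (lt_of_le_of_lt (measure_mono Set.sdiff_subset) ?_)⟩
      rw [volume_ring]
      exact ENNReal.ofReal_lt_top
  have := hmeas.eventually_lt_const (ENNReal.ofReal_pos.mpr hη)
  obtain ⟨k, hk⟩ := this.exists
  exact ⟨θ k, hθ0 k, hθ4 k, hk.le⟩

end Pool.Agent.StatSurf
end

section

/-! # Task R2: the regularised Cauchy kernel -/

open Complex MeasureTheory

namespace Pool.Agent.StatSurf

private theorem R2.den_pos {a : ℝ} (ha : 0 < a) (ζ : ℂ) : 0 < ‖ζ‖ ^ 2 + a ^ 2 := by positivity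

private theorem R2.norm_Ka {a : ℝ} (ha : 0 < a) (ζ : ℂ) : ‖Ka a ζ‖ = ‖ζ‖ / (‖ζ‖ ^ 2 + a ^ 2) := by
  unfold Ka
  rw [norm_div, RCLike.norm_conj, Complex.norm_real, Real.norm_of_nonneg (R2.den_pos ha ζ).le]

theorem norm_Ka_le {a : ℝ} (ha : 0 < a) (ζ : ℂ) : ‖Ka a ζ‖ ≤ 1 / (2 * a) := by
  rw [R2.norm_Ka ha, div_le_div_iff₀ (R2.den_pos ha ζ) (by positivity)]
  nlinarith [sq_nonneg (‖ζ‖ - a)]

/-- `Ka a u - Ka a v = (a ^ 2 (\bar u - \bar v) + \bar u \bar v (v - u)) / (...)`, and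
`a ^ 2 + |u| |v| ≤ √(a ^ 2 + |u| ^ 2) √(a ^ 2 + |v| ^ 2)`. -/
theorem norm_Ka_sub_le {a : ℝ} (ha : 0 < a) (u v : ℂ) : ‖Ka a u - Ka a v‖ ≤ ‖u - v‖ / a ^ 2 := by
  have hu := R2.den_pos ha u
  have hv := R2.den_pos ha v
  have hu' : ((‖u‖ ^ 2 + a ^ 2 : ℝ) : ℂ) ≠ 0 := by exact_mod_cast hu.ne'
  have hv' : ((‖v‖ ^ 2 + a ^ 2 : ℝ) : ℂ) ≠ 0 := by exact_mod_cast hv.ne'
  have key : Ka a u - Ka a v = (((a ^ 2 : ℝ) : ℂ) * (starRingEnd ℂ) (u - v) -
      (starRingEnd ℂ) u * (starRingEnd ℂ) v * (u - v)) /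
      (((‖u‖ ^ 2 + a ^ 2 : ℝ) : ℂ) * ((‖v‖ ^ 2 + a ^ 2 : ℝ) : ℂ)) := by
    unfold Ka
    rw [div_sub_div _ _ hu' hv']
    congr 1
    have h1 : ((‖u‖ ^ 2 : ℝ) : ℂ) = (starRingEnd ℂ) u * u := by
      rw [mul_comm, Complex.mul_conj, Complex.normSq_eq_norm_sq]
    have h2 : ((‖v‖ ^ 2 : ℝ) : ℂ) = (starRingEnd ℂ) v * v := by
      rw [mul_comm, Complex.mul_conj, Complex.normSq_eq_norm_sq]
    rw [Complex.ofReal_add, Complex.ofReal_add, h1, h2, map_sub]
    ring
  rw [key, norm_div, norm_mul, Complex.norm_real, Complex.norm_real,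
    Real.norm_of_nonneg hu.le, Real.norm_of_nonneg hv.le,
    div_le_div_iff₀ (mul_pos hu hv) (by positivity)]
  have h3 : ‖((a ^ 2 : ℝ) : ℂ) * (starRingEnd ℂ) (u - v) -
      (starRingEnd ℂ) u * (starRingEnd ℂ) v * (u - v)‖ ≤ (a ^ 2 + ‖u‖ * ‖v‖) * ‖u - v‖ := by
    refine (norm_sub_le _ _).trans (le_of_eq ?_)
    rw [norm_mul, norm_mul, norm_mul, RCLike.norm_conj, RCLike.norm_conj, RCLike.norm_conj,
      Complex.norm_real, Real.norm_of_nonneg (by positivity : (0 : ℝ) ≤ a ^ 2)]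
    ring
  have h4 : (a ^ 2 + ‖u‖ * ‖v‖) * a ^ 2 ≤ (‖u‖ ^ 2 + a ^ 2) * (‖v‖ ^ 2 + a ^ 2) := by
    have h5 : ‖u‖ * ‖v‖ ≤ ‖u‖ ^ 2 + ‖v‖ ^ 2 := by
      nlinarith [sq_nonneg (‖u‖ - ‖v‖), sq_nonneg ‖u‖, sq_nonneg ‖v‖]
    have h6 : 0 ≤ ‖u‖ ^ 2 * ‖v‖ ^ 2 := by positivity
    have h7 : a ^ 2 * (‖u‖ * ‖v‖) ≤ a ^ 2 * (‖u‖ ^ 2 + ‖v‖ ^ 2) :=
      mul_le_mul_of_nonneg_left h5 (by positivity)
    nlinarith
  calc _ ≤ (a ^ 2 + ‖u‖ * ‖v‖) * ‖u - v‖ * a ^ 2 :=
        mul_le_mul_of_nonneg_right h3 (by positivity)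
    _ = ‖u - v‖ * ((a ^ 2 + ‖u‖ * ‖v‖) * a ^ 2) := by ring
    _ ≤ ‖u - v‖ * ((‖u‖ ^ 2 + a ^ 2) * (‖v‖ ^ 2 + a ^ 2)) :=
        mul_le_mul_of_nonneg_left h4 (norm_nonneg _)

theorem measurable_Ka (a : ℝ) : Measurable (Ka a) := by
  unfold Ka
  refine Measurable.div ?_ ?_
  · exact Complex.continuous_conj.measurable
  · exact Complex.measurable_ofReal.comp ((measurable_norm.pow_const 2).add_const _)

/-- `|1/ζ - Ka a ζ| = a ^ 2 / (|ζ| (|ζ| ^ 2 + a ^ 2))`. -/
theorem norm_inv_sub_Ka {a : ℝ} (ha : 0 < a) {ζ : ℂ} (hζ : ζ ≠ 0) :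
    ‖ζ⁻¹ - Ka a ζ‖ = a ^ 2 / (‖ζ‖ * (‖ζ‖ ^ 2 + a ^ 2)) := by
  have hu := R2.den_pos ha ζ
  have hu' : ((‖ζ‖ ^ 2 + a ^ 2 : ℝ) : ℂ) ≠ 0 := by exact_mod_cast hu.ne'
  have key : ζ⁻¹ - Ka a ζ = ((a ^ 2 : ℝ) : ℂ) / (ζ * ((‖ζ‖ ^ 2 + a ^ 2 : ℝ) : ℂ)) := by
    unfold Ka
    have h1 : ((‖ζ‖ ^ 2 : ℝ) : ℂ) = (starRingEnd ℂ) ζ * ζ := by
      rw [mul_comm, Complex.mul_conj, Complex.normSq_eq_norm_sq]
    rw [inv_eq_one_div, div_sub_div _ _ hζ hu']
    congr 1
    rw [Complex.ofReal_add, h1]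
    ring
  rw [key, norm_div, norm_mul, Complex.norm_real, Complex.norm_real,
    Real.norm_of_nonneg hu.le, Real.norm_of_nonneg (by positivity : (0 : ℝ) ≤ a ^ 2)]

private theorem R2.h_ae {a : ℝ} (ha : 0 < a) :
    (fun ζ : ℂ => ‖ζ⁻¹ - Ka a ζ‖) =ᵐ[volume]
      fun ζ : ℂ => (fun y : ℝ => a ^ 2 / (y * (y ^ 2 + a ^ 2))) ‖ζ‖ := by
  have h0 : ∀ᵐ ζ : ℂ ∂volume, ζ ≠ 0 := by
    rw [ae_iff]
    simp
  filter_upwards [h0] with ζ hζ
  exact norm_inv_sub_Ka ha hζ

private theorem R2.radial {a : ℝ} (ha : 0 < a) (y : ℝ) (hy : y ∈ Set.Ioi (0 : ℝ)) :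
    y ^ (Module.finrank ℝ ℂ - 1) • (a ^ 2 / (y * (y ^ 2 + a ^ 2))) = (1 + (a⁻¹ * y) ^ 2)⁻¹ := by
  have hy0 : y ≠ 0 := ne_of_gt hy
  have ha0 : a ≠ 0 := ha.ne'
  have h1 : y ^ 2 + a ^ 2 ≠ 0 := by positivity
  have h2 : (1 + (a⁻¹ * y) ^ 2) ≠ 0 := by positivity
  rw [Complex.finrank_real_complex]
  simp only [Nat.add_one_sub_one, pow_one, smul_eq_mul]
  field_simp
  ring

private theorem R2.integrable_h {a : ℝ} (ha : 0 < a) :
    Integrable (fun ζ : ℂ => ζ⁻¹ - Ka a ζ) := by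
  rw [← integrable_norm_iff]
  · rw [integrable_congr (R2.h_ae ha)]
    rw [integrable_fun_norm_addHaar (μ := (volume : Measure ℂ))
      (f := fun y : ℝ => a ^ 2 / (y * (y ^ 2 + a ^ 2)))]
    have h1 : Integrable (fun y : ℝ => (1 + (a⁻¹ * y) ^ 2)⁻¹) :=
      integrable_inv_one_add_sq.comp_mul_left' (inv_ne_zero ha.ne')
    exact h1.integrableOn.congr_fun (fun y hy => (R2.radial ha y hy).symm) measurableSet_Ioi
  · exact (measurable_inv.sub (measurable_Ka a)).aestronglyMeasurable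

private theorem R2.integral_h {a : ℝ} (ha : 0 < a) :
    ∫ ζ : ℂ, ‖ζ⁻¹ - Ka a ζ‖ ≤ 10 * a := by
  rw [integral_congr_ae (R2.h_ae ha)]
  rw [integral_fun_norm_addHaar (volume : Measure ℂ) (fun y : ℝ => a ^ 2 / (y * (y ^ 2 + a ^ 2)))]
  rw [setIntegral_congr_fun measurableSet_Ioi (fun y hy => R2.radial ha y hy)]
  rw [integral_comp_mul_left_Ioi (fun y => (1 + y ^ 2)⁻¹) 0 (inv_pos.mpr ha)]
  rw [mul_zero, integral_Ioi_inv_one_add_sq, Real.arctan_zero, sub_zero, inv_inv]
  have hvol : (volume : Measure ℂ).real (Metric.ball 0 1) = Real.pi := by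
    rw [Measure.real, Complex.volume_ball]
    simp
  rw [hvol, Complex.finrank_real_complex]
  simp only [smul_eq_mul, nsmul_eq_mul, Nat.cast_ofNat]
  have h1 := Real.pi_lt_d2
  have h2 := Real.pi_pos
  have h3 : Real.pi * Real.pi ≤ 10 := by nlinarith
  nlinarith

theorem integrable_Ka_sub {a : ℝ} (ha : 0 < a) (z : ℂ) :
    Integrable (fun ζ => (z - ζ)⁻¹ - Ka a (z - ζ)) :=
  (R2.integrable_h ha).comp_sub_left z

/-- `∫ |1/ζ - Ka a ζ| = 2 π ∫_0^∞ a ^ 2 / (r ^ 2 + a ^ 2) dr = π ^ 2 a` (polar coordinates). -/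
theorem integral_Ka_sub_le {a : ℝ} (ha : 0 < a) (z : ℂ) :
    ∫ ζ, ‖(z - ζ)⁻¹ - Ka a (z - ζ)‖ ≤ 10 * a := by
  rw [integral_sub_left_eq_self (fun ζ : ℂ => ‖ζ⁻¹ - Ka a ζ‖) volume z]
  exact R2.integral_h ha

end Pool.Agent.StatSurf
end

section

/-! # Task R5: integrability of the kernels -/

open Complex MeasureTheory

namespace Pool.Agent.StatSurf

theorem integrableOn_norm_inv_zero (R : ℝ) :
    IntegrableOn (fun ζ : ℂ => ‖ζ‖⁻¹) (Metric.ball 0 R) := by
  rw [integrableOn_fun_norm_addHaar (volume : Measure ℂ) (f := fun r : ℝ => r⁻¹)]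
  rw [Complex.finrank_real_complex]
  have h : IntegrableOn (fun _ : ℝ => (1 : ℝ)) (Set.Ioo 0 R) :=
    integrableOn_const (by simp) (by simp)
  refine h.congr_fun ?_ measurableSet_Ioo
  intro y hy
  have : y ≠ 0 := ne_of_gt hy.1
  simp [this]

theorem integral_norm_inv_zero {R : ℝ} (hR : 0 ≤ R) :
    ∫ ζ : ℂ in Metric.ball 0 R, ‖ζ‖⁻¹ = 2 * Real.pi * R := by
  have h1 : ∫ ζ : ℂ in Metric.ball 0 R, ‖ζ‖⁻¹ =
      ∫ ζ : ℂ, (Set.Iio R).indicator (fun r : ℝ => r⁻¹) ‖ζ‖ := by
    rw [← integral_indicator Metric.isOpen_ball.measurableSet]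
    congr 1
    funext ζ
    simp [Set.indicator]
  rw [h1, integral_fun_norm_addHaar]
  rw [Complex.finrank_real_complex]
  have h2 : ∫ y in Set.Ioi (0 : ℝ), y ^ (2 - 1) • (Set.Iio R).indicator (fun r : ℝ => r⁻¹) y =
      ∫ y in Set.Ioi (0 : ℝ), (Set.Iio R).indicator (fun _ : ℝ => (1 : ℝ)) y := by
    apply setIntegral_congr_fun measurableSet_Ioi
    intro y hy
    have : y ≠ 0 := ne_of_gt hy
    by_cases hyR : y < R <;> simp [hyR, this]
  rw [h2]
  rw [setIntegral_indicator measurableSet_Iio, Set.Ioi_inter_Iio]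
  simp only [integral_const, MeasurableSet.univ, measureReal_restrict_apply, Set.univ_inter,
    smul_eq_mul, mul_one, nsmul_eq_mul]
  rw [measureReal_def, Complex.volume_ball, Real.volume_real_Ioo_of_le hR]
  simp
  ring

theorem integrableOn_norm_inv (z : ℂ) (R : ℝ) :
    IntegrableOn (fun ζ => ‖(z - ζ)⁻¹‖) (Metric.ball z R) := by
  have h := (Measure.measurePreserving_sub_left (volume : Measure ℂ) z)
  have h2 := (h.integrableOn_comp_preimage (MeasurableEquiv.subLeft z).measurableEmbedding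
    (f := fun ζ : ℂ => ‖ζ‖⁻¹) (s := Metric.ball 0 R)).2 (integrableOn_norm_inv_zero R)
  have h3 : (fun ζ : ℂ => z - ζ) ⁻¹' (Metric.ball 0 R) = Metric.ball z R := by
    ext ζ
    simp [dist_eq_norm, norm_sub_rev]
  rw [h3] at h2
  simpa [Function.comp_def] using h2

theorem integral_norm_inv (z : ℂ) {R : ℝ} (hR : 0 ≤ R) :
    ∫ ζ in Metric.ball z R, ‖(z - ζ)⁻¹‖ = 2 * Real.pi * R := by
  have h := (Measure.measurePreserving_sub_left (volume : Measure ℂ) z)
  have h2 := h.setIntegral_preimage_emb (MeasurableEquiv.subLeft z).measurableEmbedding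
    (fun ζ : ℂ => ‖ζ‖⁻¹) (Metric.ball 0 R)
  have h3 : (fun ζ : ℂ => z - ζ) ⁻¹' (Metric.ball 0 R) = Metric.ball z R := by
    ext ζ
    simp [dist_eq_norm, norm_sub_rev]
  rw [h3, integral_norm_inv_zero hR] at h2
  simpa using h2

theorem ball_subset_ball_R5 (z : ℂ) (R : ℝ) : Metric.ball (0 : ℂ) R ⊆ Metric.ball z (R + ‖z‖) := by
  apply Metric.ball_subset_ball'
  rw [dist_eq_norm, zero_sub, norm_neg]

/-- The Cauchy kernel is integrable on bounded sets. -/
theorem integrableOn_inv (z : ℂ) (R : ℝ) :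
    IntegrableOn (fun ζ => (z - ζ)⁻¹) (Metric.ball 0 R) := by
  have h := (integrableOn_norm_inv z (R + ‖z‖)).mono_set (ball_subset_ball_R5 z R)
  refine (integrable_norm_iff ?_).1 h
  exact (by fun_prop : Measurable fun ζ : ℂ => (z - ζ)⁻¹).aestronglyMeasurable

theorem abs_log_le_R5 (r : ℝ) (hr : 0 ≤ r) : |Real.log r| ≤ r⁻¹ + r := by
  rcases hr.eq_or_lt with h | h
  · subst h
    simp
  · have h1 : Real.log r ≤ r - 1 := Real.log_le_sub_one_of_pos h
    have h2 : Real.log r⁻¹ ≤ r⁻¹ - 1 := Real.log_le_sub_one_of_pos (inv_pos.2 h)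
    rw [Real.log_inv] at h2
    have h3 : 0 < r⁻¹ := inv_pos.2 h
    rw [abs_le]
    constructor <;> linarith

/-- The logarithmic kernel is integrable on bounded sets. -/
theorem integrableOn_log (z : ℂ) (R : ℝ) :
    IntegrableOn (fun ζ => Real.log ‖z - ζ‖) (Metric.ball 0 R) := by
  have h := (integrableOn_norm_inv z (R + ‖z‖)).mono_set (ball_subset_ball_R5 z R)
  have hc : IntegrableOn (fun _ : ℂ => (R + ‖z‖ : ℝ)) (Metric.ball 0 R) :=
    integrableOn_const measure_ball_lt_top.ne (by simp)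
  have hs : Integrable (fun ζ : ℂ => ‖(z - ζ)⁻¹‖ + (R + ‖z‖))
    (volume.restrict (Metric.ball 0 R)) := h.add hc
  refine hs.mono' ?_ ?_
  · exact (by fun_prop : Measurable fun ζ : ℂ => Real.log ‖z - ζ‖).aestronglyMeasurable
  · rw [ae_restrict_iff' Metric.isOpen_ball.measurableSet]
    refine Filter.Eventually.of_forall fun ζ hζ => ?_
    rw [Real.norm_eq_abs]
    refine (abs_log_le_R5 _ (norm_nonneg _)).trans ?_
    rw [norm_inv]
    have h4 : ‖z - ζ‖ ≤ R + ‖z‖ := by
      have := ball_subset_ball_R5 z R hζ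
      rw [Metric.mem_ball, dist_eq_norm, norm_sub_rev] at this
      exact this.le
    linarith

theorem ring_zero_R5 : ring 0 = Metric.ball (0 : ℂ) 1 := by
  ext z
  simp [ring]

/-- Use `∫_(|ζ| < 1) 1 / |z - ζ| ≤ ∫_(|v| < 1 + |z|) 1 / |v| = 2 π (1 + |z|)` for `|z| ≤ 2` and
`|z - ζ| ≥ |z| / 2` for `|z| > 2`. -/
theorem integral_inv_le (z : ℂ) : ∫ ζ in ring 0, ‖(z - ζ)⁻¹‖ ≤ 60 / (1 + ‖z‖) := by
  rw [ring_zero_R5]
  have hpi := Real.pi_lt_d2
  have hpi0 := Real.pi_pos
  have hz0 := norm_nonneg z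
  by_cases hz : ‖z‖ ≤ 2
  · have h1 : ∫ ζ in Metric.ball (0 : ℂ) 1, ‖(z - ζ)⁻¹‖ ≤
        ∫ ζ in Metric.ball z (1 + ‖z‖), ‖(z - ζ)⁻¹‖ := by
      apply setIntegral_mono_set (integrableOn_norm_inv z _)
      · exact Filter.Eventually.of_forall fun _ => norm_nonneg _
      · exact (ball_subset_ball_R5 z 1).eventuallyLE
    rw [integral_norm_inv z (by positivity)] at h1
    refine h1.trans ?_
    rw [le_div_iff₀ (by positivity)]
    have h2 : (1 + ‖z‖) ^ 2 ≤ 9 := by nlinarith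
    nlinarith
  · push Not at hz
    have h1 : ∫ ζ in Metric.ball (0 : ℂ) 1, ‖(z - ζ)⁻¹‖ ≤
        ∫ ζ in Metric.ball (0 : ℂ) 1, 2 / ‖z‖ := by
      apply setIntegral_mono_on ((integrableOn_inv z 1).norm) _ Metric.isOpen_ball.measurableSet
      · intro ζ hζ
        rw [mem_ball_zero_iff] at hζ
        have h3 : ‖z‖ / 2 ≤ ‖z - ζ‖ := by
          have := norm_sub_norm_le z ζ
          linarith
        rw [norm_inv]
        calc ‖z - ζ‖⁻¹ ≤ (‖z‖ / 2)⁻¹ := by
              apply inv_anti₀ (by linarith) h3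
          _ = 2 / ‖z‖ := by rw [inv_div]
      · exact integrableOn_const measure_ball_lt_top.ne (by simp)
    refine h1.trans ?_
    rw [setIntegral_const, measureReal_def, Complex.volume_ball]
    simp only [ENNReal.ofReal_one, one_pow, one_mul, ENNReal.coe_toReal, NNReal.coe_real_pi,
      smul_eq_mul]
    rw [← mul_div_assoc, div_le_div_iff₀ (by linarith) (by positivity)]
    nlinarith

/-- `∫_(|ζ| < 1) |log |ζ|| = π / 2`. -/
theorem integral_log_le : ∫ ζ in ring 0, ‖Real.log ‖ζ‖‖ ≤ 2 := by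
  rw [ring_zero_R5]
  have h1 : ∫ ζ : ℂ in Metric.ball 0 1, ‖Real.log ‖ζ‖‖ =
      ∫ ζ : ℂ, (Set.Iio 1).indicator (fun r : ℝ => ‖Real.log r‖) ‖ζ‖ := by
    rw [← integral_indicator Metric.isOpen_ball.measurableSet]
    congr 1
    funext ζ
    simp [Set.indicator]
  rw [h1, integral_fun_norm_addHaar]
  rw [Complex.finrank_real_complex]
  have h2 : ∫ y in Set.Ioi (0 : ℝ), y ^ (2 - 1) • (Set.Iio (1 : ℝ)).indicator
      (fun r : ℝ => ‖Real.log r‖) y =
      ∫ y in Set.Ioi (0 : ℝ), (Set.Iio (1 : ℝ)).indicator (fun r : ℝ => - (r * Real.log r)) y := by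
    apply setIntegral_congr_fun measurableSet_Ioi
    intro y hy
    by_cases hyR : y < 1
    · have := Real.log_nonpos (le_of_lt hy) hyR.le
      simp [hyR, abs_of_nonpos this]
    · simp [hyR]
  rw [h2]
  rw [setIntegral_indicator measurableSet_Iio, Set.Ioi_inter_Iio]
  have h3 : ∫ y in Set.Ioo (0 : ℝ) 1, - (y * Real.log y) = 1 / 4 := by
    rw [← integral_Ioc_eq_integral_Ioo, ← intervalIntegral.integral_of_le zero_le_one]
    have := intervalIntegral.integral_eq_sub_of_hasDerivAt_of_le (a := 0) (b := 1)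
      (f := fun y : ℝ => y ^ 2 / 4 - y * (y * Real.log y) / 2)
      (f' := fun y : ℝ => - (y * Real.log y)) zero_le_one ?_ ?_ ?_
    · rw [this]
      simp
    · apply Continuous.continuousOn
      have := Real.continuous_mul_log
      fun_prop
    · intro y hy
      have hy0 : y ≠ 0 := ne_of_gt hy.1
      have e1 := ((hasDerivAt_pow 2 y).div_const 4).sub
        (((hasDerivAt_id y).mul ((hasDerivAt_id y).mul (Real.hasDerivAt_log hy0))).div_const 2)
      refine HasDerivAt.congr_deriv e1 ?_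
      simp only [id, Pi.mul_apply]
      field_simp
      ring
    · apply Continuous.intervalIntegrable
      exact Real.continuous_mul_log.neg
  rw [h3]
  rw [measureReal_def, Complex.volume_ball]
  have hpi := Real.pi_lt_d2
  simp only [ENNReal.ofReal_one, one_pow, one_mul, ENNReal.coe_toReal, NNReal.coe_real_pi,
      smul_eq_mul, nsmul_eq_mul]
  norm_num
  linarith

end Pool.Agent.StatSurf
end

section

/-! # Task R1: cancellation of the oscillating pattern -/

open Complex MeasureTheory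

namespace Pool.Agent.StatSurf

theorem rs_shift (n : ℕ) (hn : 1 ≤ n) {r : ℝ} (hr : 0 ≤ r) : rs n (r + 1 / n) = - rs n r := by
  have hn' : (n : ℝ) ≠ 0 := by
    have : (1 : ℝ) ≤ n := by exact_mod_cast hn
    linarith
  have h1 : (n : ℝ) * (r + 1 / n) + 1 / 2 = ((n : ℝ) * r + 1 / 2) + 1 := by
    field_simp
    ring
  have h2 : (0 : ℝ) ≤ (n : ℝ) * r + 1 / 2 := by positivity
  unfold rs
  rw [h1, Nat.floor_add_one h2, pow_succ]
  ring

private theorem R1_abs_rs (n : ℕ) (r : ℝ) : |rs n r| = 1 := by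
  unfold rs
  rw [abs_pow]
  simp

private theorem R1_norm_rs (n : ℕ) (r : ℝ) : ‖((rs n r : ℝ) : ℂ)‖ = 1 := by
  rw [Complex.norm_real, Real.norm_eq_abs, R1_abs_rs]

private theorem R1_measurable_rs (n : ℕ) : Measurable (rs n) := by
  unfold rs
  have h1 : Measurable (fun r : ℝ => ⌊(n : ℝ) * r + 1 / 2⌋₊) :=
    Nat.measurable_floor.comp ((measurable_const.mul measurable_id).add measurable_const)
  have h2 : Measurable (fun k : ℕ => ((-1 : ℝ)) ^ k) := measurable_from_nat
  exact h2.comp h1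

private theorem R1_intInt (n : ℕ) (φ : ℝ → ℂ) (a b : ℝ) (hab : a ≤ b) (hφ : ContinuousOn φ (Set.Icc a b)) :
    IntervalIntegrable (fun r => (rs n r : ℂ) * φ r) volume a b := by
  rw [intervalIntegrable_iff_integrableOn_Icc_of_le hab]
  have h1 : IntegrableOn φ (Set.Icc a b) := hφ.integrableOn_Icc
  refine Integrable.bdd_mul (c := 1) h1 ?_ ?_
  · exact (Complex.measurable_ofReal.comp (R1_measurable_rs n)).aestronglyMeasurable
  · exact Filter.Eventually.of_forall fun x => by rw [R1_norm_rs]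

/-- One-dimensional cancellation, by shifting by `1 / n`. -/
theorem radial_osc (m n : ℕ) (hn : 2 ≤ n) (φ : ℝ → ℂ) (M : ℝ)
    (hb : ∀ r : ℝ, (m : ℝ) ≤ r → r ≤ m + 1 → ‖φ r‖ ≤ M)
    (hL : ∀ r r' : ℝ, (m : ℝ) ≤ r → r ≤ m + 1 → (m : ℝ) ≤ r' → r' ≤ m + 1 →
      ‖φ r - φ r'‖ ≤ M * |r - r'|) :
    ‖∫ r in (m : ℝ)..(m + 1), (rs n r : ℂ) * φ r‖ ≤ 2 * M / n := by
  have hn0 : (2 : ℝ) ≤ n := by exact_mod_cast hn
  have hM : 0 ≤ M := (norm_nonneg _).trans (hb m le_rfl (by linarith))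
  have hm0 : (0 : ℝ) ≤ m := Nat.cast_nonneg m
  set h : ℝ := 1 / n with hh
  have hpos : 0 < h := by rw [hh]; positivity
  have hle : h ≤ 1 / 2 := by
    rw [hh]
    exact one_div_le_one_div_of_le (by norm_num) hn0
  have hcont : ContinuousOn φ (Set.Icc (m : ℝ) (m + 1)) := by
    have : LipschitzOnWith (Real.toNNReal M) φ (Set.Icc (m : ℝ) (m + 1)) := by
      refine LipschitzOnWith.of_dist_le_mul ?_
      intro x hx y hy
      rw [dist_eq_norm, Real.dist_eq, Real.coe_toNNReal M hM]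
      exact hL x y hx.1 hx.2 hy.1 hy.2
    exact this.continuousOn
  have hI1 : IntervalIntegrable (fun r => (rs n r : ℂ) * φ r) volume m (m + h) :=
    R1_intInt n φ _ _ (by linarith) (hcont.mono (Set.Icc_subset_Icc le_rfl (by linarith)))
  have hI2 : IntervalIntegrable (fun r => (rs n r : ℂ) * φ r) volume (m + h) (m + 1) :=
    R1_intInt n φ _ _ (by linarith) (hcont.mono (Set.Icc_subset_Icc (by linarith) (by linarith)))
  have hI3 : IntervalIntegrable (fun r => (rs n r : ℂ) * φ r) volume m (m + 1 - h) :=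
    R1_intInt n φ _ _ (by linarith) (hcont.mono (Set.Icc_subset_Icc le_rfl (by linarith)))
  have hI4 : IntervalIntegrable (fun r => (rs n r : ℂ) * φ r) volume (m + 1 - h) (m + 1) :=
    R1_intInt n φ _ _ (by linarith) (hcont.mono (Set.Icc_subset_Icc (by linarith) le_rfl))
  have hcont5 : ContinuousOn (fun r => φ (r + h)) (Set.Icc (m : ℝ) (m + 1 - h)) := by
    refine hcont.comp (continuous_id.add continuous_const).continuousOn ?_
    intro x hx
    exact ⟨by simp only [id_eq]; linarith [hx.1], by simp only [id_eq]; linarith [hx.2]⟩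
  have hI5 : IntervalIntegrable (fun r => (rs n r : ℂ) * φ (r + h)) volume m (m + 1 - h) :=
    R1_intInt n (fun r => φ (r + h)) _ _ (by linarith) hcont5
  have e1 : (∫ r in (m : ℝ)..(m + 1), (rs n r : ℂ) * φ r) =
      (∫ r in (m : ℝ)..(m + h), (rs n r : ℂ) * φ r) +
        ∫ r in (m + h : ℝ)..(m + 1), (rs n r : ℂ) * φ r :=
    (intervalIntegral.integral_add_adjacent_intervals hI1 hI2).symm
  have e2 : (∫ r in (m : ℝ)..(m + 1), (rs n r : ℂ) * φ r) =
      (∫ r in (m : ℝ)..(m + 1 - h), (rs n r : ℂ) * φ r) +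
        ∫ r in (m + 1 - h : ℝ)..(m + 1), (rs n r : ℂ) * φ r :=
    (intervalIntegral.integral_add_adjacent_intervals hI3 hI4).symm
  have e3 : (∫ r in (m + h : ℝ)..(m + 1), (rs n r : ℂ) * φ r) =
      - ∫ r in (m : ℝ)..(m + 1 - h), (rs n r : ℂ) * φ (r + h) := by
    have s1 : (∫ r in (m : ℝ)..(m + 1 - h), (fun x => (rs n x : ℂ) * φ x) (r + h)) =
        ∫ r in (m + h : ℝ)..(m + 1 - h + h), (rs n r : ℂ) * φ r :=
      intervalIntegral.integral_comp_add_right (fun x => (rs n x : ℂ) * φ x) h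
    have s2 : (m : ℝ) + 1 - h + h = m + 1 := by ring
    rw [s2] at s1
    rw [← s1, ← intervalIntegral.integral_neg]
    refine intervalIntegral.integral_congr ?_
    intro r hr
    rw [Set.uIcc_of_le (by linarith)] at hr
    have hr0 : 0 ≤ r := hm0.trans hr.1
    simp only []
    rw [hh, rs_shift n (by omega) hr0]
    push_cast
    ring
  have e4 : (2 : ℂ) * (∫ r in (m : ℝ)..(m + 1), (rs n r : ℂ) * φ r) =
      (∫ r in (m : ℝ)..(m + h), (rs n r : ℂ) * φ r) +
      (∫ r in (m + 1 - h : ℝ)..(m + 1), (rs n r : ℂ) * φ r) +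
      ∫ r in (m : ℝ)..(m + 1 - h), ((rs n r : ℂ) * φ r - (rs n r : ℂ) * φ (r + h)) := by
    rw [intervalIntegral.integral_sub hI3 hI5]
    have : (2 : ℂ) * (∫ r in (m : ℝ)..(m + 1), (rs n r : ℂ) * φ r) =
      (∫ r in (m : ℝ)..(m + 1), (rs n r : ℂ) * φ r) +
        (∫ r in (m : ℝ)..(m + 1), (rs n r : ℂ) * φ r) := by ring
    rw [this]
    nth_rewrite 1 [e1]
    rw [e2, e3]
    ring
  have b1 : ‖∫ r in (m : ℝ)..(m + h), (rs n r : ℂ) * φ r‖ ≤ M * h := by
    have := intervalIntegral.norm_integral_le_of_norm_le_const (a := (m : ℝ)) (b := m + h)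
      (f := fun r => (rs n r : ℂ) * φ r) (C := M) ?_
    · rwa [add_sub_cancel_left, abs_of_pos hpos] at this
    · intro x hx
      rw [Set.uIoc_of_le (by linarith)] at hx
      rw [norm_mul, R1_norm_rs, one_mul]
      exact hb x hx.1.le (by linarith [hx.2])
  have b2 : ‖∫ r in (m + 1 - h : ℝ)..(m + 1), (rs n r : ℂ) * φ r‖ ≤ M * h := by
    have := intervalIntegral.norm_integral_le_of_norm_le_const (a := (m + 1 - h : ℝ)) (b := m + 1)
      (f := fun r => (rs n r : ℂ) * φ r) (C := M) ?_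
    · rwa [show (m : ℝ) + 1 - (m + 1 - h) = h by ring, abs_of_pos hpos] at this
    · intro x hx
      rw [Set.uIoc_of_le (by linarith)] at hx
      rw [norm_mul, R1_norm_rs, one_mul]
      exact hb x (by linarith [hx.1]) hx.2
  have b3 : ‖∫ r in (m : ℝ)..(m + 1 - h), ((rs n r : ℂ) * φ r - (rs n r : ℂ) * φ (r + h))‖ ≤
      M * h := by
    have := intervalIntegral.norm_integral_le_of_norm_le_const (a := (m : ℝ)) (b := m + 1 - h)
      (f := fun r => (rs n r : ℂ) * φ r - (rs n r : ℂ) * φ (r + h)) (C := M * h) ?_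
    · refine this.trans ?_
      rw [show (m : ℝ) + 1 - h - m = 1 - h by ring, abs_of_pos (by linarith)]
      nlinarith [mul_nonneg hM hpos.le]
    · intro x hx
      rw [Set.uIoc_of_le (by linarith)] at hx
      rw [← mul_sub, norm_mul, R1_norm_rs, one_mul]
      have := hL x (x + h) hx.1.le (by linarith [hx.2]) (by linarith [hx.1]) (by linarith [hx.2])
      rwa [show x - (x + h) = -h by ring, abs_neg, abs_of_pos hpos] at this
  have b4 : 2 * ‖∫ r in (m : ℝ)..(m + 1), (rs n r : ℂ) * φ r‖ ≤ 3 * (M * h) := by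
    have : ‖(2 : ℂ) * (∫ r in (m : ℝ)..(m + 1), (rs n r : ℂ) * φ r)‖ =
        2 * ‖∫ r in (m : ℝ)..(m + 1), (rs n r : ℂ) * φ r‖ := by
      rw [norm_mul]; norm_num
    rw [← this, e4]
    refine (norm_add₃_le).trans ?_
    linarith
  have : 2 * M / n = 2 * (M * h) := by rw [hh]; ring
  rw [this]
  nlinarith [mul_nonneg hM hpos.le]

private theorem R1_sign_mul {a b : ℝ} (ha : 0 < a) : Real.sign (a * b) = Real.sign b := by
  rcases lt_trichotomy b 0 with h | h | h
  · rw [Real.sign_of_neg h, Real.sign_of_neg (mul_neg_of_pos_of_neg ha h)]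
  · rw [h, mul_zero]
  · rw [Real.sign_of_pos h, Real.sign_of_pos (mul_pos ha h)]

private theorem R1_abs_sign (b : ℝ) : |Real.sign b| ≤ 1 := by
  rcases Real.sign_apply_eq b with h | h | h <;> rw [h] <;> norm_num

/-- Two-dimensional cancellation, in polar coordinates. -/
theorem ring_osc (m n : ℕ) (hm : 1 ≤ m) (hn : 2 ≤ n) (F : ℂ → ℂ) (hF : Measurable F) (M : ℝ)
    (h : RadLip m F M) :
    ‖∫ z in ring m, (sg n z : ℂ) * F z‖ ≤ 40 * (m + 1) * M / n := by
  have hn0 : (2 : ℝ) ≤ n := by exact_mod_cast hn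
  have hm1 : (1 : ℝ) ≤ m := by exact_mod_cast hm
  have hM : 0 ≤ M := by
    refine (norm_nonneg _).trans (h.bound (m : ℂ) ?_ ?_)
    · simp
    · simp
  -- polar coordinates
  set G : ℂ → ℂ := fun z => (sg n z : ℂ) * F z with hG
  have hGm : Measurable G := (Complex.measurable_ofReal.comp (measurable_sg n)).mul hF
  have hGb : ∀ z ∈ ring m, ‖G z‖ ≤ M := by
    intro z hz
    rw [hG]
    simp only []
    rw [norm_mul, Complex.norm_real, Real.norm_eq_abs]
    have h1 := abs_sg_le n z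
    have h2 := h.bound z hz.1 hz.2.le
    have := mul_le_mul h1 h2 (norm_nonneg _) zero_le_one
    simpa using this
  have hsymm : ∀ p : ℝ × ℝ, 0 < p.1 → ‖Complex.polarCoord.symm p‖ = p.1 := by
    intro p hp
    rw [Complex.norm_polarCoord_symm, abs_of_pos hp]
  have e1 : (∫ z in ring m, G z) =
      ∫ p in polarCoord.target, p.1 • (ring m).indicator G (Complex.polarCoord.symm p) := by
    rw [Complex.integral_comp_polarCoord_symm, integral_indicator (measurableSet_ring m)]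
  have e2 : (∫ p in polarCoord.target, p.1 • (ring m).indicator G (Complex.polarCoord.symm p)) =
      ∫ p in (Set.Ico (m : ℝ) (m + 1)) ×ˢ (Set.Ioo (-Real.pi) Real.pi),
        p.1 • G (Complex.polarCoord.symm p) := by
    have hms : MeasurableSet ((Set.Ico (m : ℝ) (m + 1)) ×ˢ (Set.Ioo (-Real.pi) Real.pi)) :=
      measurableSet_Ico.prod measurableSet_Ioo
    rw [← integral_indicator hms, ← integral_indicator (polarCoord.open_target.measurableSet)]
    congr 1
    funext p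
    by_cases hp : p ∈ polarCoord.target
    · rw [Set.indicator_of_mem hp]
      have hp1 : 0 < p.1 := by
        rw [polarCoord_target] at hp
        exact hp.1
      have hp2 : p.2 ∈ Set.Ioo (-Real.pi) Real.pi := by
        rw [polarCoord_target] at hp
        exact hp.2
      by_cases hq : p.1 ∈ Set.Ico (m : ℝ) (m + 1)
      · rw [Set.indicator_of_mem (show p ∈ (Set.Ico (m : ℝ) (m + 1)) ×ˢ (Set.Ioo (-Real.pi) Real.pi)
          from ⟨hq, hp2⟩), Set.indicator_of_mem]
        show (m : ℝ) ≤ ‖_‖ ∧ ‖_‖ < _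
        rw [hsymm p hp1]
        exact hq
      · rw [Set.indicator_of_notMem (show p ∉ (Set.Ico (m : ℝ) (m + 1)) ×ˢ
          (Set.Ioo (-Real.pi) Real.pi) from fun hh => hq hh.1), Set.indicator_of_notMem, smul_zero]
        intro hh
        apply hq
        have : (m : ℝ) ≤ ‖Complex.polarCoord.symm p‖ ∧ ‖Complex.polarCoord.symm p‖ < m + 1 := hh
        rwa [hsymm p hp1] at this
    · rw [Set.indicator_of_notMem hp, Set.indicator_of_notMem]
      intro hh
      apply hp
      rw [polarCoord_target]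
      exact ⟨by
        have : (m : ℝ) ≤ p.1 := hh.1.1
        exact lt_of_lt_of_le (by linarith) this, hh.2⟩
  have hpi := Real.pi_pos
  have hIon : IntegrableOn (fun p : ℝ × ℝ => p.1 • G (Complex.polarCoord.symm p))
      ((Set.Ico (m : ℝ) (m + 1)) ×ˢ (Set.Ioo (-Real.pi) Real.pi)) := by
    refine Measure.integrableOn_of_bounded (M := (m + 1) * M) ?_ ?_ ?_
    · rw [Measure.volume_eq_prod, Measure.prod_prod, Real.volume_Ico, Real.volume_Ioo]
      exact ENNReal.mul_ne_top ENNReal.ofReal_ne_top ENNReal.ofReal_ne_top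
    · refine Measurable.aestronglyMeasurable ?_
      refine measurable_fst.smul (hGm.comp ?_)
      exact (Complex.measurableEquivRealProd.symm.measurable.comp
        continuous_polarCoord_symm.measurable)
    · refine (ae_restrict_iff' (measurableSet_Ico.prod measurableSet_Ioo)).mpr
        (Filter.Eventually.of_forall ?_)
      intro p hp
      have hp1 : 0 < p.1 := lt_of_lt_of_le (by linarith) hp.1.1
      rw [norm_smul, Real.norm_eq_abs, abs_of_pos hp1]
      have hb := hGb (Complex.polarCoord.symm p) (by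
        show (m : ℝ) ≤ ‖_‖ ∧ ‖_‖ < _
        rw [hsymm p hp1]
        exact hp.1)
      exact mul_le_mul hp.1.2.le hb (norm_nonneg _) (by linarith)
  have e3 : (∫ p in (Set.Ico (m : ℝ) (m + 1)) ×ˢ (Set.Ioo (-Real.pi) Real.pi),
        p.1 • G (Complex.polarCoord.symm p)) =
      ∫ θ in Set.Ioo (-Real.pi) Real.pi, ∫ r in Set.Ico (m : ℝ) (m + 1),
        r • G (Complex.polarCoord.symm (r, θ)) := by
    rw [Measure.volume_eq_prod] at hIon ⊢
    rw [← setIntegral_prod_swap, setIntegral_prod]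
    · rfl
    · exact hIon.swap
  rw [e1, e2, e3]
  have hin : ∀ θ ∈ Set.Ioo (-Real.pi) Real.pi, ‖∫ r in Set.Ico (m : ℝ) (m + 1),
      r • G (Complex.polarCoord.symm (r, θ))‖ ≤ 2 * ((m + 2) * M) / n := by
    intro θ _
    set u : ℂ := (Real.cos θ : ℂ) + (Real.sin θ : ℂ) * I with hu
    have hu1 : ‖u‖ = 1 := by
      rw [hu, Complex.ofReal_cos, Complex.ofReal_sin]
      exact Complex.norm_cos_add_sin_mul_I θ
    have hsy : ∀ r : ℝ, Complex.polarCoord.symm (r, θ) = r • u := by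
      intro r
      rw [Complex.polarCoord_symm_apply, Complex.real_smul]
    set φ : ℝ → ℂ := fun r => r • F (r • u) with hφ
    have hsgn : ∀ r ∈ Set.Ico (m : ℝ) (m + 1), r • G (Complex.polarCoord.symm (r, θ)) =
        (Real.sign (u ^ 3).im : ℂ) * ((rs n r : ℂ) * φ r) := by
      intro r hr
      have hr0 : 0 < r := lt_of_lt_of_le (by linarith) hr.1
      rw [hsy r, hG, hφ]
      simp only []
      have h1 : ‖r • u‖ = r := by
        rw [norm_smul, hu1, mul_one, Real.norm_eq_abs, abs_of_pos hr0]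
      have h2 : ((r • u) ^ 3).im = r ^ 3 * (u ^ 3).im := by
        rw [smul_pow, Complex.smul_im, smul_eq_mul]
      unfold sg
      rw [h1, h2, R1_sign_mul (by positivity)]
      simp only [Complex.real_smul]
      push_cast
      ring
    have e5 : (∫ r in Set.Ico (m : ℝ) (m + 1), r • G (Complex.polarCoord.symm (r, θ))) =
        (Real.sign (u ^ 3).im : ℂ) * ∫ r in (m : ℝ)..(m + 1), (rs n r : ℂ) * φ r := by
      rw [setIntegral_congr_fun measurableSet_Ico hsgn, integral_const_mul,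
        intervalIntegral.integral_of_le (by linarith), integral_Ico_eq_integral_Ioo,
        integral_Ioc_eq_integral_Ioo]
    rw [e5, norm_mul, Complex.norm_real, Real.norm_eq_abs]
    have hR := radial_osc m n hn φ ((m + 2) * M) ?_ ?_
    · have := mul_le_mul (R1_abs_sign (u ^ 3).im) hR (norm_nonneg _) zero_le_one
      rwa [one_mul] at this
    · intro r h1 h2
      have hr0 : 0 < r := lt_of_lt_of_le (by linarith) h1
      have hnr : ‖r • u‖ = r := by
        rw [norm_smul, hu1, mul_one, Real.norm_eq_abs, abs_of_pos hr0]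
      rw [hφ]
      simp only []
      rw [norm_smul, Real.norm_eq_abs, abs_of_pos hr0]
      have h3 := h.bound (r • u) (by rw [hnr]; exact h1) (by rw [hnr]; exact h2)
      have := mul_le_mul (show r ≤ m + 2 by linarith) h3 (norm_nonneg _) (by linarith)
      exact this
    · intro r r' h1 h2 h3 h4
      have hr0 : 0 < r := lt_of_lt_of_le (by linarith) h1
      have hr0' : 0 < r' := lt_of_lt_of_le (by linarith) h3
      have hnr : ‖r' • u‖ = r' := by
        rw [norm_smul, hu1, mul_one, Real.norm_eq_abs, abs_of_pos hr0']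
      rw [hφ]
      simp only []
      have e6 : r • F (r • u) - r' • F (r' • u) =
          r • (F (r • u) - F (r' • u)) + (r - r') • F (r' • u) := by
        rw [smul_sub, sub_smul]; abel
      rw [e6]
      refine (norm_add_le _ _).trans ?_
      rw [norm_smul, norm_smul, Real.norm_eq_abs, Real.norm_eq_abs, abs_of_pos hr0]
      have h5 := h.lip u hu1 r r' h1 h2 h3 h4
      have h6 := h.bound (r' • u) (by rw [hnr]; exact h3) (by rw [hnr]; exact h4)
      have h7 : r * ‖F (r • u) - F (r' • u)‖ ≤ (m + 1) * (M * |r - r'|) :=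
        mul_le_mul h2 h5 (norm_nonneg _) (by linarith)
      have h8 : |r - r'| * ‖F (r' • u)‖ ≤ |r - r'| * M :=
        mul_le_mul_of_nonneg_left h6 (abs_nonneg _)
      linarith
  have hfin := norm_setIntegral_le_of_norm_le_const (μ := volume)
    (s := Set.Ioo (-Real.pi) Real.pi) (C := 2 * ((m + 2) * M) / n)
    (f := fun θ => ∫ r in Set.Ico (m : ℝ) (m + 1), r • G (Complex.polarCoord.symm (r, θ)))
    (by rw [Real.volume_Ioo]; exact ENNReal.ofReal_lt_top) hin
  refine hfin.trans ?_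
  rw [measureReal_def, Real.volume_Ioo, ENNReal.toReal_ofReal (by linarith)]
  have hpi4 : Real.pi < 3.15 := Real.pi_lt_d2
  rw [div_mul_eq_mul_div]
  refine div_le_div_of_nonneg_right ?_ (by linarith)
  have k1 : 2 * ((m + 2) * M) * (Real.pi - -Real.pi) = (m + 2) * M * (4 * Real.pi) := by ring
  rw [k1]
  have k2 : (m + 2) * M * (4 * Real.pi) ≤ (m + 2) * M * (4 * 3.15) :=
    mul_le_mul_of_nonneg_left (by linarith) (by positivity)
  refine k2.trans ?_
  nlinarith [mul_nonneg hM (by linarith : (0 : ℝ) ≤ (m : ℝ) - 1), hM]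

end Pool.Agent.StatSurf
end
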