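import Pool.Agent.Lib.MP_fcf01e_gt.Mg.G001

section

/-! # Task A2: pole pushing -/

open Complex MeasureTheory

namespace Pool.Agent.StatSurf

/-- Finite geometric sum identity. -/
private theorem geom_inv_one_sub (u : ℂ) (hu : 1 - u ≠ 0) (n : ℕ) :
    (1 - u)⁻¹ - ∑ k ∈ Finset.range n, u ^ k = u ^ n * (1 - u)⁻¹ := by
  have h := geom_sum_mul_neg u n
  have h2 : (∑ k ∈ Finset.range n, u ^ k) = (1 - u ^ n) * (1 - u)⁻¹ := by
    rw [← h, mul_assoc, mul_inv_cancel₀ hu, mul_one]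
  rw [h2]
  ring

/-- Geometric series at infinity: `1 / (z - p) = - ∑ z ^ k / p ^ (k + 1)`. -/
theorem appr_inv_far {K : Set ℂ} (hK : IsCompact K) {R : ℝ} (hR : ∀ z ∈ K, ‖z‖ ≤ R) {p : ℂ}
    (hp : R < ‖p‖) : Appr K (fun z => (z - p)⁻¹) := by
  rcases K.eq_empty_or_nonempty with h0 | ⟨z0, hz0⟩
  · subst h0
    intro ε _
    exact ⟨0, fun z hz => absurd hz (Set.notMem_empty z)⟩
  have hR0 : 0 ≤ R := (norm_nonneg z0).trans (hR z0 hz0)
  have hp0 : 0 < ‖p‖ := lt_of_le_of_lt hR0 hp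
  have hpne : p ≠ 0 := norm_pos_iff.mp hp0
  have hq1 : R / ‖p‖ < 1 := (div_lt_one hp0).mpr hp
  have hq0 : 0 ≤ R / ‖p‖ := by positivity
  have hd : 0 < ‖p‖ - R := by linarith
  refine Appr.of_limit fun ε hε => ?_
  obtain ⟨n, hn⟩ := exists_pow_lt_of_lt_one (mul_pos hε hd) hq1
  refine ⟨fun z => (-∑ k ∈ Finset.range n, Polynomial.C (p⁻¹ ^ (k + 1)) * Polynomial.X ^ k :
    Polynomial ℂ).eval z, appr_poly K _, fun z hz => ?_⟩
  have hz' := hR z hz
  have hzp : ‖p‖ - R ≤ ‖z - p‖ := by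
    have := norm_sub_norm_le p z
    rw [norm_sub_rev] at this
    linarith
  have hzpne : z - p ≠ 0 := by
    rw [← norm_pos_iff]; linarith
  have hu : 1 - p⁻¹ * z ≠ 0 := by
    intro h
    apply hzpne
    have : p * (1 - p⁻¹ * z) = p - z := by field_simp
    rw [h, mul_zero] at this
    linear_combination this
  have hgeom := geom_inv_one_sub (p⁻¹ * z) hu n
  have hinv : (z - p)⁻¹ = -p⁻¹ * (1 - p⁻¹ * z)⁻¹ := by
    have : z - p = -p * (1 - p⁻¹ * z) := by field_simp; ring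
    rw [this, mul_inv]
    ring
  have key : (z - p)⁻¹ - (-∑ k ∈ Finset.range n, Polynomial.C (p⁻¹ ^ (k + 1)) * Polynomial.X ^ k :
      Polynomial ℂ).eval z = (p⁻¹ * z) ^ n * (z - p)⁻¹ := by
    have e1 : (-∑ k ∈ Finset.range n, Polynomial.C (p⁻¹ ^ (k + 1)) * Polynomial.X ^ k :
      Polynomial ℂ).eval z = -p⁻¹ * ∑ k ∈ Finset.range n, (p⁻¹ * z) ^ k := by
      rw [Polynomial.eval_neg, Polynomial.eval_finsetSum, Finset.mul_sum, ← Finset.sum_neg_distrib]
      refine Finset.sum_congr rfl fun k _ => ?_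
      simp only [Polynomial.eval_mul, Polynomial.eval_C, Polynomial.eval_pow, Polynomial.eval_X]
      rw [mul_pow, pow_succ]
      ring
    rw [e1, hinv]
    have : -p⁻¹ * (1 - p⁻¹ * z)⁻¹ - -p⁻¹ * ∑ k ∈ Finset.range n, (p⁻¹ * z) ^ k
      = -p⁻¹ * ((1 - p⁻¹ * z)⁻¹ - ∑ k ∈ Finset.range n, (p⁻¹ * z) ^ k) := by ring
    rw [this, hgeom]
    ring
  rw [key, norm_mul, norm_pow, norm_mul, norm_inv, norm_inv]
  have h1 : (‖p‖⁻¹ * ‖z‖) ^ n ≤ (R / ‖p‖) ^ n := by
    refine pow_le_pow_left₀ (by positivity) ?_ n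
    rw [div_eq_inv_mul]
    exact mul_le_mul_of_nonneg_left hz' (by positivity)
  have h2 : ‖z - p‖⁻¹ ≤ (‖p‖ - R)⁻¹ := inv_anti₀ hd hzp
  calc (‖p‖⁻¹ * ‖z‖) ^ n * ‖z - p‖⁻¹ ≤ (R / ‖p‖) ^ n * (‖p‖ - R)⁻¹ :=
        mul_le_mul h1 h2 (by positivity) (by positivity)
    _ ≤ (ε * (‖p‖ - R)) * (‖p‖ - R)⁻¹ :=
        mul_le_mul_of_nonneg_right hn.le (by positivity)
    _ = ε := by field_simp

/-- One step of pole pushing: `1 / (z - p') = ∑ (p' - p) ^ k / (z - p) ^ (k + 1)`. -/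
theorem appr_inv_step {K : Set ℂ} (hK : IsCompact K) {p p' : ℂ} (hp : p ∉ K)
    (h : Appr K (fun z => (z - p)⁻¹)) (hd : ∀ z ∈ K, ‖p' - p‖ ≤ ‖z - p‖ / 2) :
    Appr K (fun z => (z - p')⁻¹) := by
  obtain ⟨M, hM⟩ := Appr.bounded hK h
  refine Appr.of_limit fun ε hε => ?_
  have hM1 : 0 < 2 * (|M| + 1) := by positivity
  obtain ⟨n, hn⟩ := exists_pow_lt_of_lt_one (div_pos hε hM1) (by norm_num : (1 / 2 : ℝ) < 1)
  refine ⟨fun z => ∑ k ∈ Finset.range n, ((p' - p) ^ k) * ((z - p)⁻¹) ^ (k + 1), ?_,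
    fun z hz => ?_⟩
  · have hterm : ∀ k : ℕ, Appr K (fun z => (p' - p) ^ k * ((z - p)⁻¹) ^ (k + 1)) := fun k => by
      have h1 : Appr K (fun _ => (p' - p) ^ k) := by
        refine Appr.congr (appr_poly K (Polynomial.C ((p' - p) ^ k))) fun z _ => ?_
        simp
      exact Appr.mul hK h1 (Appr.pow hK h (k + 1))
    clear hn
    induction n with
    | zero =>
      refine Appr.congr (appr_poly K 0) fun z _ => ?_
      simp
    | succ n ih =>
      refine Appr.congr (Appr.add ih (hterm n)) fun z _ => ?_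
      rw [Finset.sum_range_succ]
  · have hzp : z - p ≠ 0 := fun h0 => hp (by rwa [sub_eq_zero.mp h0] at hz)
    have hzpn : 0 < ‖z - p‖ := norm_pos_iff.mpr hzp
    set u : ℂ := (p' - p) * (z - p)⁻¹ with hu
    have hun : ‖u‖ ≤ 1 / 2 := by
      rw [hu, norm_mul, norm_inv, ← div_eq_mul_inv, div_le_iff₀ hzpn]
      have := hd z hz
      linarith
    have hnu : 1 / 2 ≤ ‖1 - u‖ := by
      have := norm_sub_norm_le (1 : ℂ) u
      rw [norm_one] at this
      linarith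
    have hu1 : 1 - u ≠ 0 := by
      rw [← norm_pos_iff]; linarith
    have hgeom := geom_inv_one_sub u hu1 n
    have hinv : (z - p')⁻¹ = (z - p)⁻¹ * (1 - u)⁻¹ := by
      rw [← mul_inv]
      congr 1
      rw [hu]
      field_simp
      ring
    have key : (z - p')⁻¹ - ∑ k ∈ Finset.range n, ((p' - p) ^ k) * ((z - p)⁻¹) ^ (k + 1)
        = (z - p)⁻¹ * (u ^ n * (1 - u)⁻¹) := by
      rw [← hgeom, hinv, mul_sub, Finset.mul_sum]
      congr 1
      refine Finset.sum_congr rfl fun k _ => ?_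
      rw [hu, mul_pow, pow_succ]
      ring
    change ‖(z - p')⁻¹ - ∑ k ∈ Finset.range n, ((p' - p) ^ k) * ((z - p)⁻¹) ^ (k + 1)‖ ≤ ε
    rw [key, norm_mul, norm_mul, norm_pow]
    have h1 : ‖(z - p)⁻¹‖ ≤ |M| + 1 := (hM z hz).trans ((le_abs_self M).trans (by linarith))
    have h2 : ‖u‖ ^ n ≤ (1 / 2) ^ n := pow_le_pow_left₀ (norm_nonneg _) hun n
    have h3 : ‖(1 - u)⁻¹‖ ≤ 2 := by
      rw [norm_inv]
      calc ‖1 - u‖⁻¹ ≤ (1 / 2 : ℝ)⁻¹ := inv_anti₀ (by norm_num) hnu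
        _ = 2 := by norm_num
    calc ‖(z - p)⁻¹‖ * (‖u‖ ^ n * ‖(1 - u)⁻¹‖) ≤ (|M| + 1) * ((1 / 2) ^ n * 2) := by
          refine mul_le_mul h1 (mul_le_mul h2 h3 (norm_nonneg _) (by positivity))
            (by positivity) (by positivity)
      _ = (1 / 2) ^ n * (2 * (|M| + 1)) := by ring
      _ ≤ (ε / (2 * (|M| + 1))) * (2 * (|M| + 1)) :=
          mul_le_mul_of_nonneg_right hn.le hM1.le
      _ = ε := by field_simp

/-- Poles can be moved inside a preconnected set disjoint from `K`. -/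
theorem appr_inv_conn {K : Set ℂ} (hK : IsCompact K) {S : Set ℂ} (hS : IsPreconnected S)
    (hd : ∀ p ∈ S, p ∉ K) {q : ℂ} (hq : q ∈ S) (h : Appr K (fun z => (z - q)⁻¹)) {p : ℂ}
    (hp : p ∈ S) : Appr K (fun z => (z - p)⁻¹) := by
  have hiff : (Appr K (fun z => (z - q)⁻¹) → Appr K (fun z => (z - p)⁻¹)) ∧
      (Appr K (fun z => (z - p)⁻¹) → Appr K (fun z => (z - q)⁻¹)) := by
    refine hS.induction₂' (fun a b => (Appr K (fun z => (z - a)⁻¹) → Appr K (fun z => (z - b)⁻¹)) ∧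
      (Appr K (fun z => (z - b)⁻¹) → Appr K (fun z => (z - a)⁻¹))) (fun x hx => ?_)
      ?_ hq hp
    · have hxK := hd x hx
      rcases K.eq_empty_or_nonempty with h0 | hne
      · subst h0
        have hall : ∀ f : ℂ → ℂ, Appr ∅ f := fun f ε _ =>
          ⟨0, fun z hz => absurd hz (Set.notMem_empty z)⟩
        exact Filter.Eventually.of_forall fun y =>
          ⟨⟨fun _ => hall _, fun _ => hall _⟩, ⟨fun _ => hall _, fun _ => hall _⟩⟩
      · have hpos : 0 < Metric.infDist x K :=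
          (hK.isClosed.notMem_iff_infDist_pos hne).mp hxK
        set d := Metric.infDist x K with hd'
        have hdist : ∀ z ∈ K, d ≤ ‖z - x‖ := fun z hz => by
          have := Metric.infDist_le_dist_of_mem (x := x) hz
          rwa [dist_comm, dist_eq_norm] at this
        refine mem_nhdsWithin_of_mem_nhds (Metric.mem_nhds_iff.mpr ⟨d / 3, by positivity, ?_⟩)
        intro y hy
        have hy' : ‖y - x‖ < d / 3 := by rwa [Metric.mem_ball, dist_eq_norm] at hy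
        have hzy : ∀ z ∈ K, 2 * d / 3 ≤ ‖z - y‖ := fun z hz => by
          have h1 := hdist z hz
          have h2 : ‖z - x‖ ≤ ‖z - y‖ + ‖y - x‖ := by
            have := norm_add_le (z - y) (y - x)
            simpa using this
          linarith
        have hyK : y ∉ K := fun hyK => by
          have := hzy y hyK
          simp at this
          linarith
        have hxy : Appr K (fun z => (z - x)⁻¹) → Appr K (fun z => (z - y)⁻¹) := fun hx1 =>
          appr_inv_step hK hxK hx1 fun z hz => by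
            have := hdist z hz
            linarith
        have hyx : Appr K (fun z => (z - y)⁻¹) → Appr K (fun z => (z - x)⁻¹) := fun hy1 =>
          appr_inv_step hK hyK hy1 fun z hz => by
            have := hzy z hz
            rw [norm_sub_rev]
            linarith
        exact ⟨⟨hxy, hyx⟩, ⟨hyx, hxy⟩⟩
    · intro a b c _ _ _ hab hbc
      exact ⟨fun h1 => hbc.1 (hab.1 h1), fun h1 => hab.2 (hbc.2 h1)⟩
  exact hiff.1 h

/-- Poles on a ray to infinity which avoids `K`. -/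
theorem appr_inv_ray {K : Set ℂ} (hK : IsCompact K) {p : ℂ} (hp0 : p ≠ 0)
    (hp : ∀ t : ℝ, 1 ≤ t → (t : ℂ) * p ∉ K) : Appr K (fun z => (z - p)⁻¹) := by
  obtain ⟨R, hR⟩ := hK.isBounded.exists_norm_le
  have hpn : 0 < ‖p‖ := norm_pos_iff.mpr hp0
  set t0 : ℝ := max 1 ((|R| + 1) / ‖p‖) with ht0
  have ht1 : 1 ≤ t0 := le_max_left _ _
  have ht2 : (|R| + 1) / ‖p‖ ≤ t0 := le_max_right _ _
  have hS : IsPreconnected ((fun t : ℝ => (t : ℂ) * p) '' Set.Ici 1) :=
    isPreconnected_Ici.image _ (by fun_prop)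
  refine appr_inv_conn hK hS ?_ (q := (t0 : ℂ) * p) ⟨t0, ht1, rfl⟩ ?_ (p := p) ⟨1, ?_, by simp⟩
  · rintro _ ⟨t, ht, rfl⟩
    exact hp t ht
  · refine appr_inv_far hK hR ?_
    rw [norm_mul, Complex.norm_real, Real.norm_eq_abs, abs_of_nonneg (by linarith : 0 ≤ t0)]
    rw [div_le_iff₀ hpn] at ht2
    have := le_abs_self R
    linarith
  · exact Set.mem_Ici.mpr le_rfl

end Pool.Agent.StatSurf
end

section

/-! # Task A3: inverses and indicator functions -/

open Complex MeasureTheory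

namespace Pool.Agent.StatSurf

private lemma A3_const (K : Set ℂ) (c : ℂ) : Appr K (fun _ => c) :=
  (appr_poly K (Polynomial.C c)).congr (fun z _ => by simp)

private lemma A3_multiset {K : Set ℂ} (hK : IsCompact K)
    (hG : ∀ p ∉ K, Appr K (fun z => (z - p)⁻¹)) (s : Multiset ℂ) :
    (∀ r ∈ s, r ∉ K) → Appr K (fun z => ((s.map (fun r => (z - r))).prod)⁻¹) := by
  induction s using Multiset.induction with
  | empty =>
    intro _
    exact (A3_const K 1).congr (fun z _ => by simp)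
  | cons a s ih =>
    intro h
    have h1 := ih (fun r hr => h r (Multiset.mem_cons_of_mem hr))
    have h2 := hG a (h a (Multiset.mem_cons_self a s))
    refine (h2.mul hK h1).congr (fun z _ => ?_)
    simp [Multiset.map_cons, Multiset.prod_cons, mul_comm]

private lemma A3_poly {K : Set ℂ} (hK : IsCompact K)
    (hG : ∀ p ∉ K, Appr K (fun z => (z - p)⁻¹)) (q : Polynomial ℂ)
    (hq : ∀ z ∈ K, q.eval z ≠ 0) : Appr K (fun z => (q.eval z)⁻¹) := by
  have hs : q.Splits := IsAlgClosed.splits q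
  have h1 : q = Polynomial.C q.leadingCoeff * (q.roots.map (fun a => Polynomial.X - Polynomial.C a)).prod :=
    hs.eq_prod_roots
  have hr : ∀ r ∈ q.roots, r ∉ K := by
    intro r hr hrK
    exact hq r hrK (Polynomial.isRoot_of_mem_roots hr)
  refine ((A3_const K (q.leadingCoeff)⁻¹).mul hK (A3_multiset hK hG q.roots hr)).congr
    (fun z _ => ?_)
  have h2 : q.eval z = q.leadingCoeff * (q.roots.map (fun r => (z - r))).prod := by
    conv_lhs => rw [h1]
    rw [Polynomial.eval_mul, Polynomial.eval_C, Polynomial.eval_multiset_prod, Multiset.map_map]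
    simp
  rw [h2, mul_inv]

/-- The inverse of an approximable function without zeros (approximate `f` by a polynomial `q`
without zeros on `K`, and factor `q`). -/
theorem Appr.inv {K : Set ℂ} (hK : IsCompact K) (hG : ∀ p ∉ K, Appr K (fun z => (z - p)⁻¹))
    {f : ℂ → ℂ} (hf : Appr K f) {α : ℝ} (hα : 0 < α) (hfα : ∀ z ∈ K, α ≤ ‖f z‖) :
    Appr K (fun z => (f z)⁻¹) := by
  refine Appr.of_limit (fun ε hε => ?_)
  have hδ : 0 < min (α / 2) (ε * (α * (α / 2))) := by positivity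
  obtain ⟨q, hq⟩ := hf _ hδ
  have hqα : ∀ z ∈ K, α / 2 ≤ ‖q.eval z‖ := by
    intro z hz
    have h1 := hq z hz
    have h2 := hfα z hz
    have h3 : ‖f z‖ ≤ ‖f z - q.eval z‖ + ‖q.eval z‖ := by
      calc ‖f z‖ = ‖(f z - q.eval z) + q.eval z‖ := by ring_nf
        _ ≤ _ := norm_add_le _ _
    have h4 := min_le_left (α / 2) (ε * (α * (α / 2)))
    linarith
  have hq0 : ∀ z ∈ K, q.eval z ≠ 0 := by
    intro z hz h
    have := hqα z hz
    rw [h, norm_zero] at this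
    linarith
  refine ⟨fun z => (q.eval z)⁻¹, A3_poly hK hG q hq0, fun z hz => ?_⟩
  have hf0 : f z ≠ 0 := by
    intro h
    have := hfα z hz
    rw [h, norm_zero] at this
    linarith
  have h5 : (f z)⁻¹ - (q.eval z)⁻¹ = (q.eval z - f z) / (f z * q.eval z) :=
    inv_sub_inv hf0 (hq0 z hz)
  rw [h5, norm_div, norm_mul, norm_sub_rev]
  have h6 : α * (α / 2) ≤ ‖f z‖ * ‖q.eval z‖ :=
    mul_le_mul (hfα z hz) (hqα z hz) (by positivity) (norm_nonneg _)
  have h7 : 0 < α * (α / 2) := by positivity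
  rw [div_le_iff₀ (lt_of_lt_of_le h7 h6)]
  calc ‖f z - q.eval z‖ ≤ ε * (α * (α / 2)) := (hq z hz).trans (min_le_right _ _)
    _ ≤ ε * (‖f z‖ * ‖q.eval z‖) := mul_le_mul_of_nonneg_left h6 hε.le

/-- The indicator function of a part of `K` which is separated from the rest of `K` by the level
set `|u| = 1` of an approximable function `u` (approximate by `1 / (1 + u ^ N)`). -/
theorem Appr.indicator {K : Set ℂ} (hK : IsCompact K) (hG : ∀ p ∉ K, Appr K (fun z => (z - p)⁻¹))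
    {u : ℂ → ℂ} (hu : Appr K u) (A : Set ℂ) {q : ℝ} (hq0 : 0 < q) (hq : q < 1)
    (h1 : ∀ z ∈ K, z ∈ A → ‖u z‖ ≤ q) (h2 : ∀ z ∈ K, z ∉ A → 1 / q ≤ ‖u z‖) :
    Appr K (A.indicator (fun _ => 1)) := by
  refine Appr.of_limit (fun ε hε => ?_)
  obtain ⟨N, hN⟩ : ∃ N : ℕ, q ^ N < min (1 / 2) (ε / 2) :=
    exists_pow_lt_of_lt_one (by positivity) hq
  have hN1 : q ^ N < 1 / 2 := lt_of_lt_of_le hN (min_le_left _ _)
  have hN2 : q ^ N < ε / 2 := lt_of_lt_of_le hN (min_le_right _ _)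
  have hqN : 0 < q ^ N := by positivity
  have hA : ∀ z ∈ K, z ∈ A → ‖u z ^ N‖ ≤ q ^ N := by
    intro z hz hzA
    rw [norm_pow]
    exact pow_le_pow_left₀ (norm_nonneg _) (h1 z hz hzA) N
  have hB : ∀ z ∈ K, z ∉ A → (q ^ N)⁻¹ ≤ ‖u z ^ N‖ := by
    intro z hz hzA
    rw [norm_pow, ← inv_pow]
    refine pow_le_pow_left₀ (by positivity) ?_ N
    simpa using h2 z hz hzA
  have hinv : 2 ≤ (q ^ N)⁻¹ := by
    rw [le_inv_comm₀ (by norm_num) hqN]
    linarith
  have hlow : ∀ z ∈ K, 1 / 2 ≤ ‖1 + u z ^ N‖ := by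
    intro z hz
    by_cases hzA : z ∈ A
    · have h3 := hA z hz hzA
      have h4 : (1 : ℝ) ≤ ‖1 + u z ^ N‖ + ‖u z ^ N‖ := by
        calc (1 : ℝ) = ‖(1 + u z ^ N) - u z ^ N‖ := by simp
          _ ≤ _ := norm_sub_le _ _
      linarith
    · have h3 := hB z hz hzA
      have h4 : ‖u z ^ N‖ ≤ ‖1 + u z ^ N‖ + 1 := by
        calc ‖u z ^ N‖ = ‖(1 + u z ^ N) - 1‖ := by simp
          _ ≤ ‖1 + u z ^ N‖ + ‖(1 : ℂ)‖ := norm_sub_le _ _
          _ = _ := by simp
      linarith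
  have hap : Appr K (fun z => 1 + u z ^ N) := (A3_const K 1).add (hu.pow hK N)
  refine ⟨fun z => (1 + u z ^ N)⁻¹, hap.inv hK hG (by norm_num : (0 : ℝ) < 1 / 2) hlow,
    fun z hz => ?_⟩
  have h0 : (1 + u z ^ N) ≠ 0 := by
    intro h
    have := hlow z hz
    rw [h, norm_zero] at this
    linarith
  have hpos : 0 < ‖1 + u z ^ N‖ := norm_pos_iff.2 h0
  by_cases hzA : z ∈ A
  · have h3 := hA z hz hzA
    have h4 : A.indicator (fun _ => (1 : ℂ)) z - (1 + u z ^ N)⁻¹ = u z ^ N / (1 + u z ^ N) := by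
      rw [Set.indicator_of_mem hzA]
      field_simp
      ring
    rw [h4, norm_div, div_le_iff₀ hpos]
    have h5 := hlow z hz
    have h6 : ε * (1 / 2) ≤ ε * ‖1 + u z ^ N‖ := mul_le_mul_of_nonneg_left h5 hε.le
    linarith
  · have h3 := hB z hz hzA
    have h4 : A.indicator (fun _ => (1 : ℂ)) z - (1 + u z ^ N)⁻¹ = - (1 + u z ^ N)⁻¹ := by
      rw [Set.indicator_of_notMem hzA]
      simp
    rw [h4, norm_neg, norm_inv, inv_le_comm₀ hpos hε]
    have h5 : ‖u z ^ N‖ ≤ ‖1 + u z ^ N‖ + 1 := by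
      calc ‖u z ^ N‖ = ‖(1 + u z ^ N) - 1‖ := by simp
        _ ≤ ‖1 + u z ^ N‖ + ‖(1 : ℂ)‖ := norm_sub_le _ _
        _ = _ := by simp
    have h6 : ε⁻¹ ≤ (q ^ N)⁻¹ / 2 := by
      rw [le_div_iff₀ (by norm_num : (0 : ℝ) < 2)]
      rw [show ε⁻¹ * 2 = (ε / 2)⁻¹ by rw [inv_div]; ring]
      exact inv_anti₀ hqN hN2.le
    linarith

end Pool.Agent.StatSurf
end
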