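import Pool.Agent.Lib.MP_fcf01e_gt.Mg.G005
import Pool.Agent.Lib.MP_fcf01e_gt.Mg.G002

section

/-! # Task P1: the complement of the cells is connected -/

open Complex MeasureTheory

namespace Pool.Agent.StatSurf

theorem isCompact_Kset (m n : ℕ) (θ : ℝ) : IsCompact (Kset m n θ) := by
  apply Metric.isCompact_of_isClosed_isBounded
  · have h1 : IsClosed {z : ℂ | (m : ℝ) + θ ≤ ‖z‖} := isClosed_le continuous_const continuous_norm
    have h2 : IsClosed {z : ℂ | ‖z‖ ≤ m + 1 - θ} := isClosed_le continuous_norm continuous_const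
    have h3 : IsClosed {z : ℂ | ∀ j ∈ Finset.Icc 1 (n * (m + 1) + 1),
        θ ≤ |(n : ℝ) * ‖z‖ + 1 / 2 - (j : ℝ)|} := by
      have he : {z : ℂ | ∀ j ∈ Finset.Icc 1 (n * (m + 1) + 1),
          θ ≤ |(n : ℝ) * ‖z‖ + 1 / 2 - (j : ℝ)|} =
          ⋂ j ∈ Finset.Icc 1 (n * (m + 1) + 1), {z : ℂ | θ ≤ |(n : ℝ) * ‖z‖ + 1 / 2 - (j : ℝ)|} := by
        ext z
        simp
      rw [he]
      refine isClosed_biInter fun j _ => isClosed_le continuous_const ?_
      fun_prop
    have h4 : IsClosed {z : ℂ | θ * ‖z‖ ^ 3 ≤ |(z ^ 3).im|} := by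
      refine isClosed_le (by fun_prop) ?_
      exact (Complex.continuous_im.comp (continuous_pow 3)).abs
    exact h1.inter (h2.inter (h3.inter h4))
  · refine (Metric.isBounded_closedBall (x := (0 : ℂ)) (r := (m : ℝ) + 1 - θ)).subset ?_
    intro z hz
    simpa using hz.2.1

theorem Kset_subset (m n : ℕ) {θ : ℝ} (hθ : 0 < θ) : Kset m n θ ⊆ ring m := by
  intro z hz
  exact ⟨by linarith [hz.1], by linarith [hz.2.1]⟩

private theorem isPreconnected_circle (r : ℝ) (hr : 0 ≤ r) :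
    IsPreconnected {z : ℂ | ‖z‖ = r} := by
  have he : {z : ℂ | ‖z‖ = r} = Set.range (fun t : ℝ => (r : ℂ) * Complex.exp ((t : ℂ) * I)) := by
    ext z
    constructor
    · intro hz
      refine ⟨Complex.arg z, ?_⟩
      have hz' : ‖z‖ = r := hz
      show (r : ℂ) * Complex.exp ((Complex.arg z : ℂ) * I) = z
      rw [← hz']
      exact Complex.norm_mul_exp_arg_mul_I z
    · rintro ⟨t, rfl⟩
      show ‖(r : ℂ) * Complex.exp ((t : ℂ) * I)‖ = r
      rw [norm_mul, Complex.norm_exp_ofReal_mul_I, Complex.norm_real, Real.norm_eq_abs,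
        abs_of_nonneg hr, mul_one]
  rw [he]
  exact isPreconnected_range (by fun_prop)

private theorem ofReal_notMem_Kset (m n : ℕ) {θ : ℝ} (hθ : 0 < θ) {x : ℝ} :
    (x : ℂ) ∉ Kset m n θ := by
  intro h
  have h1 := h.1
  have h4 := h.2.2.2
  have h5 : ((x : ℂ) ^ 3).im = 0 := by
    rw [← Complex.ofReal_pow, Complex.ofReal_im]
  rw [h5, abs_zero] at h4
  have h6 : 0 < ‖(x : ℂ)‖ := by
    have : (0 : ℝ) ≤ m := Nat.cast_nonneg m
    linarith
  have : 0 < θ * ‖(x : ℂ)‖ ^ 3 := by positivity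
  linarith

/-- The union with the closed disc `|z| ≤ m`: all poles can be pushed to infinity. -/
theorem ball_Kset_poles (m n : ℕ) {θ : ℝ} (hθ : 0 < θ) :
    ∀ p ∉ Metric.closedBall (0 : ℂ) m ∪ Kset m n θ,
      Appr (Metric.closedBall (0 : ℂ) m ∪ Kset m n θ) (fun z => (z - p)⁻¹) := by
  intro p hp
  have hK : IsCompact (Metric.closedBall (0 : ℂ) m ∪ Kset m n θ) :=
    (isCompact_closedBall _ _).union (isCompact_Kset m n θ)
  have hm0 : (0 : ℝ) ≤ m := Nat.cast_nonneg m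
  have hpm : (m : ℝ) < ‖p‖ := by
    by_contra h
    apply hp
    left
    simpa using not_lt.1 h
  have hpK : p ∉ Kset m n θ := fun h => hp (Or.inr h)
  have hp0 : p ≠ 0 := by
    rintro rfl
    simp at hpm
    linarith
  -- real points are good
  have hreal : ∀ x : ℝ, (m : ℝ) < x →
      Appr (Metric.closedBall (0 : ℂ) m ∪ Kset m n θ) (fun z => (z - (x : ℂ))⁻¹) := by
    intro x hx
    refine appr_inv_ray hK (by exact_mod_cast (by linarith : (0 : ℝ) < x).ne') ?_
    intro t ht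
    rw [← Complex.ofReal_mul]
    rintro (h | h)
    · have h' : ‖((t * x : ℝ) : ℂ)‖ ≤ m := by simpa using h
      rw [Complex.norm_real, Real.norm_eq_abs, abs_of_nonneg (by nlinarith)] at h'
      nlinarith
    · exact ofReal_notMem_Kset m n hθ h
  -- rotation
  have hrot : (∀ z : ℂ, ‖z‖ = ‖p‖ → z ∉ Kset m n θ) →
      Appr (Metric.closedBall (0 : ℂ) m ∪ Kset m n θ) (fun z => (z - p)⁻¹) := by
    intro h
    refine appr_inv_conn hK (isPreconnected_circle ‖p‖ (norm_nonneg p)) ?_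
      (q := ((‖p‖ : ℝ) : ℂ)) ?_ (hreal ‖p‖ hpm) (p := p) rfl
    · intro z hz
      have hz' : ‖z‖ = ‖p‖ := hz
      rintro (h' | h')
      · have : ‖z‖ ≤ m := by simpa using h'
        linarith
      · exact h z hz' h'
    · show ‖((‖p‖ : ℝ) : ℂ)‖ = ‖p‖
      simp
  -- ray
  have hray : (∀ t : ℝ, 1 ≤ t → (t : ℂ) * p ∉ Kset m n θ) →
      Appr (Metric.closedBall (0 : ℂ) m ∪ Kset m n θ) (fun z => (z - p)⁻¹) := by
    intro h
    refine appr_inv_ray hK hp0 ?_
    intro t ht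
    rintro (h' | h')
    · have h'' : ‖(t : ℂ) * p‖ ≤ m := by simpa using h'
      rw [norm_mul, Complex.norm_real, Real.norm_eq_abs, abs_of_nonneg (by linarith)] at h''
      nlinarith
    · exact h t ht h'
  by_cases h1 : ‖p‖ < (m : ℝ) + θ
  · refine hrot fun z hz hzK => ?_
    have := hzK.1
    linarith
  by_cases h2 : (m : ℝ) + 1 - θ < ‖p‖
  · refine hray fun t ht hzK => ?_
    have h3 := hzK.2.1
    rw [norm_mul, Complex.norm_real, Real.norm_eq_abs, abs_of_nonneg (by linarith)] at h3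
    nlinarith [norm_nonneg p]
  by_cases h3 : ∀ j ∈ Finset.Icc 1 (n * (m + 1) + 1), θ ≤ |(n : ℝ) * ‖p‖ + 1 / 2 - (j : ℝ)|
  · -- the angular condition fails
    have h4 : ¬ θ * ‖p‖ ^ 3 ≤ |(p ^ 3).im| := by
      intro h4
      exact hpK ⟨not_lt.1 h1, not_lt.1 h2, h3, h4⟩
    refine hray fun t ht hzK => ?_
    have h5 := hzK.2.2.2
    have ht0 : (0 : ℝ) < t := by linarith
    have h6 : (((t : ℂ) * p) ^ 3).im = t ^ 3 * (p ^ 3).im := by
      rw [mul_pow, ← Complex.ofReal_pow, Complex.im_ofReal_mul]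
    rw [h6, norm_mul, Complex.norm_real, Real.norm_eq_abs, abs_of_pos ht0, abs_mul,
      abs_of_pos (by positivity : (0 : ℝ) < t ^ 3)] at h5
    apply h4
    have ht3 : (0 : ℝ) < t ^ 3 := by positivity
    have h7 : t ^ 3 * (θ * ‖p‖ ^ 3) ≤ t ^ 3 * |(p ^ 3).im| := by
      calc t ^ 3 * (θ * ‖p‖ ^ 3) = θ * (t * ‖p‖) ^ 3 := by ring
        _ ≤ _ := h5
    exact le_of_mul_le_mul_left h7 ht3
  · push Not at h3
    obtain ⟨j, hj, hj'⟩ := h3
    refine hrot fun z hz hzK => ?_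
    have := hzK.2.2.1 j hj
    rw [hz] at this
    linarith

/-- All poles outside `Kset m n θ` can be pushed to infinity: if `|p| < m + θ` move inside the disc
`|z| < m + θ` to a positive real number, then along the positive real axis; if
`|Im p ^ 3| < θ |p| ^ 3` or `m + 1 - θ < |p|` use the ray from `p`; else rotate to the positive real
axis along the circle through `p`, then use the ray. -/
theorem Kset_poles (m n : ℕ) {θ : ℝ} (hθ : 0 < θ) :
    ∀ p ∉ Kset m n θ, Appr (Kset m n θ) (fun z => (z - p)⁻¹) := by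
  intro p hp
  by_cases hpm : p ∈ Metric.closedBall (0 : ℂ) m
  · have hm0 : (0 : ℝ) ≤ m := Nat.cast_nonneg m
    refine appr_inv_conn (isCompact_Kset m n θ) (S := Metric.ball (0 : ℂ) ((m : ℝ) + θ))
      (convex_ball _ _).isPreconnected ?_ (q := ((m + θ / 2 : ℝ) : ℂ)) ?_ ?_ ?_
    · intro z hz hzK
      have h1 := hzK.1
      have h2 : ‖z‖ < (m : ℝ) + θ := by simpa using hz
      linarith
    · simp only [Metric.mem_ball, dist_zero_right, Complex.norm_real, Real.norm_eq_abs]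
      rw [abs_of_nonneg (by linarith)]
      linarith
    · refine (ball_Kset_poles m n hθ _ ?_).mono Set.subset_union_right
      rintro (h | h)
      · simp only [Metric.mem_closedBall, dist_zero_right, Complex.norm_real,
          Real.norm_eq_abs] at h
        rw [abs_of_nonneg (by linarith)] at h
        linarith
      · exact ofReal_notMem_Kset m n hθ h
    · have h3 : ‖p‖ ≤ m := by simpa using hpm
      simp only [Metric.mem_ball, dist_zero_right]
      linarith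
  · refine (ball_Kset_poles m n hθ p ?_).mono Set.subset_union_right
    rintro (h | h)
    · exact hpm h
    · exact hp h

end Pool.Agent.StatSurf
end

section

/-! # Task P2: the pattern is approximable on the cells -/

open Complex MeasureTheory

namespace Pool.Agent.StatSurf

/-- `(-1) ^ ⌊y⌋ = ∏ over the integers 1 ≤ j ≤ y of -1`. -/
theorem rs_eq_prod (m n : ℕ) {r : ℝ} (h0 : 0 ≤ r) (h : r ≤ m + 1) :
    rs n r = ∏ j ∈ Finset.Icc 1 (n * (m + 1) + 1), (if (j : ℝ) ≤ (n : ℝ) * r + 1 / 2 then -1 else 1)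
    := by
  have hy : 0 ≤ (n : ℝ) * r + 1 / 2 := by positivity
  rw [Finset.prod_ite, Finset.prod_const, Finset.prod_const_one, mul_one, rs]
  congr 1
  have : (Finset.Icc 1 (n * (m + 1) + 1)).filter (fun j : ℕ => (j : ℝ) ≤ (n : ℝ) * r + 1 / 2) =
      Finset.Icc 1 ⌊(n : ℝ) * r + 1 / 2⌋₊ := by
    ext j
    simp only [Finset.mem_filter, Finset.mem_Icc]
    constructor
    · rintro ⟨⟨h1, -⟩, h2⟩
      exact ⟨h1, Nat.le_floor h2⟩
    · rintro ⟨h1, h2⟩
      have h3 : (j : ℝ) ≤ (n : ℝ) * r + 1 / 2 := (Nat.le_floor_iff hy).1 h2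
      refine ⟨⟨h1, ?_⟩, h3⟩
      have h4 : (j : ℝ) ≤ ((n * (m + 1) + 1 : ℕ) : ℝ) := by
        push_cast
        have : (n : ℝ) * r ≤ n * (m + 1) := by
          apply mul_le_mul_of_nonneg_left h (by positivity)
        linarith
      exact_mod_cast h4
  rw [this, Nat.card_Icc]
  simp

private theorem factor_appr (m n : ℕ) (hm : 1 ≤ m) {θ : ℝ} (hθ : 0 < θ) {j : ℕ}
    (hj : j ∈ Finset.Icc 1 (n * (m + 1) + 1)) :
    Appr (Kset m n θ) (fun z => (((if (j : ℝ) ≤ (n : ℝ) * ‖z‖ + 1 / 2 then -1 else 1 : ℝ)) : ℂ)) := by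
  have hj1 : (1 : ℝ) ≤ j := by exact_mod_cast (Finset.mem_Icc.1 hj).1
  have hjp : 0 < (j : ℝ) - 1 / 2 := by linarith
  set x : ℝ := θ / ((j : ℝ) - 1 / 2) with hx
  have hx0 : 0 < x := by positivity
  have hu : Appr (Kset m n θ) (fun z => (((n : ℝ) / ((j : ℝ) - 1 / 2) : ℝ) : ℂ) * z) := by
    have := appr_poly (Kset m n θ)
      (Polynomial.C ((((n : ℝ) / ((j : ℝ) - 1 / 2) : ℝ) : ℂ)) * Polynomial.X)
    refine this.congr ?_
    intro z _
    simp
  have hnorm : ∀ z : ℂ, ‖(((n : ℝ) / ((j : ℝ) - 1 / 2) : ℝ) : ℂ) * z‖ =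
      (n : ℝ) * ‖z‖ / ((j : ℝ) - 1 / 2) := by
    intro z
    rw [norm_mul, Complex.norm_real, Real.norm_of_nonneg (by positivity)]
    ring
  have hind := Appr.indicator (isCompact_Kset m n θ) (Kset_poles m n hθ) hu
    {z : ℂ | (n : ℝ) * ‖z‖ + 1 / 2 < j} (q := 1 / (1 + x)) (by positivity)
    (by rw [div_lt_one (by positivity)]; linarith)
    (by
      intro z hz hA
      rw [hnorm]
      have h1 := hz.2.2.1 j hj
      have hA' : (n : ℝ) * ‖z‖ + 1 / 2 < j := hA
      rw [abs_of_neg (by linarith)] at h1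
      have h2 : (n : ℝ) * ‖z‖ ≤ ((j : ℝ) - 1 / 2) * (1 - x) := by
        have : ((j : ℝ) - 1 / 2) * x = θ := by
          rw [hx]; exact mul_div_cancel₀ _ hjp.ne'
        nlinarith
      calc (n : ℝ) * ‖z‖ / ((j : ℝ) - 1 / 2) ≤ ((j : ℝ) - 1 / 2) * (1 - x) / ((j : ℝ) - 1 / 2) := by
            gcongr
        _ = 1 - x := mul_div_cancel_left₀ _ hjp.ne'
        _ ≤ 1 / (1 + x) := by
            rw [le_div_iff₀ (by positivity)]
            nlinarith)
    (by
      intro z hz hA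
      rw [hnorm]
      have h1 := hz.2.2.1 j hj
      have hA' : (j : ℝ) ≤ (n : ℝ) * ‖z‖ + 1 / 2 := not_lt.1 hA
      rw [abs_of_nonneg (by linarith)] at h1
      have h2 : ((j : ℝ) - 1 / 2) * (1 + x) ≤ (n : ℝ) * ‖z‖ := by
        have : ((j : ℝ) - 1 / 2) * x = θ := by
          rw [hx]; exact mul_div_cancel₀ _ hjp.ne'
        nlinarith
      rw [one_div_one_div]
      rw [le_div_iff₀ hjp]
      linarith)
  have h2 := (appr_poly (Kset m n θ) (Polynomial.C (2 : ℂ))).mul (isCompact_Kset m n θ) hind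
  have h3 := h2.sub (appr_poly (Kset m n θ) (Polynomial.C (1 : ℂ)))
  refine h3.congr ?_
  intro z _
  simp only [Polynomial.eval_C]
  by_cases hc : (j : ℝ) ≤ (n : ℝ) * ‖z‖ + 1 / 2
  · rw [if_pos hc, Set.indicator_of_notMem (by simpa using hc)]
    push_cast
    ring
  · rw [if_neg hc, Set.indicator_of_mem (by simpa using hc)]
    push_cast
    ring

private theorem norm_ge_one (m n : ℕ) (hm : 1 ≤ m) {θ : ℝ} (hθ : 0 < θ) {z : ℂ}
    (hz : z ∈ Kset m n θ) : 1 ≤ ‖z‖ := by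
  have h1 := hz.1
  have : (1 : ℝ) ≤ m := by exact_mod_cast hm
  linarith

private theorem im_ge (m n : ℕ) (hm : 1 ≤ m) {θ : ℝ} (hθ : 0 < θ) {z : ℂ}
    (hz : z ∈ Kset m n θ) : θ ≤ |(z ^ 3).im| := by
  have h1 := norm_ge_one m n hm hθ hz
  have h2 := hz.2.2.2
  have h3 : (1 : ℝ) ≤ ‖z‖ ^ 3 := one_le_pow₀ h1
  nlinarith

private theorem sign_appr (m n : ℕ) (hm : 1 ≤ m) {θ : ℝ} (hθ : 0 < θ) :
    Appr (Kset m n θ) (fun z => ((Real.sign (z ^ 3).im : ℝ) : ℂ)) := by
  have hu : Appr (Kset m n θ) (fun z => Complex.exp (I * z ^ 3)) := by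
    have := (appr_poly (Kset m n θ) (Polynomial.C I * Polynomial.X ^ 3)).exp (isCompact_Kset m n θ)
    refine this.congr ?_
    intro z _
    simp
  have hnorm : ∀ z : ℂ, ‖Complex.exp (I * z ^ 3)‖ = Real.exp (-(z ^ 3).im) := by
    intro z
    rw [Complex.norm_exp, Complex.I_mul_re]
  have hind := Appr.indicator (isCompact_Kset m n θ) (Kset_poles m n hθ) hu
    {z : ℂ | 0 < (z ^ 3).im} (q := Real.exp (-θ)) (Real.exp_pos _)
    (by rw [Real.exp_lt_one_iff]; linarith)
    (by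
      intro z hz hA
      rw [hnorm]
      have h1 := im_ge m n hm hθ hz
      have hA' : 0 < (z ^ 3).im := hA
      rw [abs_of_pos hA'] at h1
      exact Real.exp_le_exp.2 (by linarith))
    (by
      intro z hz hA
      rw [hnorm]
      have h1 := im_ge m n hm hθ hz
      have hA' : (z ^ 3).im ≤ 0 := not_lt.1 hA
      rw [abs_of_nonpos hA'] at h1
      rw [one_div, ← Real.exp_neg]
      exact Real.exp_le_exp.2 (by linarith))
  have h2 := (appr_poly (Kset m n θ) (Polynomial.C (2 : ℂ))).mul (isCompact_Kset m n θ) hind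
  have h3 := h2.sub (appr_poly (Kset m n θ) (Polynomial.C (1 : ℂ)))
  refine h3.congr ?_
  intro z hz
  simp only [Polynomial.eval_C]
  have h1 := im_ge m n hm hθ hz
  by_cases hc : 0 < (z ^ 3).im
  · rw [Real.sign_of_pos hc, Set.indicator_of_mem (by simpa using hc)]
    push_cast
    ring
  · have hc' : (z ^ 3).im < 0 := by
      rcases lt_or_eq_of_le (not_lt.1 hc) with h | h
      · exact h
      · rw [h] at h1; simp at h1; linarith
    rw [Real.sign_of_neg hc', Set.indicator_of_notMem (by simpa using hc)]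
    push_cast
    ring

/-- The pattern is approximable on the cells: use `Appr.indicator` with `u = n z / (j - 1/2)` for
each factor of the radial sign, and with `u = exp (I z ^ 3)` for the angular sign. -/
theorem sg_appr (m n : ℕ) (hm : 1 ≤ m) (hn : 1 ≤ n) {θ : ℝ} (hθ : 0 < θ) (hθ1 : θ ≤ 1 / 4) :
    Appr (Kset m n θ) (fun z => ((sg n z : ℝ) : ℂ)) := by
  have h1 : Appr (Kset m n θ) (fun z => ∏ j ∈ Finset.Icc 1 (n * (m + 1) + 1),
      (((if (j : ℝ) ≤ (n : ℝ) * ‖z‖ + 1 / 2 then -1 else 1 : ℝ)) : ℂ)) :=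
    Appr.prod (isCompact_Kset m n θ) _ (fun j hj => factor_appr m n hm hθ hj)
  refine (h1.mul (isCompact_Kset m n θ) (sign_appr m n hm hθ)).congr ?_
  intro z hz
  rw [sg, rs_eq_prod m n (norm_nonneg z) (by have := hz.2.1; linarith)]
  push_cast
  rfl

/-- The indicator function of the disc (`u = z / (m + θ / 2)`). -/
theorem ball_appr (m n : ℕ) (hm : 1 ≤ m) {θ : ℝ} (hθ : 0 < θ) :
    Appr (Metric.closedBall (0 : ℂ) m ∪ Kset m n θ)
      ((Metric.closedBall (0 : ℂ) m).indicator (fun _ => 1)) := by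
  have hm1 : (1 : ℝ) ≤ m := by exact_mod_cast hm
  have hd : 0 < (m : ℝ) + θ / 2 := by positivity
  have hK : IsCompact (Metric.closedBall (0 : ℂ) m ∪ Kset m n θ) :=
    (isCompact_closedBall _ _).union (isCompact_Kset m n θ)
  have hu : Appr (Metric.closedBall (0 : ℂ) m ∪ Kset m n θ)
      (fun z => (((1 : ℝ) / ((m : ℝ) + θ / 2) : ℝ) : ℂ) * z) := by
    have := appr_poly (Metric.closedBall (0 : ℂ) m ∪ Kset m n θ)
      (Polynomial.C ((((1 : ℝ) / ((m : ℝ) + θ / 2) : ℝ) : ℂ)) * Polynomial.X)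
    refine this.congr ?_
    intro z _
    simp
  have hnorm : ∀ z : ℂ, ‖(((1 : ℝ) / ((m : ℝ) + θ / 2) : ℝ) : ℂ) * z‖ =
      ‖z‖ / ((m : ℝ) + θ / 2) := by
    intro z
    rw [norm_mul, Complex.norm_real, Real.norm_of_nonneg (by positivity)]
    ring
  refine Appr.indicator hK (ball_Kset_poles m n hθ) hu (Metric.closedBall (0 : ℂ) m)
    (q := max ((m : ℝ) / ((m : ℝ) + θ / 2)) (((m : ℝ) + θ / 2) / ((m : ℝ) + θ))) ?_ ?_ ?_ ?_
  · exact lt_of_lt_of_le (by positivity) (le_max_left _ _)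
  · rw [max_lt_iff, div_lt_one hd, div_lt_one (by positivity)]
    constructor <;> linarith
  · intro z _ hz
    rw [hnorm]
    rw [mem_closedBall_zero_iff] at hz
    refine le_trans ?_ (le_max_left _ _)
    gcongr
  · intro z hz hz'
    rcases hz with hz | hz
    · exact absurd hz hz'
    · rw [hnorm]
      have h1 := hz.1
      have h2 : 1 / max ((m : ℝ) / ((m : ℝ) + θ / 2)) (((m : ℝ) + θ / 2) / ((m : ℝ) + θ)) ≤
          1 / (((m : ℝ) + θ / 2) / ((m : ℝ) + θ)) :=
        one_div_le_one_div_of_le (by positivity) (le_max_right _ _)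
      refine h2.trans ?_
      rw [one_div_div]
      gcongr

/-- The sign does not vanish on the cells. -/
theorem sg_ne_zero (m n : ℕ) (hm : 1 ≤ m) {θ : ℝ} (hθ : 0 < θ) {z : ℂ} (hz : z ∈ Kset m n θ) :
    sg n z ≠ 0 := by
  have h1 := im_ge m n hm hθ hz
  have h2 : (z ^ 3).im ≠ 0 := by
    intro h
    rw [h] at h1
    simp at h1
    linarith
  unfold sg rs
  refine mul_ne_zero (pow_ne_zero _ (by norm_num)) ?_
  rwa [Ne, Real.sign_eq_zero_iff]

end Pool.Agent.StatSurf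
end

section

/-! # Task P4: the entire function `g` -/

open Complex MeasureTheory

namespace Pool.Agent.StatSurf

/-- One step of the construction. -/
private theorem P4_step (m n : ℕ) (hm : 1 ≤ m) (hn : 1 ≤ n) {θ : ℝ} (hθ : 0 < θ) (hθ1 : θ ≤ 1 / 4)
    (G : Polynomial ℂ) {δ : ℝ} (hδ : 0 < δ) :
    ∃ G' : Polynomial ℂ, (∀ z ∈ Metric.closedBall (0 : ℂ) m, ‖G'.eval z - G.eval z‖ ≤ δ) ∧
      ∀ z ∈ Kset m n θ, ‖G'.eval z - I * ((Real.pi / 2 * sg n z : ℝ) : ℂ)‖ ≤ δ := by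
  obtain ⟨p, hp⟩ := sg_appr m n hm hn hθ hθ1 (δ / 4) (by positivity)
  set P : Polynomial ℂ := Polynomial.C (I * ((Real.pi / 2 : ℝ) : ℂ)) * p with hP
  have hcomp : IsCompact (Metric.closedBall (0 : ℂ) m ∪ Kset m n θ) :=
    (isCompact_closedBall _ _).union (isCompact_Kset m n θ)
  obtain ⟨M0, hM0⟩ := hcomp.exists_bound_of_continuousOn
    (f := fun z => (P - G).eval z) ((P - G).continuous.continuousOn)
  set M : ℝ := max M0 0 with hM
  have hM1 : 0 ≤ M := le_max_right _ _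
  have hM2 : ∀ z ∈ Metric.closedBall (0 : ℂ) m ∪ Kset m n θ, ‖(P - G).eval z‖ ≤ M :=
    fun z hz => (hM0 z hz).trans (le_max_left _ _)
  have he : 0 < δ / (2 * (M + 1)) := by positivity
  obtain ⟨χ, hχ⟩ := ball_appr m n hm hθ (δ / (2 * (M + 1))) he
  have heM : δ / (2 * (M + 1)) * M ≤ δ / 2 := by
    rw [div_mul_eq_mul_div, div_le_div_iff₀ (by positivity) (by norm_num)]
    nlinarith
  refine ⟨G + (1 - χ) * (P - G), ?_, ?_⟩
  · intro z hz
    have h1 := hχ z (Or.inl hz)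
    rw [Set.indicator_of_mem hz] at h1
    have h2 := hM2 z (Or.inl hz)
    have h3 : (G + (1 - χ) * (P - G)).eval z - G.eval z = (1 - χ.eval z) * (P - G).eval z := by
      simp only [Polynomial.eval_add, Polynomial.eval_mul, Polynomial.eval_sub, Polynomial.eval_one]
      ring
    rw [h3, norm_mul]
    calc ‖1 - χ.eval z‖ * ‖(P - G).eval z‖ ≤ δ / (2 * (M + 1)) * M :=
          mul_le_mul h1 h2 (norm_nonneg _) he.le
      _ ≤ δ := by linarith
  · intro z hz
    have hzb : z ∉ Metric.closedBall (0 : ℂ) m := by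
      rw [mem_closedBall_zero_iff]
      have : (m : ℝ) + θ ≤ ‖z‖ := hz.1
      linarith
    have h1 := hχ z (Or.inr hz)
    rw [Set.indicator_of_notMem hzb, zero_sub, norm_neg] at h1
    have h2 := hM2 z (Or.inr hz)
    have h4 := hp z hz
    have h3 : (G + (1 - χ) * (P - G)).eval z - I * ((Real.pi / 2 * sg n z : ℝ) : ℂ)
        = - (χ.eval z * (P - G).eval z)
          + I * ((Real.pi / 2 : ℝ) : ℂ) * (p.eval z - ((sg n z : ℝ) : ℂ)) := by
      simp only [Polynomial.eval_add, Polynomial.eval_mul, Polynomial.eval_sub, Polynomial.eval_one,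
        hP, Polynomial.eval_C]
      push_cast
      ring
    rw [h3]
    refine (norm_add_le _ _).trans ?_
    rw [norm_neg, norm_mul, norm_mul, norm_mul, Complex.norm_I, one_mul, Complex.norm_real,
      Real.norm_eq_abs, abs_of_pos (by positivity : (0 : ℝ) < Real.pi / 2),
      norm_sub_rev (p.eval z)]
    have h5 : ‖χ.eval z‖ * ‖(P - G).eval z‖ ≤ δ / (2 * (M + 1)) * M :=
      mul_le_mul h1 h2 (norm_nonneg _) he.le
    have h6 : Real.pi / 2 * ‖((sg n z : ℝ) : ℂ) - p.eval z‖ ≤ 2 * (δ / 4) :=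
      mul_le_mul (by linarith [Real.pi_le_four]) h4 (norm_nonneg _) (by norm_num)
    linarith

/-- The limit of the construction. -/
private theorem P4_lim (G : ℕ → Polynomial ℂ) (a : ℕ → ℝ) (ha' : Antitone a)
    (h : ∀ m : ℕ, 1 ≤ m → ∀ z ∈ Metric.closedBall (0 : ℂ) m,
      ‖(G (m + 1)).eval z - (G m).eval z‖ ≤ a m * (1 / 2) ^ (m + 3)) :
    ∃ g : ℂ → ℂ, Differentiable ℂ g ∧ ∀ m : ℕ, 1 ≤ m → ∀ z ∈ Metric.closedBall (0 : ℂ) m,
      ‖g z - (G m).eval z‖ ≤ a m * (1 / 2) ^ (m + 2) := by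
  set F : ℕ → ℂ → ℂ := fun m z => (G (m + 1)).eval z - (G m).eval z with hF
  have hb : ∀ N : ℕ, 1 ≤ N → ∀ z ∈ Metric.closedBall (0 : ℂ) N, ∀ k : ℕ,
      ‖F (k + N) z‖ ≤ (a N * (1 / 2) ^ (N + 3)) * (1 / 2) ^ k := by
    intro N hN z hz k
    have hz' : z ∈ Metric.closedBall (0 : ℂ) ((k + N : ℕ) : ℝ) := by
      rw [mem_closedBall_zero_iff] at hz ⊢
      push_cast
      have : (0 : ℝ) ≤ (k : ℝ) := Nat.cast_nonneg k
      linarith
    refine (h (k + N) (by omega) z hz').trans ?_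
    have h1 : a (k + N) ≤ a N := ha' (by omega)
    have h2 : ((1 : ℝ) / 2) ^ (k + N + 3) = (1 / 2) ^ (N + 3) * (1 / 2) ^ k := by
      rw [← pow_add]; congr 1; omega
    rw [h2, mul_assoc]
    exact mul_le_mul_of_nonneg_right h1 (by positivity)
  have hgs : ∀ c : ℝ, Summable (fun k : ℕ => c * (1 / 2 : ℝ) ^ k) := fun c =>
    (summable_geometric_of_lt_one (by norm_num) (by norm_num)).mul_left c
  have hsN : ∀ N : ℕ, 1 ≤ N → ∀ z ∈ Metric.closedBall (0 : ℂ) N, Summable (fun k => F (k + N) z) := by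
    intro N hN z hz
    exact Summable.of_norm_bounded (hgs _) (hb N hN z hz)
  have hs : ∀ z, Summable (fun k => F k z) := by
    intro z
    obtain ⟨N, hN⟩ := exists_nat_ge (max ‖z‖ 1)
    have hN1 : 1 ≤ N := by
      have : (1 : ℝ) ≤ N := (le_max_right _ _).trans hN
      exact_mod_cast this
    have hz : z ∈ Metric.closedBall (0 : ℂ) N := by
      rw [mem_closedBall_zero_iff]
      exact (le_max_left _ _).trans hN
    exact (summable_nat_add_iff N).mp (hsN N hN1 z hz)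
  set g : ℂ → ℂ := fun z => (G 0).eval z + ∑' k, F k z with hg
  have hgN : ∀ N z, g z = (G N).eval z + ∑' k, F (k + N) z := by
    intro N z
    rw [hg]
    simp only
    rw [← (hs z).sum_add_tsum_nat_add N]
    have : ∑ k ∈ Finset.range N, F k z = (G N).eval z - (G 0).eval z := by
      rw [hF]
      exact Finset.sum_range_sub (fun m => (G m).eval z) N
    rw [this]
    ring
  refine ⟨g, ?_, ?_⟩
  · intro z
    obtain ⟨N, hN⟩ := exists_nat_gt (max ‖z‖ 1)
    have hN1 : 1 ≤ N := by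
      have : (1 : ℝ) < N := (le_max_right _ _).trans_lt hN
      exact_mod_cast this.le
    have hz : z ∈ Metric.ball (0 : ℂ) N := by
      rw [mem_ball_zero_iff]
      exact (le_max_left _ _).trans_lt hN
    have h1 : DifferentiableOn ℂ (fun z => ∑' k, F (k + N) z) (Metric.ball (0 : ℂ) N) := by
      refine differentiableOn_tsum_of_summable_norm (hgs (a N * (1 / 2) ^ (N + 3))) ?_
        Metric.isOpen_ball ?_
      · intro k
        exact ((G (k + N + 1)).differentiable.sub (G (k + N)).differentiable).differentiableOn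
      · intro k w hw
        exact hb N hN1 w (Metric.ball_subset_closedBall hw) k
    have h2 : DifferentiableOn ℂ g (Metric.ball (0 : ℂ) N) := by
      have h3 : DifferentiableOn ℂ (fun z => (G N).eval z + ∑' k, F (k + N) z)
          (Metric.ball (0 : ℂ) N) := (G N).differentiable.differentiableOn.add h1
      exact h3.congr (fun w _ => hgN N w)
    exact h2.differentiableAt (Metric.isOpen_ball.mem_nhds hz)
  · intro m hm z hz
    rw [hgN m z, add_sub_cancel_left]
    refine (tsum_of_norm_bounded ((hasSum_geometric_of_lt_one (r := (1 / 2 : ℝ)) (by norm_num)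
      (by norm_num)).mul_left (a m * (1 / 2) ^ (m + 3))) (hb m hm z hz)).trans ?_
    have : ((1 : ℝ) / 2) ^ (m + 3) = (1 / 2) ^ (m + 2) * (1 / 2) := by rw [← pow_succ]
    rw [this]
    norm_num
    apply le_of_eq
    ring

private theorem P4_sg_pow (n : ℕ) (z : ℂ) (j : ℕ) : sg n (om ^ j * z) = (-1) ^ j * sg n z := by
  induction j with
  | zero => simp
  | succ j ih =>
    rw [pow_succ', mul_assoc, sg_om, ih, pow_succ]
    ring

private theorem P4_K_pow (m n : ℕ) (θ : ℝ) (z : ℂ) (hz : z ∈ Kset m n θ) (j : ℕ) :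
    om ^ j * z ∈ Kset m n θ := by
  induction j with
  | zero => simpa using hz
  | succ j ih => rw [pow_succ', mul_assoc, om_mem_Kset]; exact ih

/-- There is an entire function `g`, antisymmetric under the rotation by `π / 3`, which is close to
`i π / 2 * sg (n m)` on the ring `m` off a set of small measure, for all `m ≥ 1`. -/
theorem exists_g (n : ℕ → ℕ) (hn : ∀ m, 1 ≤ n m) (η : ℕ → ℝ) (hη : ∀ m, 0 < η m) :
    ∃ g : ℂ → ℂ, Differentiable ℂ g ∧ (∀ z, g (om * z) = - g z) ∧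
      ∀ m : ℕ, 1 ≤ m → volume {z ∈ ring m | ¬ (sg (n m) z ≠ 0 ∧
        ‖g z - I * ((Real.pi / 2 * sg (n m) z : ℝ) : ℂ)‖ ≤ η m)} ≤ ENNReal.ofReal (η m) := by
  classical
  have hθ : ∀ m : ℕ, ∃ θ : ℝ, 0 < θ ∧ θ ≤ 1 / 4 ∧
      (1 ≤ m → volume (ring m \ Kset m (n m) θ) ≤ ENNReal.ofReal (η m)) := by
    intro m
    by_cases hm : 1 ≤ m
    · obtain ⟨θ, h1, h2, h3⟩ := exists_theta m (n m) hm (hn m) (hη m)
      exact ⟨θ, h1, h2, fun _ => h3⟩
    · exact ⟨1 / 4, by norm_num, le_rfl, fun h => absurd h hm⟩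
  choose θ hθ0 hθ1 hθ2 using hθ
  -- the small numbers
  set a : ℕ → ℝ := fun m => (Finset.range (m + 1)).inf' (Finset.nonempty_range_add_one) η with ha
  have ha0 : ∀ m, 0 < a m := by
    intro m
    exact (Finset.lt_inf'_iff _).mpr (fun i _ => hη i)
  have haη : ∀ m, a m ≤ η m := fun m => Finset.inf'_le _ (by simp)
  have ha' : Antitone a := by
    refine antitone_nat_of_succ_le (fun m => ?_)
    rw [ha]
    simp only
    refine Finset.inf'_mono _ ?_ _
    exact Finset.range_mono (by omega)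
  have hex : ∀ (m : ℕ) (G : Polynomial ℂ), ∃ G' : Polynomial ℂ, 1 ≤ m →
      (∀ z ∈ Metric.closedBall (0 : ℂ) m, ‖G'.eval z - G.eval z‖ ≤ a m * (1 / 2) ^ (m + 3)) ∧
      ∀ z ∈ Kset m (n m) (θ m),
        ‖G'.eval z - I * ((Real.pi / 2 * sg (n m) z : ℝ) : ℂ)‖ ≤ a m * (1 / 2) ^ (m + 3) := by
    intro m G
    by_cases hm : 1 ≤ m
    · obtain ⟨G', h1, h2⟩ := P4_step m (n m) hm (hn m) (hθ0 m) (hθ1 m) G
        (δ := a m * (1 / 2) ^ (m + 3)) (mul_pos (ha0 m) (by positivity))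
      exact ⟨G', fun _ => ⟨h1, h2⟩⟩
    · exact ⟨0, fun h => absurd h hm⟩
  choose nxt hnxt using hex
  set G : ℕ → Polynomial ℂ := fun m => Nat.rec 0 (fun m G => nxt m G) m with hG
  have hGs : ∀ m, G (m + 1) = nxt m (G m) := fun m => rfl
  obtain ⟨g0, hg0, hg0'⟩ := P4_lim G a ha' (by
    intro m hm z hz
    rw [hGs]
    exact (hnxt m (G m) hm).1 z hz)
  -- the estimate for g0
  have hest : ∀ m : ℕ, 1 ≤ m → ∀ z ∈ Kset m (n m) (θ m),
      ‖g0 z - I * ((Real.pi / 2 * sg (n m) z : ℝ) : ℂ)‖ ≤ η m := by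
    intro m hm z hz
    have hzr := Kset_subset m (n m) (hθ0 m) hz
    have hzb : z ∈ Metric.closedBall (0 : ℂ) ((m + 1 : ℕ) : ℝ) := by
      rw [mem_closedBall_zero_iff]
      push_cast
      exact hzr.2.le
    have h1 := hg0' (m + 1) (by omega) z hzb
    have h2 := (hnxt m (G m) hm).2 z hz
    rw [← hGs] at h2
    have h3 : ((1 : ℝ) / 2) ^ (m + 1 + 2) ≤ 1 / 2 := by
      calc ((1 : ℝ) / 2) ^ (m + 1 + 2) ≤ (1 / 2) ^ 1 :=
            pow_le_pow_of_le_one (by norm_num) (by norm_num) (by omega)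
        _ = 1 / 2 := by norm_num
    have h4 : a (m + 1) * (1 / 2) ^ (m + 1 + 2) ≤ η m * (1 / 2) :=
      mul_le_mul ((ha' (by omega)).trans (haη m)) h3 (by positivity) (hη m).le
    have h5 : a m * (1 / 2) ^ (m + 3) ≤ η m * (1 / 2) :=
      mul_le_mul (haη m) h3 (by positivity) (hη m).le
    calc ‖g0 z - I * ((Real.pi / 2 * sg (n m) z : ℝ) : ℂ)‖
        = ‖(g0 z - (G (m + 1)).eval z)
          + ((G (m + 1)).eval z - I * ((Real.pi / 2 * sg (n m) z : ℝ) : ℂ))‖ := by congr 1; ring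
      _ ≤ _ := (norm_add_le _ _).trans (by linarith)
  -- symmetrisation
  set g : ℂ → ℂ := fun z => (1 / 6 : ℂ) * ∑ j ∈ Finset.range 6, (-1 : ℂ) ^ j * g0 (om ^ j * z)
    with hg
  have hom6 : om ^ 6 = 1 := by
    have : om ^ 6 = (om ^ 3) ^ 2 := by ring
    rw [this, om_pow_three]; norm_num
  refine ⟨g, ?_, ?_, ?_⟩
  · rw [hg]
    fun_prop
  · intro z
    rw [hg]
    simp only [Finset.sum_range_succ, Finset.sum_range_zero]
    have e1 : ∀ j : ℕ, om ^ j * (om * z) = om ^ (j + 1) * z := fun j => by rw [pow_succ]; ring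
    simp only [e1, hom6]
    norm_num
    ring
  · intro m hm
    refine le_trans (measure_mono ?_) (hθ2 m hm)
    intro z hz
    obtain ⟨hz1, hz2⟩ := hz
    refine ⟨hz1, fun hzK => hz2 ⟨sg_ne_zero m (n m) hm (hθ0 m) hzK, ?_⟩⟩
    have h1 : g z - I * ((Real.pi / 2 * sg (n m) z : ℝ) : ℂ)
        = (1 / 6 : ℂ) * ∑ j ∈ Finset.range 6, (-1 : ℂ) ^ j *
          (g0 (om ^ j * z) - I * ((Real.pi / 2 * sg (n m) (om ^ j * z) : ℝ) : ℂ)) := by
      have h2 : ∀ j ∈ Finset.range 6, (-1 : ℂ) ^ j *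
          (g0 (om ^ j * z) - I * ((Real.pi / 2 * sg (n m) (om ^ j * z) : ℝ) : ℂ))
          = (-1 : ℂ) ^ j * g0 (om ^ j * z) - I * ((Real.pi / 2 * sg (n m) z : ℝ) : ℂ) := by
        intro j _
        rw [P4_sg_pow]
        have h3 : ((-1 : ℂ) ^ j) * (-1) ^ j = 1 := by
          rw [← mul_pow]; norm_num
        push_cast
        linear_combination (-(I * (Real.pi / 2 * (sg (n m) z : ℂ)))) * h3
      rw [Finset.sum_congr rfl h2, Finset.sum_sub_distrib, hg]
      simp only [Finset.sum_const, Finset.card_range, nsmul_eq_mul]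
      push_cast
      ring
    rw [h1, norm_mul]
    have h4 : ‖∑ j ∈ Finset.range 6, (-1 : ℂ) ^ j *
          (g0 (om ^ j * z) - I * ((Real.pi / 2 * sg (n m) (om ^ j * z) : ℝ) : ℂ))‖
        ≤ ∑ j ∈ Finset.range 6, η m := by
      refine (norm_sum_le _ _).trans (Finset.sum_le_sum (fun j _ => ?_))
      rw [norm_mul, norm_pow, norm_neg, norm_one, one_pow, one_mul]
      exact hest m hm _ (P4_K_pow m (n m) (θ m) z hzK j)
    rw [Finset.sum_const, Finset.card_range, nsmul_eq_mul] at h4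
    have h5 : ‖(1 / 6 : ℂ)‖ = 1 / 6 := by norm_num
    have h6 : ((6 : ℕ) : ℝ) = 6 := by norm_num
    rw [h5]
    rw [h6] at h4
    linarith

end Pool.Agent.StatSurf
end
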