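import Pool.Agent.Lib.MP_fcf01e_gt.S3a
import Pool.Agent.Lib.MP_fcf01e_gt.Mg.G002
import Pool.Agent.Lib.MP_fcf01e_gt.R4
import Pool.Agent.Lib.MP_fcf01e_gt.S3
import Pool.Agent.Lib.MP_fcf01e_gt.H3

section

/-! # Task S4: decay of the imaginary part of the solution -/

open Complex MeasureTheory

namespace Pool.Agent.StatSurf

private lemma S4_ring_subset (m : ℕ) : ring m ⊆ Metric.ball 0 ((m : ℝ) + 1) := by
  intro z hz
  rw [mem_ball_zero_iff]
  exact hz.2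

private lemma S4_vol (m : ℕ) : volume (ring m) < ⊤ := by
  rw [volume_ring]
  exact ENNReal.ofReal_lt_top

private lemma S4_int (m : ℕ) {F : ℂ → ℂ} (hF : Measurable F) {M : ℝ}
    (hM : ∀ ζ ∈ ring m, ‖F ζ‖ ≤ M) (z : ℂ) :
    IntegrableOn (fun ζ => F ζ * (z - ζ)⁻¹) (ring m) := by
  have h1 : IntegrableOn (fun ζ => (z - ζ)⁻¹) (ring m) :=
    (integrableOn_inv z ((m : ℝ) + 1)).mono_set (S4_ring_subset m)
  refine Integrable.bdd_mul (c := M) h1 hF.aestronglyMeasurable.restrict ?_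
  rw [ae_restrict_iff' (measurableSet_ring m)]
  exact Filter.Eventually.of_forall hM

private lemma S4_bdd (m : ℕ) {F : ℂ → ℂ} (hF : Measurable F) {M : ℝ}
    (hM : ∀ ζ ∈ ring m, ‖F ζ‖ ≤ M) : IntegrableOn F (ring m) := by
  refine Measure.integrableOn_of_bounded (M := M) (S4_vol m).ne hF.aestronglyMeasurable ?_
  rw [ae_restrict_iff' (measurableSet_ring m)]
  exact Filter.Eventually.of_forall hM

private lemma S4_om_change (m : ℕ) (F : ℂ → ℂ) :
    ∫ ζ in ring m, F (om * ζ) = ∫ ζ in ring m, F ζ := by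
  have hc : om ∈ Metric.sphere (0 : ℂ) 1 := by
    rw [mem_sphere_zero_iff_norm]
    exact norm_om
  have h1 := (rotation ⟨om, hc⟩).measurePreserving
  have h2 : MeasurableEmbedding (rotation ⟨om, hc⟩) :=
    (rotation ⟨om, hc⟩).toHomeomorph.measurableEmbedding
  have h3 := h1.setIntegral_preimage_emb h2 F (ring m)
  have h4 : (rotation ⟨om, hc⟩) ⁻¹' ring m = ring m := by
    ext ζ
    exact om_mem_ring m ζ
  rw [h4] at h3
  exact h3

private lemma S4_om_re : om.re = 1 / 2 := by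
  unfold om
  rw [Complex.exp_ofReal_mul_I_re]
  exact Real.cos_pi_div_three

private lemma S4_om_ne (j : ℕ) (hj : j ≤ 2) : 1 + om ^ j ≠ 0 := by
  have h3 := om_pow_three
  have hre := S4_om_re
  have h1 : om ≠ -1 := by
    intro h
    rw [h] at hre
    norm_num at hre
  interval_cases j
  · norm_num
  · intro h
    apply h1
    linear_combination h
  · intro h
    have h5 : om = 1 := by
      linear_combination (om - 0) * h - h3
    rw [h5] at hre
    norm_num at hre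

private lemma S4_im_norm (w : ℂ) : ‖((w.im : ℝ) : ℂ)‖ ≤ ‖w‖ := by
  rw [Complex.norm_real]
  exact Complex.abs_im_le_norm w

private lemma S4_meas {f : ℂ → ℂ} (hf : Measurable f) : Measurable (fun ζ => ((f ζ).im : ℂ)) :=
  Complex.measurable_ofReal.comp (Complex.measurable_im.comp hf)

/-- The first moments of the imaginary part of a symmetric function vanish. -/
theorem moment_zero (m : ℕ) {f : ℂ → ℂ} (hf : Measurable f) {M : ℝ}
    (hM : ∀ ζ ∈ ring m, ‖f ζ‖ ≤ M) (hs : ∀ ζ, f (om * ζ) = (starRingEnd ℂ) (f ζ)) (j : ℕ)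
    (hj : j ≤ 2) : ∫ ζ in ring m, ((f ζ).im : ℂ) * ζ ^ j = 0 := by
  have h1 := S4_om_change m (fun ζ => ((f ζ).im : ℂ) * ζ ^ j)
  have h2 : (fun ζ => ((f (om * ζ)).im : ℂ) * (om * ζ) ^ j) =
      fun ζ => (- om ^ j) * (((f ζ).im : ℂ) * ζ ^ j) := by
    funext ζ
    rw [hs ζ, mul_pow, Complex.conj_im]
    push_cast
    ring
  rw [h2, integral_const_mul] at h1
  have h3 : (1 + om ^ j) * ∫ ζ in ring m, ((f ζ).im : ℂ) * ζ ^ j = 0 := by
    linear_combination -h1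
  rcases mul_eq_zero.1 h3 with h | h
  · exact absurd h (S4_om_ne j hj)
  · exact h

private lemma S4_int_pow (m : ℕ) {f : ℂ → ℂ} (hf : Measurable f) {M : ℝ}
    (hM : ∀ ζ ∈ ring m, ‖f ζ‖ ≤ M) (j : ℕ) (a : ℂ) :
    IntegrableOn (fun ζ => a * (((f ζ).im : ℂ) * ζ ^ j)) (ring m) := by
  refine (S4_bdd m (F := fun ζ => ((f ζ).im : ℂ) * ζ ^ j) (M := |M| * ((m : ℝ) + 1) ^ j)
    ((S4_meas hf).mul (measurable_id.pow_const j)) ?_).const_mul a
  intro ζ hζ
  rw [norm_mul, norm_pow]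
  have h1 := (S4_im_norm (f ζ)).trans ((hM ζ hζ).trans (le_abs_self M))
  have h2 : ‖ζ‖ ^ j ≤ ((m : ℝ) + 1) ^ j := pow_le_pow_left₀ (norm_nonneg _) hζ.2.le j
  exact mul_le_mul h1 h2 (by positivity) (abs_nonneg _)

/-- Subtracting the first moments from the Cauchy kernel. -/
theorem im_kernel (m : ℕ) {f : ℂ → ℂ} (hf : Measurable f) {M : ℝ}
    (hM : ∀ ζ ∈ ring m, ‖f ζ‖ ≤ M) (hs : ∀ ζ, f (om * ζ) = (starRingEnd ℂ) (f ζ)) {z : ℂ}
    (hz : (m : ℝ) + 1 < ‖z‖) :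
    ∫ ζ in ring m, ((f ζ).im : ℂ) * (z - ζ)⁻¹ =
      ∫ ζ in ring m, ((f ζ).im : ℂ) * (ζ ^ 3 / (z ^ 3 * (z - ζ))) := by
  have hz0 : z ≠ 0 := by
    intro h
    rw [h, norm_zero] at hz
    have : (0 : ℝ) ≤ m := Nat.cast_nonneg m
    linarith
  have hne : ∀ ζ ∈ ring m, z - ζ ≠ 0 := by
    intro ζ hζ h
    have : z = ζ := sub_eq_zero.1 h
    rw [this] at hz
    have := hζ.2
    linarith
  have hM' : ∀ ζ ∈ ring m, ‖((f ζ).im : ℂ)‖ ≤ M := fun ζ hζ => (S4_im_norm _).trans (hM ζ hζ)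
  have hI := S4_int m (S4_meas hf) hM' z
  have h0 := S4_int_pow m hf hM 0 z⁻¹
  have h1 := S4_int_pow m hf hM 1 (z ^ 2)⁻¹
  have h2 := S4_int_pow m hf hM 2 (z ^ 3)⁻¹
  have hpt : ∀ ζ ∈ ring m, ((f ζ).im : ℂ) * (ζ ^ 3 / (z ^ 3 * (z - ζ))) =
      ((f ζ).im : ℂ) * (z - ζ)⁻¹ - z⁻¹ * (((f ζ).im : ℂ) * ζ ^ 0) -
        (z ^ 2)⁻¹ * (((f ζ).im : ℂ) * ζ ^ 1) - (z ^ 3)⁻¹ * (((f ζ).im : ℂ) * ζ ^ 2) := by
    intro ζ hζ
    have := hne ζ hζ
    field_simp
    ring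
  rw [setIntegral_congr_fun (measurableSet_ring m) hpt]
  have k0 : IntegrableOn (fun ζ => ((f ζ).im : ℂ) * (z - ζ)⁻¹ - z⁻¹ * (((f ζ).im : ℂ) * ζ ^ 0))
    (ring m) := hI.sub h0
  have k1 : IntegrableOn (fun ζ => ((f ζ).im : ℂ) * (z - ζ)⁻¹ - z⁻¹ * (((f ζ).im : ℂ) * ζ ^ 0) -
    (z ^ 2)⁻¹ * (((f ζ).im : ℂ) * ζ ^ 1)) (ring m) := k0.sub h1
  rw [integral_sub k1 h2, integral_sub k0 h1, integral_sub hI h0,
    integral_const_mul, integral_const_mul, integral_const_mul,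
    moment_zero m hf hM hs 0 (by norm_num), moment_zero m hf hM hs 1 (by norm_num),
    moment_zero m hf hM hs 2 le_rfl]
  ring

private lemma S4_symm {g : ℂ → ℂ} {c : ℝ} {w : ℂ → ℂ} (hg : Phase g) (hw : Sol g c w) (ζ : ℂ) :
    (fun ζ => mu g ζ * exp (w ζ)) (om * ζ) = (starRingEnd ℂ) ((fun ζ => mu g ζ * exp (w ζ)) ζ) := by
  simp only
  rw [mu_om hg.anti, hw.sym, map_mul, ← Complex.exp_conj]

private lemma S4_bound {g : ℂ → ℂ} {c : ℝ} {w : ℂ → ℂ} (hw : Sol g c w) (m : ℕ) :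
    ∀ ζ ∈ ring m, ‖mu g ζ * exp (w ζ)‖ ≤ 1 * ((m : ℝ) + 4) ^ 2 :=
  (adm_exp hw.cls).bound_ring g m

private lemma S4_meas' {g : ℂ → ℂ} {c : ℝ} {w : ℂ → ℂ} (hg : Phase g) (hw : Sol g c w) :
    Measurable (fun ζ => mu g ζ * exp (w ζ)) :=
  (adm_exp hw.cls).measurable hg.diff

private lemma S4_im_eq (w : ℂ) : ((w.im : ℝ) : ℂ) = (w - (starRingEnd ℂ) w) / (2 * I) := by
  rw [Complex.sub_conj]
  field_simp
  push_cast
  ring

/-- splitting `Im f = (f - conj f) / (2 i)` in an integral -/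
private lemma S4_split (m : ℕ) {f k : ℂ → ℂ} (h1 : IntegrableOn (fun ζ => f ζ * k ζ) (ring m))
    (h2 : IntegrableOn (fun ζ => f ζ * (starRingEnd ℂ) (k ζ)) (ring m)) {A : ℝ}
    (ha : ‖∫ ζ in ring m, f ζ * k ζ‖ ≤ A)
    (hb : ‖∫ ζ in ring m, f ζ * (starRingEnd ℂ) (k ζ)‖ ≤ A) :
    ‖∫ ζ in ring m, ((f ζ).im : ℂ) * k ζ‖ ≤ A := by
  have e1 : ∀ ζ, ((f ζ).im : ℂ) * k ζ = (2 * I)⁻¹ * (f ζ * k ζ) -
      (2 * I)⁻¹ * (starRingEnd ℂ) (f ζ * (starRingEnd ℂ) (k ζ)) := by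
    intro ζ
    rw [S4_im_eq, map_mul, Complex.conj_conj]
    ring
  have h3 : IntegrableOn (fun ζ => (2 * I)⁻¹ * (starRingEnd ℂ) (f ζ * (starRingEnd ℂ) (k ζ)))
      (ring m) := by
    have := (conjCLE : ℂ →L[ℝ] ℂ).integrable_comp h2
    exact this.const_mul _
  simp_rw [e1]
  rw [integral_sub (h1.const_mul _) h3, integral_const_mul, integral_const_mul, integral_conj]
  have hn : ‖((2 : ℂ) * I)⁻¹‖ = 1 / 2 := by
    rw [norm_inv, norm_mul, Complex.norm_I]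
    norm_num
  calc _ ≤ ‖(2 * I)⁻¹ * ∫ ζ in ring m, f ζ * k ζ‖ +
        ‖(2 * I)⁻¹ * (starRingEnd ℂ) (∫ ζ in ring m, f ζ * (starRingEnd ℂ) (k ζ))‖ :=
        norm_sub_le _ _
    _ ≤ 1 / 2 * A + 1 / 2 * A := by
        rw [norm_mul, norm_mul, hn, RCLike.norm_conj]
        gcongr
    _ = A := by ring

private lemma S4_J_far {g : ℂ → ℂ} {c : ℝ} {w : ℂ → ℂ} (hg : Phase g) (hw : Sol g c w) (m : ℕ)
    (hm : 1 ≤ m) (z : ℂ) (hz : 2 * ((m : ℝ) + 1) ≤ ‖z‖) :
    ‖∫ ζ in ring m, ((mu g ζ * exp (w ζ)).im : ℂ) * (z - ζ)⁻¹‖ ≤ (1 / 2) ^ m / ‖z‖ ^ 4 := by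
  have hm0 : (0 : ℝ) ≤ m := Nat.cast_nonneg m
  have hz0 : 0 < ‖z‖ := by linarith
  have h1 := im_kernel m (S4_meas' hg hw) (S4_bound hw m) (S4_symm hg hw) (z := z)
    (by linarith)
  rw [h1]
  have hr := (adm_exp hw.cls).radLip m
  have hk : Measurable (fun z => exp (w z)) := (adm_exp hw.cls).c1.continuous.measurable
  have b1 := hg.ring3 m hm _ _ hk hr (ContinuousLinearMap.id ℝ ℂ)
    ContinuousLinearMap.norm_id_le z hz
  have b2 := hg.ring3 m hm _ _ hk hr (conjCLE : ℂ →L[ℝ] ℂ) (by simp) z hz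
  have e1 : tt m * (1 * ((m : ℝ) + 4) ^ 2) / ‖z‖ ^ 4 = (1 / 2) ^ m / ‖z‖ ^ 4 := by
    unfold tt
    have : (m : ℝ) + 4 ≠ 0 := by positivity
    field_simp
  rw [e1] at b1 b2
  have hbd : ∀ ζ ∈ ring m, ‖ζ ^ 3 / (z ^ 3 * (z - ζ))‖ ≤ 1 := by
    intro ζ hζ
    have h2 : ‖z‖ / 2 ≤ ‖z - ζ‖ := by
      have := norm_sub_norm_le z ζ
      have := hζ.2
      linarith
    rw [norm_div, norm_mul, norm_pow, norm_pow]
    have h3 : ‖ζ‖ ≤ ‖z‖ / 2 := by linarith [hζ.2]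
    have h3' : 0 < ‖z - ζ‖ := by linarith
    rw [div_le_one (by positivity)]
    have h4 : ‖ζ‖ ^ 3 ≤ (‖z‖ / 2) ^ 3 := pow_le_pow_left₀ (norm_nonneg _) h3 3
    have h5 : 1 ≤ ‖z - ζ‖ := by linarith
    have h6 : (‖z‖ / 2) ^ 3 ≤ ‖z‖ ^ 3 := pow_le_pow_left₀ (by positivity) (by linarith) 3
    nlinarith [pow_pos hz0 3]
  have hmk : Measurable (fun ζ : ℂ => ζ ^ 3 / (z ^ 3 * (z - ζ))) := by fun_prop
  have i1 : IntegrableOn (fun ζ => (mu g ζ * exp (w ζ)) * (ζ ^ 3 / (z ^ 3 * (z - ζ)))) (ring m) := by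
    refine S4_bdd m (M := (1 * ((m : ℝ) + 4) ^ 2) * 1) ((S4_meas' hg hw).mul hmk) ?_
    intro ζ hζ
    rw [norm_mul]
    exact mul_le_mul (S4_bound hw m ζ hζ) (hbd ζ hζ) (norm_nonneg _) (by positivity)
  have i2 : IntegrableOn (fun ζ => (mu g ζ * exp (w ζ)) *
      (starRingEnd ℂ) (ζ ^ 3 / (z ^ 3 * (z - ζ)))) (ring m) := by
    refine S4_bdd m (M := (1 * ((m : ℝ) + 4) ^ 2) * 1)
      ((S4_meas' hg hw).mul (Complex.continuous_conj.measurable.comp hmk)) ?_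
    intro ζ hζ
    rw [norm_mul]
    refine mul_le_mul (S4_bound hw m ζ hζ) ?_ (norm_nonneg _) (by positivity)
    rw [RCLike.norm_conj]
    exact hbd ζ hζ
  exact S4_split m i1 i2 b1 b2

private lemma S4_J_zero {g : ℂ → ℂ} {c : ℝ} {w : ℂ → ℂ} (hg : Phase g) (hw : Sol g c w)
    (z : ℂ) (hz : 2 ≤ ‖z‖) :
    ‖∫ ζ in ring 0, ((mu g ζ * exp (w ζ)).im : ℂ) * (z - ζ)⁻¹‖ ≤ 128 / ‖z‖ ^ 4 := by
  have hz0 : 0 < ‖z‖ := by linarith
  have h1 := im_kernel 0 (S4_meas' hg hw) (S4_bound hw 0) (S4_symm hg hw) (z := z)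
    (by norm_num; linarith)
  rw [h1]
  have hb : ∀ ζ ∈ ring 0, ‖((mu g ζ * exp (w ζ)).im : ℂ) * (ζ ^ 3 / (z ^ 3 * (z - ζ)))‖ ≤
      32 / ‖z‖ ^ 4 := by
    intro ζ hζ
    have hζ1 : ‖ζ‖ ≤ 1 := by
      have := hζ.2
      norm_num at this
      exact this.le
    have h2 : ‖z‖ / 2 ≤ ‖z - ζ‖ := by
      have := norm_sub_norm_le z ζ
      linarith
    have h3 := (S4_im_norm _).trans (S4_bound hw 0 ζ hζ)
    rw [norm_mul, norm_div, norm_mul, norm_pow, norm_pow]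
    have h4 : ‖ζ‖ ^ 3 ≤ 1 := pow_le_one₀ (norm_nonneg _) hζ1
    have h5 : ‖ζ‖ ^ 3 / (‖z‖ ^ 3 * ‖z - ζ‖) ≤ 1 / (‖z‖ ^ 3 * (‖z‖ / 2)) := by
      gcongr
    calc _ ≤ (1 * (((0 : ℕ) : ℝ) + 4) ^ 2) * (1 / (‖z‖ ^ 3 * (‖z‖ / 2))) :=
          mul_le_mul h3 h5 (by positivity) (by positivity)
      _ = 32 / ‖z‖ ^ 4 := by
          field_simp
          norm_num
  have h6 := norm_setIntegral_le_of_norm_le_const (S4_vol 0) hb
  refine h6.trans ?_
  have h7 : volume.real (ring 0) = Real.pi := by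
    rw [Measure.real, volume_ring, ENNReal.toReal_ofReal (by positivity)]
    norm_num
  rw [h7, div_mul_eq_mul_div]
  have := Real.pi_lt_four
  gcongr
  linarith

private lemma S4_J_near {g : ℂ → ℂ} {c : ℝ} {w : ℂ → ℂ} (hg : Phase g) (hw : Sol g c w) (m : ℕ)
    (hm : 1 ≤ m) (z : ℂ) :
    ‖∫ ζ in ring m, ((mu g ζ * exp (w ζ)).im : ℂ) * (z - ζ)⁻¹‖ ≤ (1 / 2) ^ m := by
  obtain ⟨b1, b2, -⟩ := norm_V_le hg (adm_exp hw.cls) m hm z
  have e1 : (1 / 2 : ℝ) ^ m * 1 / (1 + ‖z‖) ≤ (1 / 2) ^ m := by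
    rw [mul_one]
    exact div_le_self (by positivity) (by linarith [norm_nonneg z])
  have i1 := S4_int m (S4_meas' hg hw) (S4_bound hw m) z
  have i2 : IntegrableOn (fun ζ => (mu g ζ * exp (w ζ)) * (starRingEnd ℂ) ((z - ζ)⁻¹)) (ring m) := by
    have h1 : IntegrableOn (fun ζ => (z - ζ)⁻¹) (ring m) :=
      (integrableOn_inv z ((m : ℝ) + 1)).mono_set (S4_ring_subset m)
    have h2 := (conjCLE : ℂ →L[ℝ] ℂ).integrable_comp h1
    refine Integrable.bdd_mul (c := 1 * ((m : ℝ) + 4) ^ 2) h2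
      (S4_meas' hg hw).aestronglyMeasurable.restrict ?_
    rw [ae_restrict_iff' (measurableSet_ring m)]
    exact Filter.Eventually.of_forall (S4_bound hw m)
  exact S4_split m i1 i2 (b1.trans e1) (b2.trans e1)

/-- the imaginary part of `dpot` -/
private lemma S4_dpot_im (m : ℕ) {f : ℂ → ℂ} (hf : Measurable f) {M : ℝ}
    (hM : ∀ ζ ∈ ring m, ‖f ζ‖ ≤ M) (z h : ℂ) :
    (dpot m f z h).im = (h * ∫ ζ in ring m, ((f ζ).im : ℂ) * (z - ζ)⁻¹).re := by
  have hM' : ∀ ζ ∈ ring m, ‖((f ζ).im : ℂ)‖ ≤ M := fun ζ hζ => (S4_im_norm _).trans (hM ζ hζ)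
  have h1 : IntegrableOn (fun ζ => (z - ζ)⁻¹) (ring m) :=
    (integrableOn_inv z ((m : ℝ) + 1)).mono_set (S4_ring_subset m)
  have h2 : IntegrableOn (fun ζ => ((((h * (z - ζ)⁻¹).re : ℝ)) : ℂ)) (ring m) :=
    (ofRealCLM.comp reCLM).integrable_comp (h1.const_mul h)
  have h3 : IntegrableOn (fun ζ => f ζ * (((h * (z - ζ)⁻¹).re : ℝ) : ℂ)) (ring m) := by
    refine Integrable.bdd_mul (c := M) h2 hf.aestronglyMeasurable.restrict ?_
    rw [ae_restrict_iff' (measurableSet_ring m)]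
    exact Filter.Eventually.of_forall hM
  have h4 : IntegrableOn (fun ζ => h * (((f ζ).im : ℂ) * (z - ζ)⁻¹)) (ring m) :=
    (S4_int m (S4_meas hf) hM' z).const_mul h
  rw [dpot_apply m hf hM, ← integral_const_mul]
  have e1 : (∫ ζ in ring m, f ζ * (((h * (z - ζ)⁻¹).re : ℝ) : ℂ)).im =
      ∫ ζ in ring m, (f ζ * (((h * (z - ζ)⁻¹).re : ℝ) : ℂ)).im := (integral_im h3).symm
  have e2 : (∫ ζ in ring m, h * (((f ζ).im : ℂ) * (z - ζ)⁻¹)).re =
      ∫ ζ in ring m, (h * (((f ζ).im : ℂ) * (z - ζ)⁻¹)).re := (integral_re h4).symm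
  rw [e1, e2]
  congr 1
  funext ζ
  have : h * (((f ζ).im : ℂ) * (z - ζ)⁻¹) = ((f ζ).im : ℂ) * (h * (z - ζ)⁻¹) := by ring
  rw [this, Complex.re_ofReal_mul, mul_comm (f ζ), Complex.im_ofReal_mul]
  ring

private lemma S4_J {g : ℂ → ℂ} {c : ℝ} {w : ℂ → ℂ} (hg : Phase g) (hw : Sol g c w) (m : ℕ)
    (z : ℂ) (hz : 2 ≤ ‖z‖) :
    ‖∫ ζ in ring m, ((mu g ζ * exp (w ζ)).im : ℂ) * (z - ζ)⁻¹‖ ≤
      256 * (((m + 1 : ℕ) : ℝ) ^ 4 * (1 / 2) ^ (m + 1)) / ‖z‖ ^ 4 := by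
  have hz0 : 0 < ‖z‖ := by linarith
  have hm0 : (0 : ℝ) ≤ m := Nat.cast_nonneg m
  rcases Nat.eq_zero_or_pos m with rfl | hm
  · refine (S4_J_zero hg hw z hz).trans ?_
    gcongr
    norm_num
  · by_cases h : 2 * ((m : ℝ) + 1) ≤ ‖z‖
    · refine (S4_J_far hg hw m hm z h).trans ?_
      gcongr
      rw [pow_succ (1 / 2 : ℝ)]
      push_cast
      have h1 : (1 : ℝ) ≤ ((m : ℝ) + 1) ^ 4 := one_le_pow₀ (by linarith)
      have h2 : (0 : ℝ) < (1 / 2) ^ m := by positivity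
      nlinarith
    · refine (S4_J_near hg hw m hm z).trans ?_
      push Not at h
      rw [le_div_iff₀ (by positivity), pow_succ (1 / 2 : ℝ)]
      push_cast
      have h1 : ‖z‖ ^ 4 ≤ (2 * ((m : ℝ) + 1)) ^ 4 := pow_le_pow_left₀ hz0.le h.le 4
      have h2 : (0 : ℝ) < (1 / 2) ^ m := by positivity
      have h3 : (0 : ℝ) ≤ ((m : ℝ) + 1) ^ 4 := by positivity
      have h4 : (2 * ((m : ℝ) + 1)) ^ 4 = 16 * ((m : ℝ) + 1) ^ 4 := by ring
      rw [h4] at h1
      have h5 := mul_le_mul_of_nonneg_left h1 h2.le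
      nlinarith [mul_nonneg h2.le h3]

private lemma S4_grad_aux {g : ℂ → ℂ} {c : ℝ} {w : ℂ → ℂ} (hw : Sol g c w) (z h : ℂ) :
    HasSum (fun m => ((-c) * (dpot m (fun ζ => mu g ζ * exp (w ζ)) z h).im))
      (fderiv ℝ w z h).im := by
  have hsum := hw.eqn z
  have h1 := (imCLM.comp (ContinuousLinearMap.apply ℝ ℂ h)).hasSum hsum
  have e1 : (fun m => ((-c) * (dpot m (fun ζ => mu g ζ * exp (w ζ)) z h).im)) =
      fun m => (imCLM.comp (ContinuousLinearMap.apply ℝ ℂ h))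
        ((-c) • dpot m (fun ζ => mu g ζ * exp (w ζ)) z) := by
    funext m
    rw [map_smul, smul_eq_mul]
    rfl
  rw [e1]
  exact h1

private lemma S4_grad_term {g : ℂ → ℂ} {c : ℝ} {w : ℂ → ℂ} (hg : Phase g) (hw : Sol g c w) (m : ℕ)
    (z h : ℂ) (hz : 2 ≤ ‖z‖) :
    ‖((-c) * (dpot m (fun ζ => mu g ζ * exp (w ζ)) z h).im)‖ ≤
      (|c| * 256 / ‖z‖ ^ 4 * ‖h‖) * (((m + 1 : ℕ) : ℝ) ^ 4 * (1 / 2 : ℝ) ^ (m + 1)) := by
  rw [S4_dpot_im m (S4_meas' hg hw) (S4_bound hw m), Real.norm_eq_abs, abs_mul, abs_neg]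
  have h1 : |(h * ∫ ζ in ring m, ((mu g ζ * exp (w ζ)).im : ℂ) * (z - ζ)⁻¹).re| ≤
      ‖h‖ * (256 * (((m + 1 : ℕ) : ℝ) ^ 4 * (1 / 2) ^ (m + 1)) / ‖z‖ ^ 4) := by
    refine (Complex.abs_re_le_norm _).trans ?_
    rw [norm_mul]
    exact mul_le_mul_of_nonneg_left (S4_J hg hw m z hz) (norm_nonneg _)
  calc _ ≤ |c| * (‖h‖ * (256 * (((m + 1 : ℕ) : ℝ) ^ 4 * (1 / 2) ^ (m + 1)) / ‖z‖ ^ 4)) :=
        mul_le_mul_of_nonneg_left h1 (abs_nonneg _)
    _ = _ := by ring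

/-- `|D (Im w) (z)| ≤ C / |z| ^ 4`. -/
theorem Sol.grad_im {g : ℂ → ℂ} {c : ℝ} {w : ℂ → ℂ} (hg : Phase g) (hw : Sol g c w) :
    ∃ C : ℝ, ∀ z : ℂ, 2 ≤ ‖z‖ → ‖fderiv ℝ (fun ζ => (w ζ).im) z‖ ≤ C / ‖z‖ ^ 4 := by
  have hs : Summable (fun m : ℕ => (m : ℝ) ^ 4 * (1 / 2 : ℝ) ^ m) :=
    summable_pow_mul_geometric_of_norm_lt_one 4 (by norm_num)
  have hs1 : Summable (fun m : ℕ => ((m + 1 : ℕ) : ℝ) ^ 4 * (1 / 2 : ℝ) ^ (m + 1)) :=
    (summable_nat_add_iff 1).2 hs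
  obtain ⟨S, hS⟩ := hs1
  have hS0 : 0 ≤ S := hS.nonneg fun m => by positivity
  refine ⟨|c| * (256 * S), fun z hz => ?_⟩
  have hz0 : 0 < ‖z‖ := by linarith
  have hd : DifferentiableAt ℝ w z := (hw.cls.c1.differentiable (by norm_num)) z
  have e1 : fderiv ℝ (fun ζ => (w ζ).im) z = imCLM.comp (fderiv ℝ w z) :=
    (imCLM.hasFDerivAt.comp z hd.hasFDerivAt).fderiv
  rw [e1]
  refine ContinuousLinearMap.opNorm_le_bound _ (by positivity) fun h => ?_
  have key := (S4_grad_aux hw z h).norm_le_of_bounded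
    (hS.mul_left (|c| * 256 / ‖z‖ ^ 4 * ‖h‖)) (fun m => S4_grad_term hg hw m z h hz)
  calc ‖(imCLM.comp (fderiv ℝ w z)) h‖ = ‖(fderiv ℝ w z h).im‖ := rfl
    _ ≤ (|c| * 256 / ‖z‖ ^ 4 * ‖h‖) * S := key
    _ = _ := by ring

/-- `|Im w (z)| ≤ C / |z| ^ 3`: use `Im w (om z) = - Im w z` and the arc from `z` to `om z`. -/
theorem Sol.im_decay {g : ℂ → ℂ} {c : ℝ} {w : ℂ → ℂ} (hg : Phase g) (hw : Sol g c w) :
    ∃ C : ℝ, ∀ z : ℂ, 2 ≤ ‖z‖ → |(w z).im| ≤ C / ‖z‖ ^ 3 := by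
  obtain ⟨C, hC⟩ := hw.grad_im hg
  refine ⟨Real.pi / 6 * C, fun z hz => ?_⟩
  have hz0 : 0 < ‖z‖ := by linarith
  have hdiff : Differentiable ℝ (fun ζ => (w ζ).im) :=
    imCLM.differentiable.comp (hw.cls.c1.differentiable (by norm_num))
  obtain ⟨γ, hγ⟩ : ∃ γ : ℝ → ℂ, γ = fun t => z * Complex.exp (((Real.pi / 3 * t : ℝ) : ℂ) * I) :=
    ⟨_, rfl⟩
  have hγn : ∀ t, ‖γ t‖ = ‖z‖ := by
    intro t
    rw [hγ]
    simp only
    rw [norm_mul, Complex.norm_exp_ofReal_mul_I, mul_one]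
  have hγd : ∀ t, HasDerivAt γ (γ t * ((Real.pi / 3 : ℝ) * I)) t := by
    intro t
    have h1 : HasDerivAt (fun t : ℝ => Real.pi / 3 * t) (Real.pi / 3) t := by
      simpa using (hasDerivAt_id t).const_mul (Real.pi / 3)
    have h2 : HasDerivAt (fun t : ℝ => (((Real.pi / 3 * t : ℝ)) : ℂ) * I)
        ((Real.pi / 3 : ℝ) * I) t := (h1.ofReal_comp).mul_const I
    have h3 := (h2.cexp).const_mul z
    have e3 : z * (cexp (((Real.pi / 3 * t : ℝ) : ℂ) * I) * ((Real.pi / 3 : ℝ) * I)) =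
        γ t * ((Real.pi / 3 : ℝ) * I) := by
      rw [hγ]
      ring
    rw [← e3, hγ]
    exact h3
  have hud : ∀ t, HasDerivAt (fun t => (w (γ t)).im)
      (fderiv ℝ (fun ζ => (w ζ).im) (γ t) (γ t * ((Real.pi / 3 : ℝ) * I))) t := by
    intro t
    exact (hdiff (γ t)).hasFDerivAt.comp_hasDerivAt t (hγd t)
  have hbd : ∀ t ∈ Set.Ico (0 : ℝ) 1,
      ‖fderiv ℝ (fun ζ => (w ζ).im) (γ t) (γ t * ((Real.pi / 3 : ℝ) * I))‖ ≤
        Real.pi / 3 * C / ‖z‖ ^ 3 := by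
    intro t _
    refine (ContinuousLinearMap.le_opNorm _ _).trans ?_
    have h1 := hC (γ t) (by rw [hγn]; exact hz)
    rw [hγn] at h1
    have h2 : ‖γ t * ((Real.pi / 3 : ℝ) * I)‖ = ‖z‖ * (Real.pi / 3) := by
      rw [norm_mul, norm_mul, hγn, Complex.norm_I, Complex.norm_real, Real.norm_eq_abs,
        abs_of_pos (by positivity)]
      ring
    rw [h2]
    calc _ ≤ C / ‖z‖ ^ 4 * (‖z‖ * (Real.pi / 3)) :=
          mul_le_mul_of_nonneg_right h1 (by positivity)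
      _ = _ := by
          field_simp
  have key := norm_image_sub_le_of_norm_deriv_le_segment_01'
    (fun t _ => (hud t).hasDerivWithinAt) hbd
  have e0 : γ 0 = z := by
    rw [hγ]
    simp
  have e1 : γ 1 = om * z := by
    rw [hγ]
    unfold om
    simp only [mul_one]
    ring
  rw [e0, e1, hw.sym, Complex.conj_im, Real.norm_eq_abs] at key
  have h3 : |(-(w z).im) - (w z).im| = 2 * |(w z).im| := by
    rw [show (-(w z).im) - (w z).im = -(2 * (w z).im) by ring, abs_neg, abs_mul]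
    norm_num
  rw [h3] at key
  calc |(w z).im| ≤ (Real.pi / 3 * C / ‖z‖ ^ 3) / 2 := by linarith
    _ = _ := by ring

end Pool.Agent.StatSurf
end

section

/-! # Task S5: the two integrals -/

open Complex MeasureTheory

namespace Pool.Agent.StatSurf

private theorem iUnion_ring : (⋃ m : ℕ, ring m) = Set.univ := by
  ext z
  simp only [Set.mem_iUnion, Set.mem_univ, iff_true]
  exact ⟨⌊‖z‖⌋₊, Nat.floor_le (norm_nonneg z), Nat.lt_floor_add_one _⟩

private theorem disj_ring : Pairwise (Function.onFun Disjoint (fun m : ℕ => ring m)) := by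
  intro m n hmn
  rw [Function.onFun, Set.disjoint_left]
  rintro z ⟨h1, h2⟩ ⟨h3, h4⟩
  apply hmn
  have a : (m : ℝ) < n + 1 := lt_of_le_of_lt h1 h4
  have b : (n : ℝ) < m + 1 := lt_of_le_of_lt h3 h2
  have a' : m < n + 1 := by exact_mod_cast a
  have b' : n < m + 1 := by exact_mod_cast b
  omega

private theorem lint_eq (F : ℂ → ENNReal) : ∫⁻ z, F z = ∑' m : ℕ, ∫⁻ z in ring m, F z := by
  rw [← lintegral_iUnion measurableSet_ring disj_ring, iUnion_ring, setLIntegral_univ]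

private theorem norm_eq {g w : ℂ → ℂ} (z : ℂ) :
    mu g z * exp (w z) = exp (((w z).re : ℂ) + (((g z).im + (w z).im : ℝ) : ℂ) * I) := by
  unfold mu
  rw [← Complex.exp_add]
  congr 1
  conv_lhs => rw [← Complex.re_add_im (w z)]
  push_cast
  ring

private theorem re_eq {g w : ℂ → ℂ} (z : ℂ) :
    (mu g z * exp (w z)).re = Real.exp (w z).re * Real.cos ((g z).im + (w z).im) := by
  rw [norm_eq, Complex.exp_re]
  simp

private theorem im_eq {g w : ℂ → ℂ} (z : ℂ) :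
    (mu g z * exp (w z)).im = Real.exp (w z).re * Real.sin ((g z).im + (w z).im) := by
  rw [norm_eq, Complex.exp_im]
  simp

private theorem exp_le {w : ℂ → ℂ} (hw : Cls w (1 / 4)) (z : ℂ) :
    Real.exp (w z).re ≤ 2 * Real.sqrt (1 + ‖z‖) := by
  have h1 := hw.growth z
  have hL : 0 ≤ Real.log (1 + ‖z‖) := Real.log_nonneg (by have := norm_nonneg z; linarith)
  have h2 : (w z).re ≤ ‖w z‖ := Complex.re_le_norm _
  have hlog2 : (1 / 4 : ℝ) ≤ Real.log 2 := by have := Real.log_two_gt_d9; linarith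
  calc Real.exp (w z).re ≤ Real.exp (Real.log 2 + Real.log (1 + ‖z‖) / 2) := by
        apply Real.exp_le_exp.2
        linarith
    _ = 2 * Real.sqrt (1 + ‖z‖) := by
        have hp : 0 < 1 + ‖z‖ := by have := norm_nonneg z; linarith
        rw [Real.exp_add, Real.exp_log (by norm_num), ← Real.log_sqrt hp.le,
          Real.exp_log (Real.sqrt_pos.2 hp)]

private theorem exp_ge {w : ℂ → ℂ} (hw : Cls w (1 / 4)) (z : ℂ) :
    1 / (2 * (1 + ‖z‖)) ≤ Real.exp (w z).re := by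
  have h1 := hw.growth z
  have hp : 0 < 1 + ‖z‖ := by have := norm_nonneg z; linarith
  have hL : 0 ≤ Real.log (1 + ‖z‖) := Real.log_nonneg (by have := norm_nonneg z; linarith)
  have h2 : -‖w z‖ ≤ (w z).re := (abs_le.1 (Complex.abs_re_le_norm (w z))).1
  have hlog2 : (1 / 4 : ℝ) ≤ Real.log 2 := by have := Real.log_two_gt_d9; linarith
  calc 1 / (2 * (1 + ‖z‖)) = Real.exp (-(Real.log 2 + Real.log (1 + ‖z‖))) := by
        rw [Real.exp_neg, Real.exp_add, Real.exp_log (by norm_num), Real.exp_log hp, one_div]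
    _ ≤ Real.exp (w z).re := by
        apply Real.exp_le_exp.2
        linarith

/-- The set where the phase is not close to `± π / 2`. -/
private def Bad (g : ℂ → ℂ) (m : ℕ) : Set ℂ :=
  {z ∈ ring m | ¬ (‖g z - I * (Real.pi / 2 : ℝ)‖ ≤ (1 / 2) ^ m ∨
    ‖g z + I * (Real.pi / 2 : ℝ)‖ ≤ (1 / 2) ^ m)}

private theorem good {g : ℂ → ℂ} {m : ℕ} {z : ℂ} (hz : z ∈ ring m) (hb : z ∉ Bad g m) (y : ℝ) :
    ∃ x : ℝ, |x| ≤ (1 / 2) ^ m + |y| ∧ |Real.cos ((g z).im + y)| = |Real.sin x| ∧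
      |Real.sin ((g z).im + y)| = |Real.cos x| := by
  have h : ‖g z - I * (Real.pi / 2 : ℝ)‖ ≤ (1 / 2) ^ m ∨
      ‖g z + I * (Real.pi / 2 : ℝ)‖ ≤ (1 / 2) ^ m := by
    by_contra h
    exact hb ⟨hz, h⟩
  rcases h with h | h
  · refine ⟨(g z).im + y - Real.pi / 2, ?_, ?_, ?_⟩
    · have h1 : |(g z).im - Real.pi / 2| ≤ (1 / 2) ^ m := by
        refine le_trans ?_ h
        have := Complex.abs_im_le_norm (g z - I * (Real.pi / 2 : ℝ))
        simpa using this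
      have h2 : (g z).im + y - Real.pi / 2 = ((g z).im - Real.pi / 2) + y := by ring
      rw [h2]
      exact (abs_add_le _ _).trans (by linarith)
    · rw [Real.sin_sub_pi_div_two, abs_neg]
    · rw [Real.cos_sub_pi_div_two]
  · refine ⟨(g z).im + y + Real.pi / 2, ?_, ?_, ?_⟩
    · have h1 : |(g z).im + Real.pi / 2| ≤ (1 / 2) ^ m := by
        refine le_trans ?_ h
        have := Complex.abs_im_le_norm (g z + I * (Real.pi / 2 : ℝ))
        simpa using this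
      have h2 : (g z).im + y + Real.pi / 2 = ((g z).im + Real.pi / 2) + y := by ring
      rw [h2]
      exact (abs_add_le _ _).trans (by linarith)
    · rw [Real.sin_add_pi_div_two]
    · rw [Real.cos_add_pi_div_two, abs_neg]

private theorem exists_bad {g : ℂ → ℂ} {c : ℝ} {w : ℂ → ℂ} (hg : Phase g) (hw : Sol g c w) :
    ∃ C : ℝ, 0 ≤ C ∧ ∀ m : ℕ, ∃ B : Set ℂ, MeasurableSet B ∧
      volume B ≤ ENNReal.ofReal ((1 / 2) ^ m) ∧
      ∀ z ∈ ring m, z ∉ B → |Real.cos ((g z).im + (w z).im)| ≤ (1 / 2) ^ m + C / ((m : ℝ) + 1) ^ 3 := by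
  obtain ⟨C, hC⟩ := hw.im_decay hg
  refine ⟨max 8 (4 * C), by positivity, ?_⟩
  intro m
  by_cases hm : m < 2
  · refine ⟨∅, MeasurableSet.empty, by simp, ?_⟩
    intro z _ _
    refine (Real.abs_cos_le_one _).trans ?_
    have h1 : (0 : ℝ) ≤ (1 / 2) ^ m := by positivity
    have h2 : (1 : ℝ) ≤ max 8 (4 * C) / ((m : ℝ) + 1) ^ 3 := by
      rw [le_div_iff₀ (by positivity), one_mul]
      refine le_trans ?_ (le_max_left _ _)
      have h3 : (m : ℝ) ≤ 1 := by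
        have : m ≤ 1 := by omega
        exact_mod_cast this
      have h4 : ((m : ℝ) + 1) ^ 3 ≤ 2 ^ 3 := by
        apply pow_le_pow_left₀ (by positivity)
        linarith
      linarith
    linarith
  · refine ⟨toMeasurable volume (Bad g m), measurableSet_toMeasurable _ _, ?_, ?_⟩
    · rw [measure_toMeasurable]
      exact hg.near m (by omega)
    · intro z hz hzB
      have hzB' : z ∉ Bad g m := fun h => hzB (subset_toMeasurable _ _ h)
      obtain ⟨x, hx1, hx2, -⟩ := good hz hzB' (w z).im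
      rw [hx2]
      have hm2 : (2 : ℝ) ≤ m := by
        have : 2 ≤ m := by omega
        exact_mod_cast this
      have hz2 : 2 ≤ ‖z‖ := hm2.trans hz.1
      have h1 := hC z hz2
      have hCz : C / ‖z‖ ^ 3 ≤ max 8 (4 * C) / ((m : ℝ) + 1) ^ 3 := by
        have hzp : 0 < ‖z‖ ^ 3 := by positivity
        rw [div_le_div_iff₀ hzp (by positivity)]
        have h5 : ((m : ℝ) + 1) ^ 3 ≤ 4 * ‖z‖ ^ 3 := by
          have h6 : (m : ℝ) + 1 ≤ (3 / 2) * ‖z‖ := by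
            have := hz.1
            linarith
          calc ((m : ℝ) + 1) ^ 3 ≤ ((3 / 2) * ‖z‖) ^ 3 := by
                apply pow_le_pow_left₀ (by positivity) h6
            _ = (27 / 8) * ‖z‖ ^ 3 := by ring
            _ ≤ 4 * ‖z‖ ^ 3 := by nlinarith
        rcases le_or_gt 0 C with hC0 | hC0
        · have h7 : 4 * C ≤ max 8 (4 * C) := le_max_right _ _
          calc C * ((m : ℝ) + 1) ^ 3 ≤ C * (4 * ‖z‖ ^ 3) := by gcongr
            _ = (4 * C) * ‖z‖ ^ 3 := by ring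
            _ ≤ max 8 (4 * C) * ‖z‖ ^ 3 := by gcongr
        · have h7 : C * ((m : ℝ) + 1) ^ 3 ≤ 0 := by
            apply mul_nonpos_of_nonpos_of_nonneg hC0.le (by positivity)
          exact h7.trans (by positivity)
      calc |Real.sin x| ≤ |x| := Real.abs_sin_le_abs
        _ ≤ _ := by linarith

private theorem summable_u (C : ℝ) :
    Summable (fun m : ℕ => 2 * Real.sqrt ((m : ℝ) + 2) * (1 / 2) ^ m +
      2 * Real.sqrt ((m : ℝ) + 2) * ((1 / 2) ^ m + C / ((m : ℝ) + 1) ^ 3) *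
        (Real.pi * (2 * m + 1))) := by
  have hgeo : Summable (fun m : ℕ => ((m : ℝ) + 1) ^ 2 * (1 / 2) ^ (m + 1)) := by
    have h := summable_pow_mul_geometric_of_norm_lt_one 2 (r := (1 / 2 : ℝ)) (by norm_num)
    have h2 := (summable_nat_add_iff 1).2 h
    simpa using h2
  have hp : Summable (fun m : ℕ => ((m : ℝ) + 1) ^ (-(3 / 2) : ℝ)) := by
    have h := (Real.summable_nat_rpow (p := (-(3 / 2) : ℝ))).2 (by norm_num)
    have h2 := (summable_nat_add_iff 1).2 h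
    simpa using h2
  have hsq : ∀ m : ℕ, Real.sqrt ((m : ℝ) + 2) ≤ 2 * ((m : ℝ) + 1) := by
    intro m
    rw [Real.sqrt_le_left (by positivity)]
    nlinarith [Nat.cast_nonneg (α := ℝ) m]
  have hsq2 : ∀ m : ℕ, Real.sqrt ((m : ℝ) + 2) ≤ 2 * ((m : ℝ) + 1) ^ (1 / 2 : ℝ) := by
    intro m
    rw [← Real.sqrt_eq_rpow]
    have : Real.sqrt ((m : ℝ) + 2) ≤ Real.sqrt (2 ^ 2 * ((m : ℝ) + 1)) := by
      apply Real.sqrt_le_sqrt
      nlinarith [Nat.cast_nonneg (α := ℝ) m]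
    rwa [Real.sqrt_mul (by norm_num), Real.sqrt_sq (by norm_num)] at this
  have hA : Summable (fun m : ℕ => 2 * Real.sqrt ((m : ℝ) + 2) * (1 / 2) ^ m) := by
    refine Summable.of_nonneg_of_le (fun m => by positivity) (fun m => ?_) (hgeo.mul_left 8)
    have h1 := hsq m
    have h2 : (0 : ℝ) < (1 / 2) ^ m := by positivity
    have h3 : (m : ℝ) + 1 ≤ ((m : ℝ) + 1) ^ 2 := by
      nlinarith [Nat.cast_nonneg (α := ℝ) m]
    calc 2 * Real.sqrt ((m : ℝ) + 2) * (1 / 2) ^ m ≤ 2 * (2 * ((m : ℝ) + 1) ^ 2) * (1 / 2) ^ m := by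
          gcongr
          linarith
      _ = 8 * (((m : ℝ) + 1) ^ 2 * (1 / 2) ^ (m + 1)) := by rw [pow_succ]; ring
  have hB : Summable (fun m : ℕ => 2 * Real.sqrt ((m : ℝ) + 2) * (1 / 2) ^ m *
      (Real.pi * (2 * m + 1))) := by
    refine Summable.of_nonneg_of_le (fun m => by positivity) (fun m => ?_)
      (hgeo.mul_left (16 * Real.pi))
    have h1 := hsq m
    calc 2 * Real.sqrt ((m : ℝ) + 2) * (1 / 2) ^ m * (Real.pi * (2 * m + 1))
        ≤ 2 * (2 * ((m : ℝ) + 1)) * (1 / 2) ^ m * (Real.pi * (2 * ((m : ℝ) + 1))) := by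
          gcongr
          linarith
      _ = 16 * Real.pi * (((m : ℝ) + 1) ^ 2 * (1 / 2) ^ (m + 1)) := by rw [pow_succ]; ring
  have hD : Summable (fun m : ℕ => 2 * Real.sqrt ((m : ℝ) + 2) * (1 / ((m : ℝ) + 1) ^ 3) *
      (Real.pi * (2 * m + 1))) := by
    refine Summable.of_nonneg_of_le (fun m => by positivity) (fun m => ?_)
      (hp.mul_left (8 * Real.pi))
    have h1 := hsq2 m
    have hm : (0 : ℝ) < (m : ℝ) + 1 := by positivity
    calc 2 * Real.sqrt ((m : ℝ) + 2) * (1 / ((m : ℝ) + 1) ^ 3) * (Real.pi * (2 * m + 1))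
        ≤ 2 * (2 * ((m : ℝ) + 1) ^ (1 / 2 : ℝ)) * (1 / ((m : ℝ) + 1) ^ 3) *
          (Real.pi * (2 * ((m : ℝ) + 1))) := by
          gcongr
          linarith
      _ = 8 * Real.pi * (((m : ℝ) + 1) ^ (1 / 2 : ℝ) * (((m : ℝ) + 1) / ((m : ℝ) + 1) ^ 3)) := by
          ring
      _ = 8 * Real.pi * ((m : ℝ) + 1) ^ (-(3 / 2) : ℝ) := by
          congr 1
          have h3 : ((m : ℝ) + 1) / ((m : ℝ) + 1) ^ 3 = ((m : ℝ) + 1) ^ (-2 : ℝ) := by
            rw [Real.rpow_neg hm.le]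
            have : ((m : ℝ) + 1) ^ (2 : ℝ) = ((m : ℝ) + 1) ^ (2 : ℕ) := by
              exact_mod_cast Real.rpow_natCast ((m : ℝ) + 1) 2
            rw [this]
            field_simp
          rw [h3, ← Real.rpow_add hm]
          norm_num
  refine ((hA.add hB).add (hD.mul_left C)).congr ?_
  intro m
  ring

/-- The integral of the absolute value of the real part is finite. -/
theorem Sol.lintegral_re {g : ℂ → ℂ} {c : ℝ} {w : ℂ → ℂ} (hg : Phase g) (hw : Sol g c w) :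
    ∫⁻ z, ENNReal.ofReal |(mu g z * exp (w z)).re| < ⊤ := by
  obtain ⟨C, hC0, hC⟩ := exists_bad hg hw
  rw [lint_eq]
  set u : ℕ → ℝ := fun m : ℕ => 2 * Real.sqrt ((m : ℝ) + 2) * (1 / 2) ^ m +
      2 * Real.sqrt ((m : ℝ) + 2) * ((1 / 2) ^ m + C / ((m : ℝ) + 1) ^ 3) *
        (Real.pi * (2 * m + 1)) with hu
  have hle : ∀ m : ℕ, ∫⁻ z in ring m, ENNReal.ofReal |(mu g z * exp (w z)).re| ≤
      ENNReal.ofReal (u m) := by
    intro m
    obtain ⟨B, hBm, hBv, hB⟩ := hC m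
    have hb : ∀ z ∈ ring m, |(mu g z * exp (w z)).re| ≤ 2 * Real.sqrt ((m : ℝ) + 2) *
        |Real.cos ((g z).im + (w z).im)| := by
      intro z hz
      rw [re_eq, abs_mul, abs_of_pos (Real.exp_pos _)]
      gcongr
      refine (exp_le hw.cls z).trans ?_
      have h2 := hz.2
      have h3 : 1 + ‖z‖ ≤ (m : ℝ) + 2 := by linarith
      gcongr
    rw [← lintegral_inter_add_sdiff _ (ring m) hBm]
    have h1 : ∫⁻ z in ring m ∩ B, ENNReal.ofReal |(mu g z * exp (w z)).re| ≤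
        ENNReal.ofReal (2 * Real.sqrt ((m : ℝ) + 2) * (1 / 2) ^ m) := by
      calc ∫⁻ z in ring m ∩ B, ENNReal.ofReal |(mu g z * exp (w z)).re|
          ≤ ∫⁻ z in ring m ∩ B, ENNReal.ofReal (2 * Real.sqrt ((m : ℝ) + 2)) := by
            apply setLIntegral_mono' ((measurableSet_ring m).inter hBm)
            intro z hz
            apply ENNReal.ofReal_le_ofReal
            refine (hb z hz.1).trans ?_
            refine mul_le_of_le_one_right (by positivity) (Real.abs_cos_le_one _)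
        _ = ENNReal.ofReal (2 * Real.sqrt ((m : ℝ) + 2)) * volume (ring m ∩ B) := by
            rw [setLIntegral_const]
        _ ≤ ENNReal.ofReal (2 * Real.sqrt ((m : ℝ) + 2)) * ENNReal.ofReal ((1 / 2) ^ m) := by
            gcongr
            exact (measure_mono Set.inter_subset_right).trans hBv
        _ = _ := by rw [← ENNReal.ofReal_mul (by positivity)]
    have h2 : ∫⁻ z in ring m \ B, ENNReal.ofReal |(mu g z * exp (w z)).re| ≤
        ENNReal.ofReal (2 * Real.sqrt ((m : ℝ) + 2) * ((1 / 2) ^ m + C / ((m : ℝ) + 1) ^ 3) *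
        (Real.pi * (2 * m + 1))) := by
      calc ∫⁻ z in ring m \ B, ENNReal.ofReal |(mu g z * exp (w z)).re|
          ≤ ∫⁻ z in ring m \ B, ENNReal.ofReal (2 * Real.sqrt ((m : ℝ) + 2) *
              ((1 / 2) ^ m + C / ((m : ℝ) + 1) ^ 3)) := by
            apply setLIntegral_mono' ((measurableSet_ring m).diff hBm)
            intro z hz
            apply ENNReal.ofReal_le_ofReal
            refine (hb z hz.1).trans ?_
            gcongr
            exact hB z hz.1 hz.2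
        _ = ENNReal.ofReal (2 * Real.sqrt ((m : ℝ) + 2) * ((1 / 2) ^ m + C / ((m : ℝ) + 1) ^ 3)) *
              volume (ring m \ B) := by
            rw [setLIntegral_const]
        _ ≤ ENNReal.ofReal (2 * Real.sqrt ((m : ℝ) + 2) * ((1 / 2) ^ m + C / ((m : ℝ) + 1) ^ 3)) *
              ENNReal.ofReal (Real.pi * (2 * m + 1)) := by
            gcongr
            rw [← volume_ring]
            exact measure_mono Set.sdiff_subset
        _ = _ := by rw [← ENNReal.ofReal_mul (by positivity)]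
    rw [hu]
    rw [ENNReal.ofReal_add (by positivity) (by positivity)]
    exact add_le_add h1 h2
  refine lt_of_le_of_lt (ENNReal.tsum_le_tsum hle) ?_
  rw [← ENNReal.ofReal_tsum_of_nonneg (fun m => by positivity) (summable_u C)]
  exact ENNReal.ofReal_lt_top

/-- The integral of the absolute value of the imaginary part is infinite. -/
theorem Sol.lintegral_im {g : ℂ → ℂ} {c : ℝ} {w : ℂ → ℂ} (hg : Phase g) (hw : Sol g c w) :
    ∫⁻ z, ENNReal.ofReal |(mu g z * exp (w z)).im| = ⊤ := by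
  obtain ⟨C, hC0, hC⟩ := exists_bad hg hw
  rw [lint_eq]
  obtain ⟨N, hN⟩ := exists_nat_gt (2 * C + 2)
  have hge : ∀ m : ℕ, ENNReal.ofReal (1 / 8) ≤
      ∫⁻ z in ring (m + N), ENNReal.ofReal |(mu g z * exp (w z)).im| := by
    intro m
    obtain ⟨B, hBm, hBv, hB⟩ := hC (m + N)
    set M : ℕ := m + N with hM
    have hMN : (N : ℝ) ≤ M := by rw [hM]; push_cast; linarith [Nat.cast_nonneg (α := ℝ) m]
    have hM2 : 2 * C + 2 < (M : ℝ) := lt_of_lt_of_le hN hMN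
    have hM1 : 1 ≤ M := by
      have : (0 : ℝ) < M := by linarith
      exact_mod_cast this
    have hpow : ((1 : ℝ) / 2) ^ M ≤ 1 / 2 := by
      calc ((1 : ℝ) / 2) ^ M ≤ (1 / 2) ^ 1 := pow_le_pow_of_le_one (by norm_num) (by norm_num) hM1
        _ = 1 / 2 := by norm_num
    have hsmall : (1 / 2 : ℝ) ^ M + C / ((M : ℝ) + 1) ^ 3 ≤ 3 / 4 := by
      have h1 : C / ((M : ℝ) + 1) ^ 3 ≤ 1 / 4 := by
        rw [div_le_div_iff₀ (by positivity) (by norm_num)]
        have h2 : 4 * C ≤ ((M : ℝ) + 1) ^ 3 := by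
          have h3 : (1 : ℝ) ≤ M + 1 := by linarith
          have h4 : (3 : ℝ) ≤ M + 1 := by linarith
          nlinarith [sq_nonneg ((M : ℝ) + 1), mul_self_nonneg ((M : ℝ) - 1)]
        linarith
      linarith
    have hb : ∀ z ∈ ring M \ B, 1 / (4 * ((M : ℝ) + 2)) ≤ |(mu g z * exp (w z)).im| := by
      intro z hz
      rw [im_eq, abs_mul, abs_of_pos (Real.exp_pos _)]
      have h1 := hB z hz.1 hz.2
      have h2 : |Real.cos ((g z).im + (w z).im)| ≤ 3 / 4 := h1.trans hsmall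
      have h3 : 1 / 2 ≤ |Real.sin ((g z).im + (w z).im)| := by
        by_contra h
        push Not at h
        have h4 := Real.sin_sq_add_cos_sq ((g z).im + (w z).im)
        rw [← sq_abs (Real.sin _), ← sq_abs (Real.cos _)] at h4
        nlinarith [abs_nonneg (Real.sin ((g z).im + (w z).im)),
          abs_nonneg (Real.cos ((g z).im + (w z).im))]
      have h4 := exp_ge hw.cls z
      have h5 : 1 / (2 * ((M : ℝ) + 2)) ≤ 1 / (2 * (1 + ‖z‖)) := by
        have hz2 := hz.1.2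
        have hzn := norm_nonneg z
        have h6 : 1 + ‖z‖ ≤ (M : ℝ) + 2 := by linarith
        gcongr
      calc 1 / (4 * ((M : ℝ) + 2)) = 1 / (2 * ((M : ℝ) + 2)) * (1 / 2) := by
            field_simp
            norm_num
        _ ≤ Real.exp (w z).re * |Real.sin ((g z).im + (w z).im)| := by
            apply mul_le_mul (h5.trans h4) h3 (by norm_num) (Real.exp_pos _).le
    have hvol : ENNReal.ofReal (Real.pi * (2 * M + 1) - 1) ≤ volume (ring M \ B) := by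
      have h1 : volume (ring M) - volume B ≤ volume (ring M \ B) := le_measure_sdiff
      refine le_trans ?_ h1
      rw [volume_ring]
      rw [ENNReal.ofReal_sub _ (by norm_num)]
      apply tsub_le_tsub_left
      refine hBv.trans ?_
      apply ENNReal.ofReal_le_ofReal
      linarith
    calc ENNReal.ofReal (1 / 8) ≤ ENNReal.ofReal (1 / (4 * ((M : ℝ) + 2)) *
          (Real.pi * (2 * M + 1) - 1)) := by
          apply ENNReal.ofReal_le_ofReal
          rw [div_mul_eq_mul_div, one_mul, div_le_div_iff₀ (by norm_num) (by positivity)]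
          have := Real.pi_gt_three
          nlinarith
      _ = ENNReal.ofReal (1 / (4 * ((M : ℝ) + 2))) * ENNReal.ofReal (Real.pi * (2 * M + 1) - 1) := by
          rw [ENNReal.ofReal_mul (by positivity)]
      _ ≤ ENNReal.ofReal (1 / (4 * ((M : ℝ) + 2))) * volume (ring M \ B) := by
          gcongr
      _ = ∫⁻ z in ring M \ B, ENNReal.ofReal (1 / (4 * ((M : ℝ) + 2))) := by
          rw [setLIntegral_const]
      _ ≤ ∫⁻ z in ring M \ B, ENNReal.ofReal |(mu g z * exp (w z)).im| := by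
          apply setLIntegral_mono' ((measurableSet_ring M).diff hBm)
          intro z hz
          exact ENNReal.ofReal_le_ofReal (hb z hz)
      _ ≤ ∫⁻ z in ring M, ENNReal.ofReal |(mu g z * exp (w z)).im| :=
          lintegral_mono_set Set.sdiff_subset
  have htop : (⊤ : ENNReal) ≤ ∑' m : ℕ, ∫⁻ z in ring (m + N),
      ENNReal.ofReal |(mu g z * exp (w z)).im| := by
    rw [← ENNReal.tsum_const_eq_top_of_ne_zero (α := ℕ) (c := ENNReal.ofReal (1 / 8)) (by simp)]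
    exact ENNReal.tsum_le_tsum hge
  refine top_le_iff.1 (htop.trans ?_)
  exact ENNReal.tsum_comp_le_tsum_of_injective (f := fun m : ℕ => m + N)
    (fun a b h => by simpa using h) (fun m => ∫⁻ z in ring m, ENNReal.ofReal |(mu g z * exp (w z)).im|)

end Pool.Agent.StatSurf
end

section

/-! # Task S6: the solution of the complex Liouville equation -/

open Complex MeasureTheory

namespace Pool.Agent.StatSurf

/-- `z ↦ i Im z`. -/
private noncomputable def L0 : ℂ →L[ℝ] ℂ := I • (Complex.ofRealCLM.comp Complex.imCLM)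

private theorem L0_apply (z : ℂ) : L0 z = I * ((z.im : ℝ) : ℂ) := by
  simp [L0]

private theorem pd_L0 {h : ℂ → ℂ} (hh : Differentiable ℂ h) (i : Fin 2) (z : ℂ) :
    pd i (fun z => L0 (h z)) z = L0 (deriv h z * e i) := by
  unfold pd
  have h1 : HasFDerivAt h ((ContinuousLinearMap.toSpanSingleton ℂ (deriv h z)).restrictScalars ℝ) z :=
    (hh z).hasDerivAt.hasFDerivAt.restrictScalars ℝ
  have h2 := L0.hasFDerivAt.comp z h1
  have h3 : fderiv ℝ (fun z => L0 (h z)) z = _ := h2.fderiv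
  rw [h3]
  simp [mul_comm]

/-- `Δ (i Im g) = 0`. -/
theorem lap_im {g : ℂ → ℂ} (hg : Differentiable ℂ g) (z : ℂ) :
    lap (fun z => I * ((g z).im : ℂ)) z = 0 := by
  have h0 : (fun z => I * ((g z).im : ℂ)) = fun z => L0 (g z) := by
    funext z; rw [L0_apply]
  have hd : Differentiable ℂ (deriv g) := by
    exact (hg.contDiff (n := 2)).differentiable_deriv_two
  have h1 : ∀ i : Fin 2, pd i (fun z => I * ((g z).im : ℂ)) = fun z => L0 (deriv g z * e i) := by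
    intro i
    funext z
    rw [h0, pd_L0 hg]
  unfold lap
  rw [h1 0, h1 1]
  rw [pd_L0 (hd.mul_const _), pd_L0 (hd.mul_const _), ← map_add]
  rw [deriv_mul_const_field, deriv_mul_const_field]
  have h2 : deriv (deriv g) z * e 0 * e 0 + deriv (deriv g) z * e 1 * e 1 = 0 := by
    simp only [e, if_true, one_ne_zero, if_false, mul_one]
    rw [mul_assoc, I_mul_I]
    ring
  rw [h2, map_zero]

theorem contDiff_im {g : ℂ → ℂ} (hg : Differentiable ℂ g) :
    ContDiff ℝ (⊤ : ℕ∞) (fun z => I * ((g z).im : ℂ)) := by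
  have h0 : (fun z => I * ((g z).im : ℂ)) = fun z => L0 (g z) := by
    funext z; rw [L0_apply]
  rw [h0]
  exact L0.contDiff.comp ((hg.contDiff (n := (⊤ : ℕ∞))).restrict_scalars ℝ)

private theorem pd_add {f g : ℂ → ℂ} (hf : ContDiff ℝ (⊤ : ℕ∞) f) (hg : ContDiff ℝ (⊤ : ℕ∞) g)
    (i : Fin 2) : pd i (fun z => f z + g z) = fun z => pd i f z + pd i g z := by
  funext z
  unfold pd
  rw [fderiv_fun_add (hf.differentiable (by simp) z) (hg.differentiable (by simp) z)]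
  rfl

private theorem contDiff_pd {f : ℂ → ℂ} (hf : ContDiff ℝ (⊤ : ℕ∞) f) (i : Fin 2) :
    ContDiff ℝ (⊤ : ℕ∞) (pd i f) := by
  unfold pd
  exact (hf.fderiv_right (m := (⊤ : ℕ∞)) (by simp)).clm_apply contDiff_const

private theorem lap_add {f g : ℂ → ℂ} (hf : ContDiff ℝ (⊤ : ℕ∞) f) (hg : ContDiff ℝ (⊤ : ℕ∞) g)
    (z : ℂ) : lap (fun z => f z + g z) z = lap f z + lap g z := by
  unfold lap
  rw [pd_add hf hg, pd_add hf hg, pd_add (contDiff_pd hf _) (contDiff_pd hg _),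
    pd_add (contDiff_pd hf _) (contDiff_pd hg _)]
  ring

private theorem lap_const (a z : ℂ) : lap (fun _ => a) z = 0 := by
  unfold lap pd
  simp

/-- `l = log (π c) + i Im g + w`. -/
theorem exists_liouville : ∃ l : ℂ → ℂ, ContDiff ℝ (⊤ : ℕ∞) l ∧
    (∀ z, lap l z = -2 * exp (l z)) ∧
    (∃ C : ℝ, ∀ z, (l z).re ≤ C + 1 / 4 * Real.log (1 + ‖z‖)) ∧
    (∫⁻ z, ENNReal.ofReal |(exp (l z)).re| < ⊤) ∧
    (∫⁻ z, ENNReal.ofReal |(exp (l z)).im| = ⊤) := by
  obtain ⟨g, hg⟩ := exists_phase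
  obtain ⟨c, hc, w, hw⟩ := exists_sol hg
  have hpc : 0 < Real.pi * c := mul_pos Real.pi_pos hc
  set l : ℂ → ℂ := fun z => ((Real.log (Real.pi * c) : ℝ) : ℂ) + (I * ((g z).im : ℂ) + w z) with hl
  have hexp : ∀ z, exp (l z) = ((Real.pi * c : ℝ) : ℂ) * (mu g z * exp (w z)) := by
    intro z
    simp only [hl]
    rw [exp_add, exp_add, ← ofReal_exp, Real.exp_log hpc]
    rfl
  have hw2 : ContDiff ℝ (⊤ : ℕ∞) w := Sol.contDiff hg hw
  have hi := contDiff_im hg.diff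
  refine ⟨l, ?_, ?_, ?_, ?_, ?_⟩
  · exact contDiff_const.add (hi.add hw2)
  · intro z
    rw [hexp]
    simp only [hl]
    rw [lap_add contDiff_const (hi.add hw2), lap_add hi hw2, lap_const, lap_im hg.diff,
      Sol.lap_eq hg hw]
    push_cast
    ring
  · refine ⟨Real.log (Real.pi * c) + 1 / 4, fun z => ?_⟩
    have h1 : (l z).re = Real.log (Real.pi * c) + (w z).re := by
      simp [hl]
    have h2 : (w z).re ≤ ‖w z‖ := Complex.re_le_norm _
    have h3 := Cls.growth hw.cls z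
    rw [h1]
    linarith
  · have h1 : ∀ z, ENNReal.ofReal |(exp (l z)).re| =
        ENNReal.ofReal (Real.pi * c) * ENNReal.ofReal |(mu g z * exp (w z)).re| := by
      intro z
      rw [hexp, re_ofReal_mul, abs_mul, abs_of_pos hpc, ENNReal.ofReal_mul hpc.le]
    simp_rw [h1]
    rw [lintegral_const_mul' _ _ ENNReal.ofReal_ne_top]
    exact ENNReal.mul_lt_top ENNReal.ofReal_lt_top (Sol.lintegral_re hg hw)
  · have h1 : ∀ z, ENNReal.ofReal |(exp (l z)).im| =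
        ENNReal.ofReal (Real.pi * c) * ENNReal.ofReal |(mu g z * exp (w z)).im| := by
      intro z
      rw [hexp, im_ofReal_mul, abs_mul, abs_of_pos hpc, ENNReal.ofReal_mul hpc.le]
    simp_rw [h1]
    rw [lintegral_const_mul' _ _ ENNReal.ofReal_ne_top, Sol.lintegral_im hg hw,
      ENNReal.mul_top]
    rw [Ne, ENNReal.ofReal_eq_zero, not_le]
    exact hpc

end Pool.Agent.StatSurf
end
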